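import Mathlib
import Pool.Agent.Helper669.Forcing

set_option autoImplicit false

/-!
# Colourings of pairs and closed copies of `ω₁` in a forcing extension

`L` is a well-ordered set of the ground model which is `ω₁` in the extension, and `K` is a
well-ordered set of the ground model. So `K` stands for an ordinal; every ordinal of the extension
is of this form.
-/

universe u v w

namespace Pool.Agent.R580.CCDefs

open Pool.Agent.Helper669.Forcing

variable {P : Type u} [Preorder P] {L : Type v} [LinearOrder L] {K : Type w} [LinearOrder K]

/-- In the extension the well-ordered set `L` has order type `ω₁`: it is not the range of a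
function on `ℕ`, but for every `a : L` some function on `ℕ` has all the `b < a` as values. -/
def IsOmegaOne (P : Type u) [Preorder P] (L : Type v) [LinearOrder L] : Set P :=
  fand (fnot (fex fun R : ℕ → L → Set P => fand (IsFun R) (IsOnto R)))
    (fall fun a : L => fex fun R : ℕ → L → Set P =>
      fand (IsFun R) (fall fun b => fall fun _ : b < a => fex fun n => meets (R n b)))

/-- `C` names a function which gives to each pair `x < y` of elements of `K` a colour in `L`. -/
def IsColouring (C : K → K → L → Set P) : Set P :=
  fall fun x => fall fun y => fall fun _ : x < y =>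
    fand (fex fun ν => meets (C x y ν))
      (fall fun ν => fall fun ν' =>
        fimp (fand (meets (C x y ν)) (meets (C x y ν'))) (fground (ν = ν')))

/-- `F` names a strictly increasing and continuous function from `L` to `K`. When `L` is `ω₁`,
the values of `F` form a closed set of order type `ω₁`, and every closed set of order type `ω₁` is
the set of values of such a function. -/
def IsClosedCopy (F : L → K → Set P) : Set P :=
  fand (IsFun F)
    (fand
      (fall fun ξ => fall fun η => fall fun _ : ξ < η => fall fun x => fall fun y =>
        fimp (fand (meets (F ξ x)) (meets (F η y))) (fground (x < y)))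
      (fall fun δ : L => fall fun _ : Order.IsSuccLimit δ => fall fun y => fall fun z =>
        fimp (fand (meets (F δ y))
            (fall fun ξ => fall fun _ : ξ < δ => fall fun x =>
              fimp (meets (F ξ x)) (fground (x < z))))
          (fground (y ≤ z))))

/-- Some pair `x < y` of values of `F` has colour `ν`. -/
def HasPair (C : K → K → L → Set P) (F : L → K → Set P) (ν : L) : Set P :=
  fex fun ξ => fex fun η => fex fun x => fex fun y =>
    fand (fground (x < y)) (fand (fand (meets (F ξ x)) (meets (F η y))) (meets (C x y ν)))

/-- In the extension there is a colouring of the pairs of elements of `K` with colours in `L` such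
that every closed set of order type `ω₁` has pairs of every colour. -/
def Surjective (P : Type u) [Preorder P] (L : Type v) [LinearOrder L] (K : Type w)
    [LinearOrder K] : Set P :=
  fex fun C : K → K → L → Set P => fand (IsColouring C)
    (fall fun F : L → K → Set P => fimp (IsClosedCopy F) (fall fun ν => HasPair C F ν))

/-- In the extension there is a function from `K` to `L` which takes every value in `L` on every
closed set of order type `ω₁`. -/
def PointSurjective (P : Type u) [Preorder P] (L : Type v) [LinearOrder L] (K : Type w)
    [LinearOrder K] : Set P :=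
  fex fun c : K → L → Set P => fand (IsFun c)
    (fall fun F : L → K → Set P => fimp (IsClosedCopy F)
      (fall fun ν => fex fun ξ => fex fun x => fand (meets (F ξ x)) (meets (c x ν))))

theorem down_IsClosedCopy (F : L → K → Set P) : Down (IsClosedCopy F) :=
  down_fand (down_IsFun F)
    (down_fand (down_fall fun _ => down_fall fun _ => down_fall fun _ => down_fall fun _ =>
      down_fall fun _ => down_fimp _ _)
      (down_fall fun _ => down_fall fun _ => down_fall fun _ => down_fall fun _ => down_fimp _ _))

theorem IsClosedCopy.lt {F : L → K → Set P} {p : P} (h : p ∈ IsClosedCopy F) {ξ η : L}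
    (hξ : ξ < η) {x y : K} (hx : p ∈ meets (F ξ x)) (hy : p ∈ meets (F η y)) : x < y := by
  obtain ⟨s, _, h1⟩ := mem_fimp.1 (h.2.1 ξ η hξ x y) p le_rfl ⟨hx, hy⟩
  exact h1

theorem IsClosedCopy.le {F : L → K → Set P} {p : P} (h : p ∈ IsClosedCopy F) {δ : L}
    (hδ : Order.IsSuccLimit δ) {y z : K} (hy : p ∈ meets (F δ y))
    (hz : ∀ ξ < δ, ∀ x, ∀ s ≤ p, s ∈ meets (F ξ x) → x < z) : y ≤ z := by
  obtain ⟨s, _, h1⟩ := mem_fimp.1 (h.2.2 δ hδ y z) p le_rfl ⟨hy, fun ξ hξ x =>
    mem_fimp.2 fun s hs hm => ⟨s, le_rfl, hz ξ hξ x s hs hm⟩⟩
  exact h1

theorem mem_hasPair {C : K → K → L → Set P} {F : L → K → Set P} {ν : L} {p : P}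
    (h : ∀ q ≤ p, ∃ r ≤ q, ∃ ξ η x y, x < y ∧ r ∈ meets (F ξ x) ∧ r ∈ meets (F η y) ∧
      r ∈ meets (C x y ν)) : p ∈ HasPair C F ν := by
  refine mem_fex.2 fun q hq => ?_
  obtain ⟨r, hr, ξ, η, x, y, h1, h2, h3, h4⟩ := h q hq
  refine ⟨r, hr, ξ, mem_fex_of_mem η (down_fex _) (mem_fex_of_mem x (down_fex _)
    (mem_fex_of_mem y ?_ ⟨h1, ⟨h2, h3⟩, h4⟩))⟩
  exact down_fand (down_fground _) (down_fand (down_fand (down_meets _) (down_meets _))
    (down_meets _))

end Pool.Agent.R580.CCDefs
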