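import Mathlib

set_option autoImplicit false

/-!
# Functions on finite subsets of `ω₂` with values in `ω₁` are controlled by functions on pairs
-/

universe u v

namespace Pool.Agent.R580.PairsSuffice

open Cardinal Set

/-- the two properties of `ω₁` which are used -/
structure IsOm (O : Type v) [LinearOrder O] : Prop where
  ctb : ∀ a : O, (Iio a).Countable
  bdd : ∀ s : Set O, s.Countable → ∃ b, ∀ i ∈ s, i < b

theorem IsOm.ctb' {O : Type v} [LinearOrder O] (hO : IsOm O) (a : O) : (Iic a).Countable := by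
  rw [← Iio_union_right]
  exact (hO.ctb a).union (countable_singleton a)

section

variable {K : Type u} [LinearOrder K] {O : Type v} [LinearOrder O] (e : K → K → O)
  (F : Finset K → O)

/-- the closure of `{b}` and of the ordinals below `ε` -/
inductive H (b : K) (ε : O) : K ⊕ O → Prop
  | base : H b ε (Sum.inl b)
  | small (ν : O) (h : ν < ε) : H b ε (Sum.inr ν)
  | dec (g a : K) (h : a < g) (hg : H b ε (Sum.inl g)) (ha : H b ε (Sum.inr (e g a))) :
      H b ε (Sum.inl a)
  | val (s : Finset K) (h : ∀ x ∈ s, H b ε (Sum.inl x)) : H b ε (Sum.inr (F s))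

variable {e F}

theorem H.mono {b : K} {ε ε' : O} (h : ε ≤ ε') {z : K ⊕ O} (hz : H e F b ε z) :
    H e F b ε' z := by
  induction hz with
  | base => exact H.base
  | small ν hν => exact H.small ν (hν.trans_le h)
  | dec g a hga _ _ h1 h2 => exact H.dec g a hga h1 h2
  | val s _ hs => exact H.val s hs

/-- continuity -/
theorem H.cont {b : K} {t : O} {M : Set O} (hM : M.Nonempty)
    (ht : ∀ ν < t, ∃ m ∈ M, ν < m) {z : K ⊕ O} (hz : H e F b t z) :
    ∃ m ∈ M, H e F b m z := by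
  classical
  induction hz with
  | base =>
    obtain ⟨m, hm⟩ := hM
    exact ⟨m, hm, H.base⟩
  | small ν hν =>
    obtain ⟨m, hm, h⟩ := ht ν hν
    exact ⟨m, hm, H.small ν h⟩
  | dec g a hga _ _ h1 h2 =>
    obtain ⟨m, hm, h1⟩ := h1
    obtain ⟨m', hm', h2⟩ := h2
    rcases le_total m m' with h | h
    · exact ⟨m', hm', H.dec g a hga (h1.mono h) h2⟩
    · exact ⟨m, hm, H.dec g a hga h1 (h2.mono h)⟩
  | val s _ hs =>
    have : ∀ s' : Finset K, s' ⊆ s → ∃ m ∈ M, ∀ x ∈ s', H e F b m (Sum.inl x) := by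
      intro s'
      induction s' using Finset.induction_on with
      | empty =>
        intro _
        obtain ⟨m, hm⟩ := hM
        exact ⟨m, hm, by simp⟩
      | insert a s' _ ih =>
        intro hsub
        obtain ⟨m, hm, h1⟩ := ih ((Finset.subset_insert a s').trans hsub)
        obtain ⟨m', hm', h2⟩ := hs a (hsub (Finset.mem_insert_self a s'))
        rcases le_total m m' with h | h
        · refine ⟨m', hm', fun x hx => ?_⟩
          rcases Finset.mem_insert.1 hx with rfl | hx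
          · exact h2
          · exact (h1 x hx).mono h
        · refine ⟨m, hm, fun x hx => ?_⟩
          rcases Finset.mem_insert.1 hx with rfl | hx
          · exact h2.mono h
          · exact h1 x hx
    obtain ⟨m, hm, h⟩ := this s subset_rfl
    exact ⟨m, hm, H.val s h⟩

/-- the stages of the closure -/
def S (e : K → K → O) (F : Finset K → O) (b : K) (ε : O) : ℕ → Set (K ⊕ O)
  | 0 => {Sum.inl b} ∪ Sum.inr '' Iio ε
  | n + 1 => S e F b ε n ∪
      ({z | ∃ g a, a < g ∧ Sum.inl g ∈ S e F b ε n ∧ Sum.inr (e g a) ∈ S e F b ε n ∧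
        z = Sum.inl a} ∪
      {z | ∃ s : Finset K, (∀ x ∈ s, Sum.inl x ∈ S e F b ε n) ∧ z = Sum.inr (F s)})

theorem S_mono (b : K) (ε : O) : Monotone (S e F b ε) :=
  monotone_nat_of_le_succ fun _ => subset_union_left

theorem S_countable (hO : IsOm O) (he : ∀ g, InjOn (e g) (Iio g)) (b : K) (ε : O) (n : ℕ) :
    (S e F b ε n).Countable := by
  induction n with
  | zero => exact (countable_singleton _).union ((hO.ctb ε).image _)
  | succ n ih =>
    refine ih.union (Set.Countable.union ?_ ?_)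
    · have h1 : (S e F b ε n ×ˢ S e F b ε n).Countable := ih.prod ih
      have hex : ∀ z : {z : K ⊕ O | ∃ g a, a < g ∧ Sum.inl g ∈ S e F b ε n ∧
          Sum.inr (e g a) ∈ S e F b ε n ∧ z = Sum.inl a}, ∃ g a, a < g ∧
          Sum.inl g ∈ S e F b ε n ∧ Sum.inr (e g a) ∈ S e F b ε n ∧ z.1 = Sum.inl a := fun z => z.2
      choose g a h2 h3 h4 h5 using hex
      have : Countable (S e F b ε n ×ˢ S e F b ε n : Set _) := h1.to_subtype
      rw [← Set.countable_coe_iff]
      refine Function.Injective.countable (β := (S e F b ε n ×ˢ S e F b ε n : Set _))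
        (f := fun z => ⟨(Sum.inl (g z), Sum.inr (e (g z) (a z))), h3 z, h4 z⟩) ?_
      intro z z' h0
      have h00 := congrArg Subtype.val h0
      have h : g z = g z' ∧ e (g z) (a z) = e (g z') (a z') :=
        ⟨Sum.inl_injective (congrArg Prod.fst h00), Sum.inr_injective (congrArg Prod.snd h00)⟩
      apply Subtype.ext
      rw [h5, h5]
      congr 1
      have h6 := h.2
      rw [h.1] at h6
      exact he (g z') (by rw [← h.1]; exact h2 z) (h2 z') h6
    · classical
      let T : Set K := {x | Sum.inl x ∈ S e F b ε n}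
      have hT : T.Countable := ih.preimage Sum.inl_injective
      have : Countable T := hT.to_subtype
      refine Set.Countable.mono (s₂ := range fun s : Finset T =>
        (Sum.inr (F (s.map (Function.Embedding.subtype _))) : K ⊕ O)) ?_ (countable_range _)
      rintro z ⟨s, hs, rfl⟩
      refine ⟨s.subtype (· ∈ T), ?_⟩
      show (Sum.inr (F ((s.subtype (· ∈ T)).map (Function.Embedding.subtype _))) : K ⊕ O) = _
      rw [Finset.subtype_map, Finset.filter_true_of_mem (p := (· ∈ T)) hs]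

theorem H_sub (b : K) (ε : O) {z : K ⊕ O} (hz : H e F b ε z) :
    ∃ n, z ∈ S e F b ε n := by
  classical
  induction hz with
  | base => exact ⟨0, Or.inl rfl⟩
  | small ν hν => exact ⟨0, Or.inr ⟨ν, hν, rfl⟩⟩
  | dec g a hga _ _ h1 h2 =>
    obtain ⟨n, h1⟩ := h1
    obtain ⟨m, h2⟩ := h2
    exact ⟨max n m + 1, Or.inr (Or.inl ⟨g, a, hga, S_mono b ε (le_max_left _ _) h1,
      S_mono b ε (le_max_right _ _) h2, rfl⟩)⟩
  | val s _ hs =>
    choose! n hn using hs
    refine ⟨s.sup n + 1, Or.inr (Or.inr ⟨s, fun x hx => ?_, rfl⟩)⟩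
    exact S_mono b ε (Finset.le_sup (f := n) hx) (hn x hx)

/-- the closure points -/
def D (e : K → K → O) (F : Finset K → O) (b : K) : Set O :=
  {ε | ∀ ν, H e F b ε (Sum.inr ν) → ν < ε}

theorem H_bdd (hO : IsOm O) (he : ∀ g, InjOn (e g) (Iio g)) (b : K) (ε : O) :
    ∃ ε', ε < ε' ∧ ∀ ν, H e F b ε (Sum.inr ν) → ν < ε' := by
  have hc : {ν : O | H e F b ε (Sum.inr ν)}.Countable := by
    refine Set.Countable.mono (s₂ := Sum.inr ⁻¹' ⋃ n, S e F b ε n) ?_
      ((countable_iUnion fun n => S_countable hO he b ε n).preimage Sum.inr_injective)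
    intro ν hν
    obtain ⟨n, hn⟩ := H_sub b ε hν
    exact mem_iUnion.2 ⟨n, hn⟩
  obtain ⟨c, hc⟩ := hO.bdd _ (hc.union (countable_singleton ε))
  exact ⟨c, hc ε (Or.inr rfl), fun ν hν => hc ν (Or.inl hν)⟩

theorem D_unbounded [WellFoundedLT O] (hO : IsOm O) (he : ∀ g, InjOn (e g) (Iio g)) (b : K) (ε : O) :
    ∃ d ∈ D e F b, ε < d := by
  choose f hf1 hf2 using H_bdd (F := F) hO he b
  let E : ℕ → O := fun n => Nat.rec (f ε) (fun _ x => f x) n
  have hE : ∀ n, E (n + 1) = f (E n) := fun _ => rfl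
  obtain ⟨c, hc⟩ := hO.bdd _ (countable_range E)
  obtain ⟨d, hd1, hd2⟩ := WellFounded.has_min (wellFounded_lt (α := O))
    {d | ∀ n, E n ≤ d} ⟨c, fun n => (hc _ ⟨n, rfl⟩).le⟩
  refine ⟨d, ?_, (hf1 ε).trans_le (hd1 0)⟩
  intro ν hν
  obtain ⟨m, ⟨n, rfl⟩, hm⟩ := H.cont (M := range E) ⟨_, 0, rfl⟩ (by
    intro ν hν
    by_contra hcon
    push Not at hcon
    exact hd2 ν (fun n => hcon _ ⟨n, rfl⟩) hν) hν
  exact (hf2 _ ν hm).trans_le (by rw [← hE]; exact hd1 (n + 1))

theorem D_closed (b : K) {M : Set O} (hM : M.Nonempty) (hMD : M ⊆ D e F b) {t : O}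
    (h1 : ∀ m ∈ M, m ≤ t) (h2 : ∀ ν < t, ∃ m ∈ M, ν < m) : t ∈ D e F b := by
  intro ν hν
  obtain ⟨m, hm, h⟩ := H.cont hM h2 hν
  exact (hMD hm ν h).trans_le (h1 m hm)

end

/-- For every function `F` from the finite subsets of `ω₂` to `ω₁` there is a function `c` from
the pairs to `ω₁` such that `F` takes only countably many values on the finite subsets of every
uncountable set on whose pairs `c` takes only countably many values. -/
theorem pairs {K : Type u} [LinearOrder K] {O : Type v} [LinearOrder O] [WellFoundedLT O]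
    (hO : IsOm O) (hK : ∀ g : K, ∃ f : K → O, InjOn f (Iio g)) (F : Finset K → O) :
    ∃ c : K → K → O, ∀ A : Set K, ¬ A.Countable →
      {ν | ∃ x ∈ A, ∃ y ∈ A, x < y ∧ c x y = ν}.Countable →
      {ν | ∃ s : Finset K, ↑s ⊆ A ∧ F s = ν}.Countable := by
  classical
  choose e he using hK
  have hmin : ∀ x y : K, ∃ d ∈ D e F y, e y x < d ∧ ∀ d' ∈ D e F y, e y x < d' → d ≤ d' := by
    intro x y
    obtain ⟨d0, hd0, hd0'⟩ := D_unbounded (F := F) hO he y (e y x)
    obtain ⟨d, hd, hd'⟩ := WellFounded.has_min (wellFounded_lt (α := O))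
      {d | d ∈ D e F y ∧ e y x < d} ⟨d0, hd0, hd0'⟩
    exact ⟨d, hd.1, hd.2, fun d' h1 h2 => not_lt.1 fun h => hd' d' ⟨h1, h2⟩ h⟩
  choose c hc1 hc2 _ using hmin
  refine ⟨c, fun A hA hcount => ?_⟩
  obtain ⟨η, hη⟩ := hO.bdd _ hcount
  have hη' : ∀ x ∈ A, ∀ y ∈ A, x < y → c x y < η := fun x hx y hy h => hη _ ⟨x, hx, y, hy, h, rfl⟩
  have hinit : ∀ y ∈ A, (A ∩ Iio y).Countable := by
    intro y hy
    refine Set.countable_of_injective_of_countable_image (f := e y) (fun x hx x' hx' h =>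
      he y hx.2 hx'.2 h) ((hO.ctb η).mono ?_)
    rintro _ ⟨x, hx, rfl⟩
    exact (hc2 x y).trans (hη' x hx.1 y hy hx.2)
  -- the least upper bounds
  have hlub : ∀ y : K, y ∈ A ∧ (A ∩ Iio y).Nonempty → ∃ t ∈ D e F y, t ≤ η ∧
      ∀ x ∈ A, x < y → e y x < t := by
    rintro y ⟨hy, hne⟩
    let M : Set O := (fun x => c x y) '' (A ∩ Iio y)
    have hMη : ∀ m ∈ M, m ≤ η := by
      rintro _ ⟨x, hx, rfl⟩
      exact (hη' x hx.1 y hy hx.2).le
    obtain ⟨t, ht, ht'⟩ := WellFounded.has_min (wellFounded_lt (α := O))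
      {t | ∀ m ∈ M, m ≤ t} ⟨η, hMη⟩
    refine ⟨t, ?_, not_lt.1 (ht' η hMη), fun x hx hxy => (hc2 x y).trans_le
      (ht _ ⟨x, ⟨hx, hxy⟩, rfl⟩)⟩
    refine D_closed y (M := M) (hne.image _) ?_ ht ?_
    · rintro _ ⟨x, _, rfl⟩
      exact hc1 x y
    · intro ν hν
      by_contra hcon
      push Not at hcon
      exact ht' ν hcon hν
  let A1 : Set K := {y | y ∈ A ∧ (A ∩ Iio y).Nonempty}
  have hA1 : ¬ A1.Countable := by
    intro h
    apply hA
    have hsub : A ⊆ A1 ∪ {y | y ∈ A ∧ ¬ (A ∩ Iio y).Nonempty} := by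
      intro y hy
      by_cases h : (A ∩ Iio y).Nonempty
      · exact Or.inl ⟨hy, h⟩
      · exact Or.inr ⟨hy, h⟩
    refine (h.union (Set.Subsingleton.countable ?_)).mono hsub
    intro y hy y' hy'
    rcases lt_trichotomy y y' with h | h | h
    · exact absurd ⟨y, hy.1, h⟩ hy'.2
    · exact h
    · exact absurd ⟨y', hy'.1, h⟩ hy.2
  have hne : Nonempty O := ⟨η⟩
  choose! t ht1 ht2 ht3 using hlub
  -- pigeonhole
  obtain ⟨t0, ht0⟩ : ∃ t0, ¬ {y | y ∈ A1 ∧ t y = t0}.Countable := by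
    by_contra hcon
    push Not at hcon
    apply hA1
    refine Set.Countable.mono (s₂ := ⋃ t0 ∈ Iic η, {y | y ∈ A1 ∧ t y = t0}) ?_
      ((hO.ctb' η).biUnion fun t0 _ => hcon t0)
    intro y hy
    simp only [mem_iUnion]
    exact ⟨t y, ht2 y hy, hy, rfl⟩
  refine (hO.ctb t0).mono ?_
  rintro ν ⟨s, hs, rfl⟩
  obtain ⟨y, hy, hys⟩ : ∃ y, (y ∈ A1 ∧ t y = t0) ∧ ∀ x ∈ s, x < y := by
    by_contra hcon
    push Not at hcon
    apply ht0
    refine Set.Countable.mono (s₂ := ⋃ x ∈ (s : Set K), ((A ∩ Iio x) ∪ {x})) ?_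
      (s.countable_toSet.biUnion fun x hx => (hinit x (hs hx)).union (countable_singleton x))
    intro y hy
    obtain ⟨x, hx, hxy⟩ := hcon y hy
    simp only [mem_iUnion]
    refine ⟨x, hx, ?_⟩
    rcases hxy.eq_or_lt with h | h
    · exact Or.inr h
    · exact Or.inl ⟨hy.1.1, h⟩
  have hyD : t0 ∈ D e F y := by rw [← hy.2]; exact ht1 y hy.1
  refine hyD _ (H.val s fun x hx => H.dec y x (hys x hx) H.base (H.small _ ?_))
  rw [← hy.2]
  exact ht3 y hy.1 x (hs hx) (hys x hx)

end Pool.Agent.R580.PairsSuffice
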