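import Mathlib
import Pool.Agent.R580.PairsSuffice

set_option autoImplicit false

/-!
# The question at `ω₂` and Chang's conjecture
-/

universe u

namespace Pool.Agent.R580.ChangPairs

open Cardinal Ordinal Set Pool.Agent.R580.PairsSuffice

/-- the colours of the pairs from `A` -/
def Colours (c : Ordinal.{u} → Ordinal.{u} → Ordinal.{u}) (A : Set Ordinal.{u}) :
    Set Ordinal.{u} := {ν | ∃ α ∈ A, ∃ β ∈ A, α < β ∧ c α β = ν}

/-- `N` is closed under the finitary operations `f 0, f 1, ...` -/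
def ClosedUnder (f : ℕ → List Ordinal.{u} → Ordinal.{u}) (N : Set Ordinal.{u}) : Prop :=
  ∀ n l, (∀ x ∈ l, x ∈ N) → f n l ∈ N

theorem isOm : IsOm (Iio (ω_ 1 : Ordinal.{u})) where
  ctb a := by
    have h : #(Iio a.1) < ℵ₁ := by
      have h1 : a.1 < (ℵ_ 1 : Cardinal.{u}).ord := by
        rw [ord_aleph]
        exact a.2
      rw [Cardinal.mk_Iio_ordinal, show (ℵ_ 1 : Cardinal.{u + 1}) = Cardinal.lift.{u + 1, u} (ℵ_ 1)
        by simp, Cardinal.lift_lt]
      exact lt_ord.1 h1
    have h1 : (Iio a.1).Countable := by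
      rwa [lt_aleph_one_iff, le_aleph0_iff_set_countable] at h
    exact (h1.preimage Subtype.val_injective).mono fun x hx => hx
  bdd s hs := by
    have : Countable s := hs.to_subtype
    have h : ∀ x : s, Order.succ x.1.1 < ω_ 1 := fun x => (isSuccLimit_omega 1).succ_lt x.1.2
    have hsup : ⨆ x : s, Order.succ x.1.1 < ω_ 1 := by
      exact iSup_lt_omega_one h
    refine ⟨⟨_, hsup⟩, fun i hi => ?_⟩
    show i.1 < ⨆ x : s, Order.succ x.1.1
    exact (Order.lt_succ i.1).trans_le (Ordinal.le_iSup (fun x : s => Order.succ x.1.1) ⟨i, hi⟩)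

theorem initial (g : Iio (ω_ 2 : Ordinal.{u})) :
    ∃ f : Iio (ω_ 2 : Ordinal.{u}) → Iio (ω_ 1 : Ordinal.{u}), InjOn f (Iio g) := by
  classical
  have h : #(Iio g.1) ≤ #(Iio (ω_ 1 : Ordinal.{u})) := by
    rw [Cardinal.mk_Iio_ordinal, Cardinal.mk_Iio_ordinal, Cardinal.lift_le]
    have h0 : g.1 < (ℵ_ 2 : Cardinal.{u}).ord := by
      rw [ord_aleph]
      exact g.2
    have h1 := lt_ord.1 h0
    rw [card_omega]
    have h2 : (ℵ_ 2 : Cardinal.{u}) = Order.succ ℵ₁ := by
      rw [succ_aleph, one_add_one_eq_two]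
    rw [h2, Order.lt_succ_iff] at h1
    exact h1
  obtain ⟨i⟩ := h
  refine ⟨fun x => if h : x < g then i ⟨x.1, h⟩ else ⟨0, omega_pos 1⟩, fun x hx y hy h => ?_⟩
  simp only [mem_Iio] at hx hy
  simp only [dif_pos hx, dif_pos hy] at h
  have h1 := congrArg Subtype.val (i.injective h)
  exact Subtype.ext h1

/-- the closure of `X` under the operations -/
inductive Cl (f : ℕ → List Ordinal.{u} → Ordinal.{u}) (X : Set Ordinal.{u}) : Ordinal.{u} → Prop
  | base (x : Ordinal.{u}) (h : x ∈ X) : Cl f X x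
  | step (n : ℕ) (l : List Ordinal.{u}) (h : ∀ x ∈ l, Cl f X x) : Cl f X (f n l)

variable {f : ℕ → List Ordinal.{u} → Ordinal.{u}}

theorem Cl.mono {X Y : Set Ordinal.{u}} (h : X ⊆ Y) {y : Ordinal.{u}} (hy : Cl f X y) :
    Cl f Y y := by
  induction hy with
  | base x hx => exact Cl.base x (h hx)
  | step n l _ ih => exact Cl.step n l ih

theorem Cl.finite {X : Set Ordinal.{u}} {y : Ordinal.{u}} (hy : Cl f X y) :
    ∃ s : Finset Ordinal.{u}, ↑s ⊆ X ∧ Cl f (↑s) y := by
  classical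
  induction hy with
  | base x hx => exact ⟨{x}, by simpa using hx, Cl.base x (by simp)⟩
  | step n l _ ih =>
    have h : ∀ l' : List Ordinal.{u}, (∀ x ∈ l', ∃ s : Finset Ordinal.{u}, ↑s ⊆ X ∧ Cl f (↑s) x) →
        ∃ s : Finset Ordinal.{u}, ↑s ⊆ X ∧ ∀ x ∈ l', Cl f (↑s) x := by
      intro l'
      induction l' with
      | nil => exact fun _ => ⟨∅, by simp, by simp⟩
      | cons a l' ih' =>
        intro h
        obtain ⟨s, hs, hs'⟩ := h a (by simp)
        obtain ⟨t, ht, ht'⟩ := ih' fun x hx => h x (by simp [hx])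
        refine ⟨s ∪ t, by simp [hs, ht], fun x hx => ?_⟩
        rcases List.mem_cons.1 hx with rfl | hx
        · exact hs'.mono (by simp)
        · exact (ht' x hx).mono (by simp)
    obtain ⟨s, hs, hs'⟩ := h l ih
    exact ⟨s, hs, Cl.step n l hs'⟩

/-- the stages -/
def St (f : ℕ → List Ordinal.{u} → Ordinal.{u}) (X : Set Ordinal.{u}) : ℕ → Set Ordinal.{u}
  | 0 => X
  | n + 1 => St f X n ∪ {y | ∃ m l, (∀ x ∈ l, x ∈ St f X n) ∧ y = f m l}

theorem St_mono (X : Set Ordinal.{u}) : Monotone (St f X) :=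
  monotone_nat_of_le_succ fun _ => subset_union_left

theorem St_countable {X : Set Ordinal.{u}} (hX : X.Countable) (n : ℕ) :
    (St f X n).Countable := by
  induction n with
  | zero => exact hX
  | succ n ih =>
    refine ih.union ?_
    have : Countable (St f X n) := ih.to_subtype
    refine (countable_range fun e : ℕ × List (St f X n) =>
      f e.1 (e.2.map Subtype.val)).mono ?_
    rintro y ⟨m, l, hl, rfl⟩
    refine ⟨(m, l.attach.map fun x => ⟨x.1, hl x.1 x.2⟩), ?_⟩
    simp only [List.map_map]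
    congr 1
    have : (Subtype.val ∘ fun x : {x // x ∈ l} => (⟨x.1, hl x.1 x.2⟩ : St f X n)) =
        Subtype.val := rfl
    rw [this]
    exact List.attach_map_subtype_val l

theorem Cl_sub {X : Set Ordinal.{u}} {y : Ordinal.{u}} (hy : Cl f X y) : ∃ n, y ∈ St f X n := by
  classical
  induction hy with
  | base x hx => exact ⟨0, hx⟩
  | step m l _ ih =>
    have h : ∀ l' : List Ordinal.{u}, (∀ x ∈ l', ∃ n, x ∈ St f X n) →
        ∃ n, ∀ x ∈ l', x ∈ St f X n := by
      intro l'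
      induction l' with
      | nil => exact fun _ => ⟨0, by simp⟩
      | cons a l' ih' =>
        intro h
        obtain ⟨n, hn⟩ := h a (by simp)
        obtain ⟨k, hk⟩ := ih' fun x hx => h x (by simp [hx])
        refine ⟨max n k, fun x hx => ?_⟩
        rcases List.mem_cons.1 hx with rfl | hx
        · exact St_mono X (le_max_left _ _) hn
        · exact St_mono X (le_max_right _ _) (hk x hx)
    obtain ⟨n, hn⟩ := h l ih
    exact ⟨n + 1, Or.inr ⟨m, l, hn, rfl⟩⟩

theorem Cl_countable {X : Set Ordinal.{u}} (hX : X.Countable) : {y | Cl f X y}.Countable :=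
  (countable_iUnion fun n => St_countable (f := f) hX n).mono fun _ hy =>
    mem_iUnion.2 (Cl_sub hy)

open Classical in
/-- a colouring of pairs as a finitary operation -/
noncomputable def pairOp (c : Ordinal.{u} → Ordinal.{u} → Ordinal.{u}) :
    List Ordinal.{u} → Ordinal.{u}
  | [α, β] => if α < β ∧ β < ω_ 2 then c α β else 0
  | _ => 0

/-- Colourings of pairs and operations, for a family of uncountable subsets of `ω₂`. -/
theorem family (T : Set (Set Ordinal.{u})) (hT : ∀ A ∈ T, A ⊆ Iio (ω_ 2) ∧ ¬ A.Countable) :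
    (∀ c : Ordinal.{u} → Ordinal.{u} → Ordinal.{u}, (∀ α β, α < β → β < ω_ 2 → c α β < ω_ 1) →
      ∃ A ∈ T, (Colours c A).Countable) ↔
    ∀ f : ℕ → List Ordinal.{u} → Ordinal.{u}, ClosedUnder f (Iio (ω_ 2)) →
      ∃ N ⊆ Iio (ω_ 2), ClosedUnder f N ∧ (N ∩ Iio (ω_ 1)).Countable ∧ ∃ A ∈ T, A ⊆ N := by
  classical
  constructor
  · intro h f hf
    let K := Iio (ω_ 2 : Ordinal.{u})
    let O := Iio (ω_ 1 : Ordinal.{u})
    have hF : ∀ s : Finset K, ∃ b : O, ∀ y : O, Cl f (↑(s.map (Function.Embedding.subtype _))) y.1 →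
        y < b := by
      intro s
      obtain ⟨b, hb⟩ := isOm.bdd {y : O | Cl f (↑(s.map (Function.Embedding.subtype _))) y.1}
        ((Cl_countable (f := f) (Finset.countable_toSet _)).preimage Subtype.val_injective)
      exact ⟨b, fun y hy => hb y hy⟩
    choose F hF using hF
    obtain ⟨c', hc'⟩ := pairs isOm (initial.{u}) F
    let c : Ordinal.{u} → Ordinal.{u} → Ordinal.{u} := fun α β =>
      if h : α < ω_ 2 ∧ β < ω_ 2 then (c' ⟨α, h.1⟩ ⟨β, h.2⟩).1 else 0
    have hcc : ∀ x y : K, c x.1 y.1 = (c' x y).1 := fun x y => dif_pos ⟨x.2, y.2⟩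
    obtain ⟨A, hA, hcol⟩ := h c (by
      intro α β h1 h2
      have h3 := hcc ⟨α, h1.trans h2⟩ ⟨β, h2⟩
      simp only at h3
      rw [h3]
      exact (c' _ _).2)
    obtain ⟨hA1, hA2⟩ := hT A hA
    let A' : Set K := Subtype.val ⁻¹' A
    have hA' : ¬ A'.Countable := by
      intro h3
      have h4 : A ⊆ (Subtype.val : K → Ordinal.{u}) '' A' := by
        intro x hx
        exact ⟨(⟨x, hA1 hx⟩ : K), hx, rfl⟩
      exact hA2 ((h3.image _).mono h4)
    have hcol' : {ν | ∃ x ∈ A', ∃ y ∈ A', x < y ∧ c' x y = ν}.Countable := by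
      refine (hcol.preimage Subtype.val_injective).mono ?_
      rintro ν ⟨x, hx, y, hy, hxy, rfl⟩
      exact ⟨x.1, hx, y.1, hy, hxy, hcc x y⟩
    obtain ⟨b, hb⟩ := isOm.bdd _ (hc' A' hA' hcol')
    refine ⟨{y | Cl f A y}, ?_, fun n l hl => Cl.step n l hl, ?_, A, hA, fun x hx => Cl.base x hx⟩
    · intro y hy
      induction hy with
      | base x hx => exact hA1 hx
      | step n l _ ih => exact hf n l ih
    · have h3 : (Iio b).Countable := isOm.ctb b
      refine (h3.image Subtype.val).mono ?_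
      rintro y ⟨hy, hy1⟩
      obtain ⟨s, hs, hs'⟩ := Cl.finite hy
      have hs2 : ∀ x ∈ s, x < ω_ 2 := fun x hx => hA1 (hs hx)
      let s' : Finset K := s.subtype (· ∈ Iio (ω_ 2 : Ordinal.{u}))
      have hs3 : s'.map (Function.Embedding.subtype _) = s := by
        rw [Finset.subtype_map, Finset.filter_true_of_mem (p := (· ∈ Iio (ω_ 2 : Ordinal.{u}))) hs2]
      have h4 : F s' < b := by
        refine hb (F s') ⟨s', fun x hx => ?_, rfl⟩
        exact hs (Finset.mem_subtype.1 hx)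
      have h5 := hF s' ⟨y, hy1⟩ (by rw [hs3]; exact hs')
      exact ⟨⟨y, hy1⟩, h5.trans h4, rfl⟩
  · intro h c hc
    obtain ⟨N, hN1, hN2, hN3, A, hA, hAN⟩ := h (fun _ l => pairOp c l) (by
        intro n l hl
        have h0 : (0 : Ordinal.{u}) < ω_ 2 := omega_pos 2
        have h12 : (ω_ 1 : Ordinal.{u}) ≤ ω_ 2 := omega_le_omega.2 one_le_two
        show pairOp c l < ω_ 2
        unfold pairOp
        split
        · split_ifs with h1
          · exact (hc _ _ h1.1 h1.2).trans_le h12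
          · exact h0
        · exact h0)
    refine ⟨A, hA, hN3.mono ?_⟩
    rintro ν ⟨α, hα, β, hβ, hαβ, rfl⟩
    have hβ2 : β < ω_ 2 := (hT A hA).1 hβ
    refine ⟨?_, hc α β hαβ hβ2⟩
    have h1 := hN2 0 [α, β] (by simp [hAN hα, hAN hβ])
    simpa [pairOp, hαβ, hβ2] using h1

end Pool.Agent.R580.ChangPairs
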