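import Mathlib
import Pool.Agent.W905.SM.Forc
import Pool.Agent.R580.CCDefs

set_option autoImplicit false

/-!
# Colourings onto `ω₁` added by countable conditions

Let `K` be a well-ordered set. With countable conditions one adds a function `c` from the pairs
`x < y` of elements of `K` to `ω₁`. In the extension every closed set of order type `ω₁` has pairs
of all colours. The same extension works for all `K` with at most as many elements as there are
generic subsets of `ω₁`.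
-/

universe u

namespace Pool.Agent.R580.ClosedColour

open Cardinal Set Pool.Agent.Helper669.Forcing Pool.Agent.Helper669.Forcing2
  Pool.Agent.Helper669.GBase Pool.Agent.W905.SM Pool.Agent.R580.CCDefs

/-- the well-ordered set of the countable ordinals -/
abbrev Om : Type u := (ℵ₁ : Cardinal.{u}).ord.ToType

section

variable {K : Type u} [LinearOrder K] [WellFoundedLT K] {Λ : Type u}

theorem reg1 : (ℵ₁ : Cardinal.{u}).IsRegular := Cardinal.isRegular_aleph_one

theorem cnt {α : Type u} {s : Set α} : #s < ℵ₁ ↔ s.Countable := by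
  rw [Cardinal.lt_aleph_one_iff, Cardinal.le_aleph0_iff_set_countable]

/-- the names of the colours: `c x y` is the least `ξ` where the generic subset of `ω₁` with
index `i (x, y)` has value `true` -/
def Cn (i : K × K → Λ) (x y : K) (ν : Om.{u}) : Set (AddForcing ℵ₁ Λ) :=
  {p | p.val (i (x, y)) ν = some true ∧ ∀ ξ < ν, p.val (i (x, y)) ξ = some false}

theorem countable_supp {Λ : Type u} (p : AddForcing ℵ₁ Λ) : (supp p.val).Countable :=
  cnt.1 p.small

/-- countable sets of countable ordinals are bounded -/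
theorem bdd {s : Set Om.{u}} (hs : s.Countable) : ∃ b, ∀ i ∈ s, i < b := by
  apply exists_bound
  rw [reg1.cof_ord]
  exact cnt.2 hs

theorem countable_Iio (a : Om.{u}) : (Iio a).Countable := cnt.1 (mk_Iio_lt' a)

/-- colours are decided -/
theorem decide_colour (i : K × K → Λ) (x y : K) (p : AddForcing ℵ₁ Λ) :
    ∃ q ≤ p, ∃ ν, q ∈ Cn i x y ν := by
  classical
  obtain ⟨b, hb⟩ := bdd (s := (fun e : Λ × Om.{u} => e.2) '' supp p.val)
    ((countable_supp p).image _)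
  have hpb : p.val (i (x, y)) b = none := by
    by_contra h
    exact lt_irrefl _ (hb b ⟨(i (x, y), b), h, rfl⟩)
  let e : Λ → Om.{u} → Option Bool := fun w ξ =>
    if w = i (x, y) ∧ ξ < b then some false
    else if w = i (x, y) ∧ ξ = b then some true else none
  have he : #(supp e) < ℵ₁ := by
    rw [cnt]
    refine Set.Countable.mono (s₂ := (fun ξ => (i (x, y), ξ)) '' (Iio b ∪ {b})) ?_
      (((countable_Iio b).union (countable_singleton b)).image _)
    rintro ⟨w, ξ⟩ h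
    simp only [supp, mem_ofPred_eq, e] at h
    split_ifs at h with h1 h2
    · exact ⟨ξ, Or.inl h1.2, by rw [h1.1]⟩
    · exact ⟨ξ, Or.inr h2.2, by rw [h2.1]⟩
    · exact absurd rfl h
  have h0 : ℵ₀ ≤ (ℵ₁ : Cardinal.{u}) := reg1.aleph0_le
  let q := glue h0 p p e he
  have hq : ∀ ξ, q.val (i (x, y)) ξ =
      (p.val (i (x, y)) ξ).orElse fun _ => e (i (x, y)) ξ := by
    intro ξ
    show (p.val (i (x, y)) ξ).orElse
      (fun _ => (p.val (i (x, y)) ξ).orElse fun _ => e (i (x, y)) ξ) = _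
    cases p.val (i (x, y)) ξ <;> rfl
  have hqb : q.val (i (x, y)) b = some true := by
    rw [hq, hpb]
    simp [e]
  have hne : {ξ | q.val (i (x, y)) ξ = some true}.Nonempty := ⟨b, hqb⟩
  obtain ⟨ν, hν, hmin⟩ := WellFounded.has_min (wellFounded_lt (α := Om.{u})) _ hne
  refine ⟨q, glue_le_left h0 p p e he, ν, hν, fun ξ hξ => ?_⟩
  have h1 : q.val (i (x, y)) ξ ≠ some true := fun h => hmin ξ h hξ
  have h2 : ν ≤ b := not_lt.1 fun h => hmin b hqb h
  have h3 : q.val (i (x, y)) ξ ≠ none := by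
    rw [hq]
    cases h : p.val (i (x, y)) ξ with
    | some c => simp
    | none => simp [e, hξ.trans_le h2]
  cases h : q.val (i (x, y)) ξ with
  | none => exact absurd h h3
  | some c =>
    cases c with
    | true => exact absurd h h1
    | false => rfl

theorem colour_unique {i : K × K → Λ} {x y : K} {p : AddForcing ℵ₁ Λ} {ν ν' : Om.{u}}
    (h : p ∈ meets (Cn i x y ν)) (h' : p ∈ meets (Cn i x y ν')) : ν = ν' := by
  obtain ⟨r, hr, s, ⟨hs1, hs2⟩, hrs⟩ := h p le_rfl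
  obtain ⟨r', hr', s', ⟨hs1', hs2'⟩, hrs'⟩ := h' r hr
  have a1 := hr' _ _ _ (hrs _ _ _ hs1)
  have a2 := hrs' _ _ _ hs1'
  rcases lt_trichotomy ν ν' with h1 | h1 | h1
  · have := hrs' _ _ _ (hs2' ν h1)
    rw [a1] at this
    simp at this
  · exact h1
  · have := hr' _ _ _ (hrs _ _ _ (hs2 ν' h1))
    rw [a2] at this
    simp at this

theorem isColouring (i : K × K → Λ) (p : AddForcing ℵ₁ Λ) : p ∈ IsColouring (Cn i) := by
  intro x y _
  refine ⟨mem_fex.2 fun q _ => ?_, fun ν ν' => mem_fimp.2 fun q _ hq => ⟨q, le_rfl, ?_⟩⟩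
  · obtain ⟨r, hr, ν, hν⟩ := decide_colour i x y q
    exact ⟨r, hr, ν, meets_of_mem hν⟩
  · exact colour_unique hq.1 hq.2

/-- the union of a decreasing sequence of conditions -/
theorem exists_union {Λ : Type u} (r : ℕ → AddForcing ℵ₁ Λ) (hr : ∀ n, r (n + 1) ≤ r n) :
    ∃ t : AddForcing ℵ₁ Λ, (∀ n, t ≤ r n) ∧
      ∀ w ξ, t.val w ξ ≠ none → ∃ n, (r n).val w ξ ≠ none := by
  classical
  have hmono : ∀ m n, m ≤ n → r n ≤ r m := by
    intro m n h
    induction n, h using Nat.le_induction with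
    | base => exact le_rfl
    | succ n _ ih => exact (hr n).trans ih
  let v : Λ → Om.{u} → Option Bool := fun w ξ =>
    if h : ∃ n, (r n).val w ξ ≠ none then (r h.choose).val w ξ else none
  have hv : ∀ n w ξ b, (r n).val w ξ = some b → v w ξ = some b := by
    intro n w ξ b hb
    have h : ∃ n, (r n).val w ξ ≠ none := ⟨n, by rw [hb]; simp⟩
    simp only [v, dif_pos h]
    obtain ⟨b', hb'⟩ := Option.ne_none_iff_exists'.1 h.choose_spec
    rcases le_total n h.choose with h1 | h1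
    · exact hmono _ _ h1 w ξ b hb
    · have := hmono _ _ h1 w ξ b' hb'
      rw [hb] at this
      rw [hb', this]
  refine ⟨⟨v, ?_⟩, fun n w ξ b hb => hv n w ξ b hb, ?_⟩
  · rw [cnt]
    refine Set.Countable.mono (s₂ := ⋃ n, supp (r n).val) ?_
      (countable_iUnion fun n => countable_supp (r n))
    intro e he
    simp only [mem_ofPred_eq, v] at he
    split_ifs at he with h
    · obtain ⟨n, h⟩ := h
      exact mem_iUnion.2 ⟨n, h⟩
    · exact absurd rfl he
  · intro w ξ h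
    simp only [v] at h
    split_ifs at h with h1
    · exact h1
    · exact absurd rfl h

/-- the second members of the pairs mentioned by a condition -/
def men (i : K × K → Λ) (p : AddForcing ℵ₁ Λ) : Set K :=
  {y | ∃ x ξ, p.val (i (x, y)) ξ ≠ none}

theorem countable_men {i : K × K → Λ} (hi : Function.Injective i) (p : AddForcing ℵ₁ Λ) :
    (men i p).Countable := by
  have h1 : (i ⁻¹' ((fun e : Λ × Om.{u} => e.1) '' supp p.val)).Countable :=
    ((countable_supp p).image _).preimage hi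
  refine (h1.image Prod.snd).mono ?_
  rintro y ⟨x, ξ, h⟩
  exact ⟨(x, y), ⟨(i (x, y), ξ), h, rfl⟩, rfl⟩

/-- one step of the construction -/
theorem step {i : K × K → Λ} (hi : Function.Injective i) {F : Om.{u} → K → Set (AddForcing ℵ₁ Λ)}
    {q : AddForcing ℵ₁ Λ} (hq : q ∈ IsClosedCopy F) (r : AddForcing ℵ₁ Λ) (hr : r ≤ q)
    (ξ : Om.{u}) :
    ∃ r' ≤ r, ∃ ξ', ξ < ξ' ∧ (∃ x, r' ∈ meets (F ξ' x)) ∧
      ∀ g ∈ men i r, (∃ η < ξ', ∃ x, g ≤ x ∧ r' ∈ meets (F η x)) ∨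
        (∀ t ≤ r', ∀ η x, t ∈ meets (F η x) → x < g) := by
  classical
  have hcl := closed (Λ := Λ) reg1.{u}
  obtain ⟨r1, hr1, h1⟩ := distrib (P := AddForcing ℵ₁ Λ) (κ := ℵ₁) reg1.aleph0_le hcl
    (I := men i r) (cnt.2 (countable_men hi r))
    (fun g => {t | (∃ η x, g.1 ≤ x ∧ t ∈ meets (F η x)) ∨
      (∀ t' ≤ t, ∀ η x, t' ∈ meets (F η x) → x < g.1)})
    (by
      intro g t ht t' ht'
      rcases ht with ⟨η, x, hx, h⟩ | h
      · exact Or.inl ⟨η, x, hx, down_meets _ _ h _ ht'⟩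
      · exact Or.inr fun s hs => h s (hs.trans ht'))
    (by
      intro g t
      by_cases h : ∃ t' ≤ t, ∃ η x, g.1 ≤ x ∧ t' ∈ meets (F η x)
      · obtain ⟨t', ht', η, x, hx, hm⟩ := h
        exact ⟨t', ht', Or.inl ⟨η, x, hx, hm⟩⟩
      · push Not at h
        refine ⟨t, le_rfl, Or.inr fun t' ht' η x hm => ?_⟩
        by_contra hcon
        exact h t' ht' η x (not_lt.1 hcon) hm) r
  have h2 : ∀ g : men i r, ∃ b : Om.{u}, (∃ η, η < b ∧ ∃ x, g.1 ≤ x ∧ r1 ∈ meets (F η x)) ∨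
      (∀ t ≤ r1, ∀ η x, t ∈ meets (F η x) → x < g.1) := by
    intro g
    rcases h1 g with ⟨η, x, hx, h⟩ | h
    · obtain ⟨b, hb⟩ := bdd (countable_singleton η)
      exact ⟨b, Or.inl ⟨η, hb η rfl, x, hx, h⟩⟩
    · exact ⟨ξ, Or.inr h⟩
  choose b hb using h2
  have : Countable (men i r) := (countable_men hi r).to_subtype
  obtain ⟨ξ', hξ'⟩ := bdd (s := range b ∪ {ξ}) ((countable_range b).union (countable_singleton ξ))
  obtain ⟨r2, hr2, x, hx⟩ := IsFun.total (down_IsFun F q hq.1 r1 (hr1.trans hr)) ξ'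
  refine ⟨r2, hr2.trans hr1, ξ', hξ' ξ (Or.inr rfl), ⟨x, hx⟩, fun g hg => ?_⟩
  rcases hb ⟨g, hg⟩ with ⟨η, hη, x', hx', h⟩ | h
  · exact Or.inl ⟨η, hη.trans (hξ' _ (Or.inl ⟨_, rfl⟩)), x', hx', down_meets _ _ h _ hr2⟩
  · exact Or.inr fun t ht => h t (ht.trans hr2)

/-- the main density argument -/
theorem main {i : K × K → Λ} (hi : Function.Injective i) {F : Om.{u} → K → Set (AddForcing ℵ₁ Λ)}
    {q : AddForcing ℵ₁ Λ} (hq : q ∈ IsClosedCopy F) (ν : Om.{u}) :
    ∃ t ≤ q, ∃ ξ η x y, ξ < η ∧ x < y ∧ t ∈ meets (F ξ x) ∧ t ∈ meets (F η y) ∧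
      t ∈ Cn i x y ν := by
  classical
  have hinc : ∀ t ≤ q, ∀ ξ η, ξ < η → ∀ x y, t ∈ meets (F ξ x) → t ∈ meets (F η y) → x < y :=
    fun t ht ξ η h x y hx hy => IsClosedCopy.lt (down_IsClosedCopy F q hq t ht) h hx hy
  have hcont : ∀ t ≤ q, ∀ δ, Order.IsSuccLimit δ → ∀ y z, t ∈ meets (F δ y) →
      (∀ ξ < δ, ∀ x, ∀ s ≤ t, s ∈ meets (F ξ x) → x < z) → y ≤ z :=
    fun t ht δ hδ y z hy h => IsClosedCopy.le (down_IsClosedCopy F q hq t ht) hδ hy h
  -- the sequence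
  let Pt := {e : AddForcing ℵ₁ Λ × Om.{u} // e.1 ≤ q}
  have hstep : ∀ e : Pt, ∃ e' : Pt, e'.1.1 ≤ e.1.1 ∧ e.1.2 < e'.1.2 ∧
      (∃ x, e'.1.1 ∈ meets (F e'.1.2 x)) ∧
      ∀ g ∈ men i e.1.1, (∃ η < e'.1.2, ∃ x, g ≤ x ∧ e'.1.1 ∈ meets (F η x)) ∨
        (∀ t ≤ e'.1.1, ∀ η x, t ∈ meets (F η x) → x < g) := by
    rintro ⟨⟨r, ξ⟩, hr⟩
    obtain ⟨r', hr', ξ', h1, h2, h3⟩ := step hi hq r hr ξ
    exact ⟨⟨⟨r', ξ'⟩, hr'.trans hr⟩, hr', h1, h2, h3⟩
  choose nx n1 n2 n3 n4 using hstep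
  obtain ⟨b0, -⟩ := bdd (countable_empty (α := Om.{u}))
  let E : ℕ → Pt := fun n => Nat.rec (nx ⟨⟨q, b0⟩, le_rfl⟩) (fun _ e => nx e) n
  have hE : ∀ n, E (n + 1) = nx (E n) := fun _ => rfl
  have hx : ∀ n, ∃ x, (E n).1.1 ∈ meets (F (E n).1.2 x) := by
    intro n
    cases n with
    | zero => exact n3 _
    | succ n => exact n3 _
  choose x hx using hx
  obtain ⟨t, ht1, ht2⟩ := exists_union (fun n => (E n).1.1) (fun n => n1 (E n))
  have hξ : StrictMono fun n => (E n).1.2 := strictMono_nat_of_lt_succ fun n => n2 (E n)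
  -- the supremum of the indices
  obtain ⟨b, hb⟩ := bdd (s := range fun n => (E n).1.2) (countable_range _)
  obtain ⟨δ, hδ1, hδ2⟩ := WellFounded.has_min (wellFounded_lt (α := Om.{u}))
    {d | ∀ n, (E n).1.2 ≤ d} ⟨b, fun n => (hb _ ⟨n, rfl⟩).le⟩
  have hlt : ∀ n, (E n).1.2 < δ := fun n => (hξ (Nat.lt_succ_self n)).trans_le (hδ1 (n + 1))
  have hcof : ∀ η < δ, ∃ n, η < (E n).1.2 := by
    intro η hη
    by_contra hcon
    push Not at hcon
    exact hδ2 η hcon hη
  have hδl : Order.IsSuccLimit δ := by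
    refine ⟨?_, ?_⟩
    · intro hmin
      exact not_lt.2 (hmin (hlt 0).le) (hlt 0)
    · intro a hcov
      obtain ⟨n, hn⟩ := hcof a hcov.lt
      exact hcov.2 hn (hlt n)
  have htq : t ≤ q := (ht1 0).trans (E 0).2
  have htx : ∀ n, t ∈ meets (F (E n).1.2 (x n)) := fun n => down_meets _ _ (hx n) _ (ht1 n)
  -- the value at `δ`
  obtain ⟨s, hs, y, hy⟩ := IsFun.total (down_IsFun F q hq.1 t htq) δ
  have hxy : ∀ n, x n < y := fun n =>
    hinc s (hs.trans htq) _ _ (hlt n) _ _ (down_meets _ _ (htx n) _ hs) hy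
  have hxs : ∀ s ≤ t, ∀ η < δ, ∀ x', s ∈ meets (F η x') → ∃ n, x' < x n := by
    intro s hs η hη x' hx'
    obtain ⟨n, hn⟩ := hcof η hη
    exact ⟨n, hinc s (hs.trans htq) _ _ hn _ _ hx' (down_meets _ _ (htx n) _ hs)⟩
  have hyu : ∀ s' ≤ t, ∀ y', s' ∈ meets (F δ y') → y' = y := by
    intro s' hs' y' hy'
    apply le_antisymm
    · refine hcont s' (hs'.trans htq) δ hδl y' y hy' fun η hη x' s'' hs'' hx' => ?_
      obtain ⟨n, hn⟩ := hxs s'' (hs''.trans hs') η hη x' hx'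
      exact hn.trans (hxy n)
    · refine hcont s (hs.trans htq) δ hδl y y' hy fun η hη x' s'' hs'' hx' => ?_
      obtain ⟨n, hn⟩ := hxs s'' (hs''.trans hs) η hη x' hx'
      exact hn.trans (hinc s' (hs'.trans htq) _ _ (hlt n) _ _ (down_meets _ _ (htx n) _ hs') hy')
  have hty : t ∈ meets (F δ y) := by
    intro s' hs'
    obtain ⟨s1, hs1, y', hy'⟩ := IsFun.total (down_IsFun F q hq.1 s' (hs'.trans htq)) δ
    rw [hyu s1 (hs1.trans hs') y' hy'] at hy'
    obtain ⟨s2, hs2, s3, hs3, h⟩ := hy' s1 le_rfl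
    exact ⟨s2, hs2.trans hs1, s3, hs3, h⟩
  -- the value at `δ` is not mentioned
  have hmen : ∀ x' ξ, t.val (i (x', y)) ξ = none := by
    intro x' ξ
    by_contra h
    obtain ⟨n, hn⟩ := ht2 _ ξ h
    have hg : y ∈ men i (E n).1.1 := ⟨x', ξ, hn⟩
    rcases n4 (E n) y hg with ⟨η, hη, x'', hx'', hm⟩ | h'
    · have h1 : t ∈ meets (F η x'') := down_meets _ _ hm _ (ht1 (n + 1))
      exact absurd (hinc t htq η δ (hη.trans (hlt (n + 1))) x'' y h1 hty) (not_lt.2 hx'')
    · exact lt_irrefl _ (h' t (ht1 (n + 1)) δ y hty)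
  -- the final condition
  let e : Λ → Om.{u} → Option Bool := fun w ξ =>
    if w = i (x 0, y) ∧ ξ < ν then some false
    else if w = i (x 0, y) ∧ ξ = ν then some true else none
  have he : #(supp e) < ℵ₁ := by
    rw [cnt]
    refine Set.Countable.mono (s₂ := (fun ξ => (i (x 0, y), ξ)) '' (Iio ν ∪ {ν})) ?_
      (((countable_Iio ν).union (countable_singleton ν)).image _)
    rintro ⟨w, ξ⟩ h
    simp only [supp, mem_ofPred_eq, e] at h
    split_ifs at h with h1 h2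
    · exact ⟨ξ, Or.inl h1.2, by rw [h1.1]⟩
    · exact ⟨ξ, Or.inr h2.2, by rw [h2.1]⟩
    · exact absurd rfl h
  have h0 : ℵ₀ ≤ (ℵ₁ : Cardinal.{u}) := reg1.aleph0_le
  have hle : glue h0 t t e he ≤ t := glue_le_left h0 t t e he
  refine ⟨glue h0 t t e he, hle.trans htq, (E 0).1.2, δ, x 0, y, hlt 0, hxy 0,
    down_meets _ _ (htx 0) _ hle, down_meets _ _ hty _ hle, ?_, ?_⟩
  · show (t.val (i (x 0, y)) ν).orElse
      (fun _ => (t.val (i (x 0, y)) ν).orElse fun _ => e (i (x 0, y)) ν) = _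
    rw [hmen]
    simp [e]
  · intro ξ hξ
    show (t.val (i (x 0, y)) ξ).orElse
      (fun _ => (t.val (i (x 0, y)) ξ).orElse fun _ => e (i (x 0, y)) ξ) = _
    rw [hmen]
    simp [e, hξ]

theorem surjective {i : K × K → Λ} (hi : Function.Injective i) (p : AddForcing ℵ₁ Λ) :
    p ∈ Surjective (AddForcing ℵ₁ Λ) Om.{u} K := by
  refine mem_fex_of_mem (Cn i) (down_fand (down_fall fun _ => down_fall fun _ => down_fall fun _ =>
    down_fand (down_fex _) (down_fall fun _ => down_fall fun _ => down_fimp _ _))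
    (down_fall fun _ => down_fimp _ _)) ⟨isColouring i p, fun F => ?_⟩
  refine mem_fimp.2 fun q _ hq => ⟨q, le_rfl, fun ν => mem_hasPair fun r hr => ?_⟩
  obtain ⟨t, ht, ξ, η, x, y, h1, h2, h3, h4, h5⟩ :=
    main hi (down_IsClosedCopy F q hq r hr) ν
  exact ⟨t, ht, ξ, η, x, y, h2, h3, h4, meets_of_mem h5⟩

end

/-- The ordinal `ω₁` of the ground model is `ω₁` in the extension. -/
theorem isOmegaOne {Λ : Type u} (p : AddForcing ℵ₁ Λ) :
    p ∈ IsOmegaOne (AddForcing ℵ₁ Λ) Om.{u} := by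
  refine ⟨?_, fun a => ?_⟩
  · intro q _ hq
    obtain ⟨r, _, R, hR1, hR2⟩ := mem_fex.1 hq q le_rfl
    obtain ⟨s, hs, h, hh⟩ := decide_fun (P := AddForcing ℵ₁ Λ) (κ := ℵ₁) reg1.aleph0_le
      (closed reg1) (X := ULift.{u} ℕ) (Y := Om.{u}) (by
        rw [mk_uLift, mk_nat, lift_aleph0]
        exact aleph0_lt_aleph_one) (R := fun n => R n.down)
        ⟨fun n => hR1.1 n.down, fun n => hR1.2 n.down⟩
    have hsurj : Function.Surjective h := by
      intro y
      obtain ⟨t, ht, x, hx⟩ := mem_fex.1 (hR2 y) s hs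
      exact ⟨⟨x⟩, IsFun.unique (down_IsFun R r hR1 t (ht.trans hs))
        (down_meets _ _ (hh ⟨x⟩) t ht) hx⟩
    have h1 := mk_le_of_surjective hsurj
    rw [mk_uLift, mk_nat, lift_aleph0, mk_ord_toType] at h1
    exact absurd aleph0_lt_aleph_one (not_lt.2 h1)
  · obtain ⟨o, -⟩ := bdd (countable_empty (α := Om.{u}))
    have hs : (Iio a ∪ {o}).Countable := (countable_Iio a).union (countable_singleton o)
    obtain ⟨f, hf⟩ := hs.exists_eq_range ⟨o, Or.inr rfl⟩
    have hm : ∀ n b (q : AddForcing ℵ₁ Λ), q ∈ meets {_r : AddForcing ℵ₁ Λ | f n = b} ↔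
        f n = b := by
      intro n b q
      constructor
      · intro h
        obtain ⟨_, _, s, hs, _⟩ := h q le_rfl
        exact hs
      · intro h
        exact meets_of_mem h
    refine mem_fex_of_mem (fun n b => {_r | f n = b}) (down_fand (down_IsFun _)
      (down_fall fun _ => down_fall fun _ => down_fex _)) ⟨⟨fun n => mem_fex.2 fun q _ =>
        ⟨q, le_rfl, f n, (hm n _ q).2 rfl⟩, fun n b b' => mem_fimp.2 fun q _ hq =>
        ⟨q, le_rfl, ?_⟩⟩, fun b hb => mem_fex.2 fun q _ => ?_⟩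
    · exact ((hm n b q).1 hq.1).symm.trans ((hm n b' q).1 hq.2)
    · have h1 : b ∈ range f := by
        rw [← hf]
        exact Or.inl hb
      obtain ⟨n, hn⟩ := h1
      exact ⟨q, le_rfl, n, (hm n b q).2 hn⟩

end Pool.Agent.R580.ClosedColour
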