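import Mathlib

set_option autoImplicit false

/-! Helper file for MP_d38296_lc: the game of googol with few values. -/

namespace Pool.Agent.R580.Googol

open Finset

/-! ### definitions -/

/-- the largest element of a list of natural numbers -/
def mx (l : List ℕ) : ℕ := l.foldr max 0

/-- `run A top past future`: the probability that the algorithm, which has seen the values `past`
(the most recent first) and has not stopped yet, stops on the value `top` when the values `future`
arrive. -/
noncomputable def run (A : List ℕ → ℝ) (top : ℕ) : List ℕ → List ℕ → ℝ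
  | _, [] => 0
  | past, x :: future =>
      A (x :: past) * (if x = top then 1 else 0) +
        (1 - A (x :: past)) * run A top (x :: past) future

/-- The probability that the algorithm `A` stops on the largest value when the distinct values in
`l` arrive in this order. -/
noncomputable def win (A : List ℕ → ℝ) (l : List ℕ) : ℝ := run A (mx l) [] l

/-- the `n!` orders of the elements of a set with `n` elements -/
noncomputable def orders (S : Finset ℕ) : Finset (List ℕ) := S.toList.permutations.toFinset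

/-- The probability that `A` wins if the set is drawn from the distribution `D` on the
`n`-element subsets of `{1, …, N}`, and its elements arrive in random order. -/
noncomputable def winProb (n N : ℕ) (D : Finset ℕ → ℝ) (A : List ℕ → ℝ) : ℝ :=
  ∑ S ∈ (Icc 1 N).powersetCard n, D S * ((∑ l ∈ orders S, win A l) / (n.factorial : ℝ))

lemma mem_orders {S : Finset ℕ} {l : List ℕ} : l ∈ orders S ↔ l.Nodup ∧ l.toFinset = S := by
  unfold orders
  rw [List.mem_toFinset, List.mem_permutations]
  constructor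
  · intro h
    exact ⟨h.nodup_iff.2 S.nodup_toList, by rw [List.toFinset_eq_of_perm _ _ h, toList_toFinset]⟩
  · rintro ⟨h1, h2⟩
    rw [List.perm_ext_iff_of_nodup h1 S.nodup_toList]
    intro a
    rw [mem_toList, ← h2, List.mem_toFinset]

@[simp] lemma mx_nil : mx [] = 0 := rfl

@[simp] lemma mx_cons (x : ℕ) (l : List ℕ) : mx (x :: l) = max x (mx l) := rfl

lemma le_mx {l : List ℕ} {x : ℕ} (h : x ∈ l) : x ≤ mx l := by
  induction l with
  | nil => simp at h
  | cons y l ih =>
    rw [mx_cons]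
    rcases List.mem_cons.1 h with h | h
    · subst h; exact le_max_left _ _
    · exact (ih h).trans (le_max_right _ _)

lemma mx_mem {l : List ℕ} (h : l ≠ []) : mx l ∈ l := by
  induction l with
  | nil => exact absurd rfl h
  | cons y l ih =>
    rw [mx_cons]
    rcases max_choice y (mx l) with h1 | h1
    · rw [h1]; exact List.mem_cons_self
    · rw [h1]
      by_cases h2 : l = []
      · subst h2
        simp only [mx_nil] at h1 ⊢
        have : y = 0 := by simpa using h1
        rw [this]; simp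
      · exact List.mem_cons_of_mem _ (ih h2)

lemma mx_le {l : List ℕ} {N : ℕ} (h : ∀ x ∈ l, x ≤ N) : mx l ≤ N := by
  by_cases h2 : l = []
  · subst h2; simp
  · exact h _ (mx_mem h2)

lemma run_nonneg {A : List ℕ → ℝ} (hA : ∀ l, 0 ≤ A l ∧ A l ≤ 1) (top : ℕ) :
    ∀ (f p : List ℕ), 0 ≤ run A top p f := by
  intro f
  induction f with
  | nil => intro p; simp [run]
  | cons x f ih =>
    intro p
    rw [run]
    have h1 := (hA (x :: p)).1
    have h2 := (hA (x :: p)).2
    have h3 := ih (x :: p)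
    have : (0 : ℝ) ≤ if x = top then 1 else 0 := by split_ifs <;> norm_num
    have h4 : 0 ≤ 1 - A (x :: p) := by linarith
    positivity

lemma run_le_one {A : List ℕ → ℝ} (hA : ∀ l, 0 ≤ A l ∧ A l ≤ 1) (top : ℕ) :
    ∀ (f p : List ℕ), run A top p f ≤ 1 := by
  intro f
  induction f with
  | nil => intro p; simp [run]
  | cons x f ih =>
    intro p
    rw [run]
    have h1 := (hA (x :: p)).1
    have h2 := (hA (x :: p)).2
    have h3 := ih (x :: p)
    have : (if x = top then (1 : ℝ) else 0) ≤ 1 := by split_ifs <;> norm_num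
    nlinarith

/-! ### extensions of a sequence -/

/-- the sequences of `j` further distinct values which can follow `p` -/
def Ext (N : ℕ) : ℕ → List ℕ → Finset (List ℕ)
  | 0, _ => {[]}
  | j + 1, p => ((Icc 1 N) \ p.toFinset).biUnion fun y => (Ext N j (y :: p)).image (List.cons y)

lemma mem_Ext {N : ℕ} : ∀ {j : ℕ} {p r : List ℕ}, r ∈ Ext N j p ↔
    r.length = j ∧ r.Nodup ∧ ∀ x ∈ r, x ∈ Icc 1 N ∧ x ∉ p := by
  intro j
  induction j with
  | zero =>
    intro p r
    rw [Ext, mem_singleton]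
    constructor
    · rintro rfl; simp
    · rintro ⟨h, _⟩; exact List.length_eq_zero_iff.1 h
  | succ j ih =>
    intro p r
    rw [Ext, mem_biUnion]
    constructor
    · rintro ⟨y, hy, hr⟩
      obtain ⟨s, hs, rfl⟩ := mem_image.1 hr
      obtain ⟨h1, h2, h3⟩ := ih.1 hs
      rw [mem_sdiff, List.mem_toFinset] at hy
      refine ⟨by simp [h1], List.nodup_cons.2 ⟨fun h => (h3 y h).2 List.mem_cons_self, h2⟩, ?_⟩
      intro x hx
      rcases List.mem_cons.1 hx with h | h
      · subst h; exact hy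
      · exact ⟨(h3 x h).1, fun h' => (h3 x h).2 (List.mem_cons_of_mem _ h')⟩
    · rintro ⟨h1, h2, h3⟩
      cases r with
      | nil => simp at h1
      | cons y s =>
        rw [List.nodup_cons] at h2
        refine ⟨y, ?_, mem_image.2 ⟨s, ih.2 ⟨by simpa using h1, h2.2, ?_⟩, rfl⟩⟩
        · rw [mem_sdiff, List.mem_toFinset]
          exact h3 y List.mem_cons_self
        · intro x hx
          refine ⟨(h3 x (List.mem_cons_of_mem _ hx)).1, ?_⟩
          intro h
          rcases List.mem_cons.1 h with h | h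
          · subst h; exact h2.1 hx
          · exact (h3 x (List.mem_cons_of_mem _ hx)).2 h

lemma sum_Ext_succ (N j : ℕ) (p : List ℕ) (g : List ℕ → ℝ) :
    ∑ r ∈ Ext N (j + 1) p, g r =
      ∑ y ∈ (Icc 1 N) \ p.toFinset, ∑ r ∈ Ext N j (y :: p), g (y :: r) := by
  rw [Ext, sum_biUnion]
  · refine sum_congr rfl fun y _ => ?_
    rw [sum_image]
    intro a _ b _ h
    exact (List.cons.inj h).2
  · intro a _ b _ hab
    rw [Function.onFun, disjoint_left]
    intro r h1 h2
    obtain ⟨s, _, rfl⟩ := mem_image.1 h1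
    obtain ⟨s', _, h⟩ := mem_image.1 h2
    exact hab (List.cons.inj h).1.symm

/-! ### the weights -/

/-- the weight of a history of length `k` with maximum `m` -/
noncomputable def mu (n k m : ℕ) : ℝ := 1 / ((k : ℝ) * ((max m n).descFactorial k : ℝ))

lemma mu_nonneg (n k m : ℕ) : 0 ≤ mu n k m := by unfold mu; positivity

lemma df_pos {m k : ℕ} (h : k ≤ m) : (0 : ℝ) < (m.descFactorial k : ℝ) := by
  have := Nat.pos_of_ne_zero (fun h0 => absurd (Nat.descFactorial_eq_zero_iff_lt.1 h0) (by omega) :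
    m.descFactorial k ≠ 0)
  exact_mod_cast this

lemma df_succ (m k : ℕ) (h : k ≤ m) :
    (m.descFactorial (k + 1) : ℝ) = ((m : ℝ) - k) * (m.descFactorial k : ℝ) := by
  rw [Nat.descFactorial_succ]
  push_cast [Nat.cast_sub h]
  ring

lemma df_succ' (m k : ℕ) :
    ((m + 1).descFactorial (k + 1) : ℝ) = ((m : ℝ) + 1) * (m.descFactorial k : ℝ) := by
  rw [Nat.succ_descFactorial_succ]
  push_cast
  ring

/-- telescoping step -/
lemma tele_step (m k : ℕ) (hk : 1 ≤ k) (hm : k ≤ m) :
    1 / ((m + 1).descFactorial (k + 1) : ℝ) =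
      1 / (k * (m.descFactorial k : ℝ)) - 1 / (k * ((m + 1).descFactorial k : ℝ)) := by
  have h1 := df_pos hm
  have h2 : (0 : ℝ) < ((m + 1).descFactorial k : ℝ) := df_pos (by omega)
  have h3 := df_succ' m k
  have h4 := df_succ (m + 1) k (by omega)
  push_cast at h4
  have hk' : (0 : ℝ) < k := by exact_mod_cast hk
  have h5 : (0 : ℝ) < ((m + 1).descFactorial (k + 1) : ℝ) := df_pos (by omega)
  have h6 : ((m : ℝ) + 1 - k) * ((m + 1).descFactorial k : ℝ) =
      ((m : ℝ) + 1) * (m.descFactorial k : ℝ) := by rw [← h4, ← h3]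
  have hmk : (k : ℝ) ≤ m := by exact_mod_cast hm
  rw [h3]
  rw [eq_sub_iff_add_eq, div_add_div _ _ (by positivity) (by positivity),
    div_eq_div_iff (by positivity) (by positivity)]
  have e : ((m + 1).descFactorial k : ℝ) =
      ((m : ℝ) + 1) * (m.descFactorial k : ℝ) / ((m : ℝ) + 1 - k) := by
    rw [eq_div_iff (by linarith), ← h6]; ring
  rw [e]
  have h7 : ((m : ℝ) + 1 - k) ≠ 0 := by
    have : (0 : ℝ) < (m : ℝ) + 1 - k := by linarith
    exact this.ne'
  field_simp
  ring

lemma tele (k M : ℕ) (hk : 1 ≤ k) (hM : k ≤ M) (N : ℕ) :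
    ∑ y ∈ Ioc M N, 1 / (y.descFactorial (k + 1) : ℝ) ≤ 1 / (k * (M.descFactorial k : ℝ)) := by
  have key : ∀ d : ℕ, ∑ y ∈ Ioc M (M + d), 1 / (y.descFactorial (k + 1) : ℝ) =
      1 / (k * (M.descFactorial k : ℝ)) - 1 / (k * ((M + d).descFactorial k : ℝ)) := by
    intro d
    induction d with
    | zero => simp
    | succ d ih =>
      rw [← Nat.add_assoc, Finset.sum_Ioc_succ_top (by omega), ih,
        tele_step (M + d) k hk (by omega)]
      ring
  rcases le_or_gt M N with h | h
  · obtain ⟨d, rfl⟩ := Nat.exists_eq_add_of_le h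
    rw [key d]
    have : (0 : ℝ) ≤ 1 / (k * ((M + d).descFactorial k : ℝ)) := by positivity
    linarith
  · rw [Ioc_eq_empty (by omega), sum_empty]
    positivity

/-! ### one step -/

lemma card_low {N M : ℕ} {p : List ℕ} (hp : p.Nodup) (hpN : ∀ x ∈ p, x ∈ Icc 1 N)
    (hM : ∀ x ∈ p, x ≤ M) (hMN : M ≤ N) :
    (((Icc 1 N) \ p.toFinset).filter (fun y => y ≤ M)).card = M - p.length := by
  have e : ((Icc 1 N) \ p.toFinset).filter (fun y => y ≤ M) = (Icc 1 M) \ p.toFinset := by
    ext y
    simp only [mem_filter, mem_sdiff, mem_Icc, List.mem_toFinset]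
    constructor
    · rintro ⟨⟨⟨h1, _⟩, h2⟩, h3⟩; exact ⟨⟨h1, h3⟩, h2⟩
    · rintro ⟨⟨h1, h3⟩, h2⟩; exact ⟨⟨⟨h1, h3.trans hMN⟩, h2⟩, h3⟩
  rw [e, card_sdiff_of_subset, Nat.card_Icc, List.toFinset_card_of_nodup hp]
  · simp
  · intro x hx
    rw [List.mem_toFinset] at hx
    rw [mem_Icc]
    exact ⟨(mem_Icc.1 (hpN x hx)).1, hM x hx⟩

/-- the weight of staying below the current level -/
lemma step_low {n N k : ℕ} {p : List ℕ} (hk : 1 ≤ k) (hkn : k < n) (hlen : p.length = k)
    (hp : p.Nodup) (hpN : ∀ x ∈ p, x ∈ Icc 1 N) (hnN : n ≤ N) :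
    ∑ _y ∈ ((Icc 1 N) \ p.toFinset).filter (fun y => y ≤ max (mx p) n), mu n (k + 1) (mx p) =
      ((k : ℝ) / (k + 1)) * mu n k (mx p) := by
  set M := max (mx p) n with hM
  have hMN : M ≤ N := max_le (mx_le fun x hx => (mem_Icc.1 (hpN x hx)).2) hnN
  have hnM : n ≤ M := le_max_right _ _
  rw [sum_const, card_low hp hpN (fun x hx => (le_mx hx).trans (le_max_left _ _)) hMN, hlen,
    nsmul_eq_mul]
  unfold mu
  rw [← hM, df_succ M k (by omega), Nat.cast_sub (by omega)]
  have h1 := df_pos (show k ≤ M by omega)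
  have h2 : (0 : ℝ) < (M : ℝ) - k := by
    have : (k : ℝ) < M := by exact_mod_cast (by omega : k < M)
    linarith
  have h3 : (0 : ℝ) < k := by exact_mod_cast hk
  push_cast
  field_simp

/-- the weight of going above the current level -/
lemma step_high {n N k : ℕ} {p : List ℕ} (hk : 1 ≤ k) (hkn : k < n)
    (hpN : ∀ x ∈ p, x ∈ Icc 1 N) (hnN : n ≤ N) :
    ∑ y ∈ ((Icc 1 N) \ p.toFinset).filter (fun y => ¬ y ≤ max (mx p) n), mu n (k + 1) y ≤
      (1 / ((k : ℝ) + 1)) * mu n k (mx p) := by
  set M := max (mx p) n with hM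
  have hnM : n ≤ M := le_max_right _ _
  have e : ((Icc 1 N) \ p.toFinset).filter (fun y => ¬ y ≤ M) = Ioc M N := by
    ext y
    simp only [mem_filter, mem_sdiff, mem_Icc, List.mem_toFinset, mem_Ioc, not_le]
    constructor
    · rintro ⟨⟨⟨_, h1⟩, _⟩, h3⟩; exact ⟨h3, h1⟩
    · rintro ⟨h1, h3⟩
      refine ⟨⟨⟨by omega, h3⟩, ?_⟩, h1⟩
      intro h
      have := (le_mx h).trans (le_max_left (mx p) n)
      omega
  rw [e]
  have h := tele k M hk (by omega) N
  have hk' : (0 : ℝ) < (k : ℝ) + 1 := by positivity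
  calc ∑ y ∈ Ioc M N, mu n (k + 1) y
      = (1 / ((k : ℝ) + 1)) * ∑ y ∈ Ioc M N, 1 / (y.descFactorial (k + 1) : ℝ) := by
        rw [mul_sum]
        refine sum_congr rfl fun y hy => ?_
        rw [mem_Ioc] at hy
        unfold mu
        rw [max_eq_left (by omega : n ≤ y)]
        push_cast
        rw [one_div_mul_one_div]
    _ ≤ (1 / ((k : ℝ) + 1)) * (1 / (k * (M.descFactorial k : ℝ))) := by gcongr
    _ = (1 / ((k : ℝ) + 1)) * mu n k (mx p) := by unfold mu; rw [← hM]

lemma mu_max (n k m : ℕ) : mu n k (max m n) = mu n k m := by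
  unfold mu; rw [max_assoc, max_self]

/-- mass of the extensions -/
noncomputable def Tot (n N j : ℕ) (p : List ℕ) : ℝ :=
  ∑ r ∈ Ext N j p, mu n n (max (mx p) (mx r))

lemma Tot_succ (n N j : ℕ) (p : List ℕ) :
    Tot n N (j + 1) p = ∑ y ∈ (Icc 1 N) \ p.toFinset, Tot n N j (y :: p) := by
  unfold Tot
  rw [sum_Ext_succ]
  refine sum_congr rfl fun y _ => sum_congr rfl fun r _ => ?_
  rw [mx_cons, mx_cons, max_left_comm, max_assoc]

lemma pre_cons {N y : ℕ} {p : List ℕ} (hp : p.Nodup) (hpN : ∀ x ∈ p, x ∈ Icc 1 N)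
    (hy : y ∈ (Icc 1 N) \ p.toFinset) : (y :: p).Nodup ∧ ∀ x ∈ y :: p, x ∈ Icc 1 N := by
  rw [mem_sdiff, List.mem_toFinset] at hy
  refine ⟨List.nodup_cons.2 ⟨hy.2, hp⟩, ?_⟩
  intro x hx
  rcases List.mem_cons.1 hx with h | h
  · subst h; exact hy.1
  · exact hpN x h

lemma Tot_le {n N : ℕ} (hnN : n ≤ N) : ∀ (j k : ℕ) (p : List ℕ), 1 ≤ k → k + j = n →
    p.length = k → p.Nodup → (∀ x ∈ p, x ∈ Icc 1 N) → Tot n N j p ≤ mu n k (mx p) := by
  intro j
  induction j with
  | zero =>
    intro k p hk hkn hlen hp hpN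
    have : k = n := by omega
    subst this
    simp [Tot, Ext]
  | succ j ih =>
    intro k p hk hkn hlen hp hpN
    rw [Tot_succ, ← sum_filter_add_sum_filter_not _ (fun y => y ≤ max (mx p) n)]
    have hk' : (0 : ℝ) < (k : ℝ) + 1 := by positivity
    have h1 : ∑ y ∈ ((Icc 1 N) \ p.toFinset).filter (fun y => y ≤ max (mx p) n),
        Tot n N j (y :: p) ≤ ((k : ℝ) / (k + 1)) * mu n k (mx p) := by
      rw [← step_low hk (by omega) hlen hp hpN hnN]
      refine sum_le_sum fun y hy => ?_
      rw [mem_filter] at hy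
      obtain ⟨h2, h3⟩ := pre_cons hp hpN hy.1
      refine (ih (k + 1) (y :: p) (by omega) (by omega) (by simp [hlen]) h2 h3).trans (le_of_eq ?_)
      rw [mx_cons]
      unfold mu
      rw [max_assoc, max_eq_right hy.2]
    have h2 : ∑ y ∈ ((Icc 1 N) \ p.toFinset).filter (fun y => ¬ y ≤ max (mx p) n),
        Tot n N j (y :: p) ≤ (1 / ((k : ℝ) + 1)) * mu n k (mx p) := by
      refine le_trans (sum_le_sum fun y hy => ?_) (step_high hk (by omega) hpN hnN)
      rw [mem_filter, not_le] at hy
      obtain ⟨h2, h3⟩ := pre_cons hp hpN hy.1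
      refine (ih (k + 1) (y :: p) (by omega) (by omega) (by simp [hlen]) h2 h3).trans (le_of_eq ?_)
      rw [mx_cons, max_eq_left ((le_max_left _ _).trans hy.2.le)]
    have h3 : ((k : ℝ) / (k + 1)) * mu n k (mx p) + (1 / ((k : ℝ) + 1)) * mu n k (mx p) =
        mu n k (mx p) := by field_simp
    linarith

/-- mass of the extensions which keep the maximum -/
noncomputable def Top (n N j : ℕ) (p : List ℕ) : ℝ :=
  ∑ r ∈ Ext N j p, mu n n (max (mx p) (mx r)) * (if max (mx p) (mx r) = mx p then 1 else 0)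

lemma Top_eq {n N : ℕ} (hnN : n ≤ N) : ∀ (j k : ℕ) (p : List ℕ), 1 ≤ k → k + j = n →
    p.length = k → p.Nodup → (∀ x ∈ p, x ∈ Icc 1 N) → n ≤ mx p →
    Top n N j p = ((k : ℝ) / n) * mu n k (mx p) := by
  intro j
  induction j with
  | zero =>
    intro k p hk hkn hlen hp hpN _
    have : k = n := by omega
    subst this
    have h : (k : ℝ) ≠ 0 := by positivity
    simp [Top, Ext, h]
  | succ j ih =>
    intro k p hk hkn hlen hp hpN hm
    have hM : max (mx p) n = mx p := max_eq_left hm
    unfold Top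
    rw [sum_Ext_succ, ← sum_filter_add_sum_filter_not _ (fun y => y ≤ max (mx p) n)]
    have h2 : ∑ y ∈ ((Icc 1 N) \ p.toFinset).filter (fun y => ¬ y ≤ max (mx p) n),
        ∑ r ∈ Ext N j (y :: p), mu n n (max (mx p) (mx (y :: r))) *
          (if max (mx p) (mx (y :: r)) = mx p then (1 : ℝ) else 0) = 0 := by
      refine sum_eq_zero fun y hy => sum_eq_zero fun r _ => ?_
      rw [mem_filter, not_le, hM] at hy
      rw [if_neg, mul_zero]
      rw [mx_cons]
      have := le_max_left y (mx r)
      have := le_max_right (mx p) (max y (mx r))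
      omega
    have h1 : ∑ y ∈ ((Icc 1 N) \ p.toFinset).filter (fun y => y ≤ max (mx p) n),
        ∑ r ∈ Ext N j (y :: p), mu n n (max (mx p) (mx (y :: r))) *
          (if max (mx p) (mx (y :: r)) = mx p then (1 : ℝ) else 0) =
        ((k : ℝ) / n) * mu n k (mx p) := by
      have h3 : ∀ y ∈ ((Icc 1 N) \ p.toFinset).filter (fun y => y ≤ max (mx p) n),
          ∑ r ∈ Ext N j (y :: p), mu n n (max (mx p) (mx (y :: r))) *
            (if max (mx p) (mx (y :: r)) = mx p then (1 : ℝ) else 0) =
          (((k : ℝ) + 1) / n) * mu n (k + 1) (mx p) := by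
        intro y hy
        rw [mem_filter, hM] at hy
        obtain ⟨h4, h5⟩ := pre_cons hp hpN hy.1
        have e : mx (y :: p) = mx p := by rw [mx_cons]; exact max_eq_right hy.2
        have := ih (k + 1) (y :: p) (by omega) (by omega) (by simp [hlen]) h4 h5 (by rw [e]; exact hm)
        rw [e] at this
        push_cast at this
        rw [← this]
        unfold Top
        refine sum_congr rfl fun r _ => ?_
        have e2 : max (mx p) (mx (y :: r)) = max (mx p) (mx r) := by
          rw [mx_cons, ← max_assoc, max_eq_left hy.2]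
        rw [e2, e]
      rw [sum_congr rfl h3, ← mul_sum, step_low hk (by omega) hlen hp hpN hnN]
      have : (0 : ℝ) < (k : ℝ) + 1 := by positivity
      field_simp
    rw [h1, h2, add_zero]

/-- weighted winning probability after the history `p` -/
noncomputable def Fu (n N : ℕ) (A : List ℕ → ℝ) (j : ℕ) (p : List ℕ) : ℝ :=
  ∑ r ∈ Ext N j p, mu n n (max (mx p) (mx r)) * run A (max (mx p) (mx r)) p r

lemma Fu_succ (n N : ℕ) (A : List ℕ → ℝ) (j : ℕ) (p : List ℕ) :
    Fu n N A (j + 1) p = ∑ y ∈ (Icc 1 N) \ p.toFinset,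
      (A (y :: p) * (∑ r ∈ Ext N j (y :: p), mu n n (max (mx (y :: p)) (mx r)) *
        (if y = max (mx (y :: p)) (mx r) then 1 else 0)) + (1 - A (y :: p)) * Fu n N A j (y :: p)) := by
  unfold Fu
  rw [sum_Ext_succ]
  refine sum_congr rfl fun y _ => ?_
  rw [mul_sum, mul_sum, ← sum_add_distrib]
  refine sum_congr rfl fun r _ => ?_
  have e : max (mx p) (mx (y :: r)) = max (mx (y :: p)) (mx r) := by
    rw [mx_cons, mx_cons, max_left_comm, max_assoc]
  rw [e, run]
  ring

lemma Fu_le {n N : ℕ} (hnN : n ≤ N) {A : List ℕ → ℝ} (hA : ∀ l, 0 ≤ A l ∧ A l ≤ 1)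
    {c : ℕ → ℝ} (hc0 : ∀ k, 0 ≤ c k)
    (hc : ∀ k, 1 ≤ k → k < n →
      (k : ℝ) / (k + 1) * c (k + 1) + 1 / ((k : ℝ) + 1) * max (((k : ℝ) + 1) / n) (c (k + 1)) ≤ c k) :
    ∀ (j k : ℕ) (p : List ℕ), 1 ≤ k → k + j = n →
    p.length = k → p.Nodup → (∀ x ∈ p, x ∈ Icc 1 N) → n ≤ mx p →
    Fu n N A j p ≤ c k * mu n k (mx p) := by
  intro j
  induction j with
  | zero =>
    intro k p hk hkn hlen hp hpN _
    simp only [Fu, Ext, sum_singleton, run, mul_zero]
    exact mul_nonneg (hc0 k) (mu_nonneg _ _ _)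
  | succ j ih =>
    intro k p hk hkn hlen hp hpN hm
    have hM : max (mx p) n = mx p := max_eq_left hm
    rw [Fu_succ, ← sum_filter_add_sum_filter_not _ (fun y => y ≤ max (mx p) n)]
    have h1 : ∑ y ∈ ((Icc 1 N) \ p.toFinset).filter (fun y => y ≤ max (mx p) n),
        (A (y :: p) * (∑ r ∈ Ext N j (y :: p), mu n n (max (mx (y :: p)) (mx r)) *
        (if y = max (mx (y :: p)) (mx r) then 1 else 0)) + (1 - A (y :: p)) * Fu n N A j (y :: p)) ≤
        c (k + 1) * (((k : ℝ) / (k + 1)) * mu n k (mx p)) := by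
      rw [← step_low hk (by omega) hlen hp hpN hnN, mul_sum]
      refine sum_le_sum fun y hy => ?_
      rw [mem_filter, hM] at hy
      obtain ⟨h4, h5⟩ := pre_cons hp hpN hy.1
      have hyp : y ∉ p := by
        have := (mem_sdiff.1 hy.1).2
        rwa [List.mem_toFinset] at this
      have hlt : y < mx p := by
        rcases hy.2.lt_or_eq with h | h
        · exact h
        · exfalso
          have hne : p ≠ [] := by
            intro h0; rw [h0] at hlen; simp at hlen; omega
          exact hyp (h ▸ mx_mem hne)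
      have e : mx (y :: p) = mx p := by rw [mx_cons]; exact max_eq_right hy.2
      have h6 := ih (k + 1) (y :: p) (by omega) (by omega) (by simp [hlen]) h4 h5 (by rw [e]; exact hm)
      rw [e] at h6
      have h7 : ∑ r ∈ Ext N j (y :: p), mu n n (max (mx (y :: p)) (mx r)) *
          (if y = max (mx (y :: p)) (mx r) then (1 : ℝ) else 0) = 0 := by
        refine sum_eq_zero fun r _ => ?_
        rw [if_neg, mul_zero]
        rw [e]
        have := le_max_left (mx p) (mx r)
        omega
      rw [h7, mul_zero, zero_add]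
      have h8 := hA (y :: p)
      have h9 : 0 ≤ c (k + 1) * mu n (k + 1) (mx p) := mul_nonneg (hc0 _) (mu_nonneg _ _ _)
      nlinarith
    have h2 : ∑ y ∈ ((Icc 1 N) \ p.toFinset).filter (fun y => ¬ y ≤ max (mx p) n),
        (A (y :: p) * (∑ r ∈ Ext N j (y :: p), mu n n (max (mx (y :: p)) (mx r)) *
        (if y = max (mx (y :: p)) (mx r) then 1 else 0)) + (1 - A (y :: p)) * Fu n N A j (y :: p)) ≤
        max (((k : ℝ) + 1) / n) (c (k + 1)) * ((1 / ((k : ℝ) + 1)) * mu n k (mx p)) := by
      have hmax : 0 ≤ max (((k : ℝ) + 1) / n) (c (k + 1)) := le_max_of_le_right (hc0 _)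
      refine le_trans ?_ (mul_le_mul_of_nonneg_left (step_high hk (by omega) hpN hnN) hmax)
      rw [mul_sum]
      refine sum_le_sum fun y hy => ?_
      rw [mem_filter, not_le, hM] at hy
      obtain ⟨h4, h5⟩ := pre_cons hp hpN hy.1
      have e : mx (y :: p) = y := by rw [mx_cons]; exact max_eq_left hy.2.le
      have h6 := ih (k + 1) (y :: p) (by omega) (by omega) (by simp [hlen]) h4 h5
        (by rw [e]; omega)
      have h7 := Top_eq hnN j (k + 1) (y :: p) (by omega) (by omega) (by simp [hlen]) h4 h5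
        (by rw [e]; omega)
      rw [e] at h6 h7
      have h7' : ∑ r ∈ Ext N j (y :: p), mu n n (max (mx (y :: p)) (mx r)) *
          (if y = max (mx (y :: p)) (mx r) then (1 : ℝ) else 0) =
          (((k : ℝ) + 1) / n) * mu n (k + 1) y := by
        push_cast at h7
        rw [← h7]
        unfold Top
        refine sum_congr rfl fun r _ => ?_
        rw [e]
        simp only [eq_comm]
      rw [h7']
      have h8 := hA (y :: p)
      have h9 := mu_nonneg n (k + 1) y
      have h10 : ((k : ℝ) + 1) / n * mu n (k + 1) y ≤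
          max (((k : ℝ) + 1) / n) (c (k + 1)) * mu n (k + 1) y :=
        mul_le_mul_of_nonneg_right (le_max_left _ _) h9
      have h11 : c (k + 1) * mu n (k + 1) y ≤
          max (((k : ℝ) + 1) / n) (c (k + 1)) * mu n (k + 1) y :=
        mul_le_mul_of_nonneg_right (le_max_right _ _) h9
      have h12 : 0 ≤ 1 - A (y :: p) := by linarith [h8.2]
      calc A (y :: p) * (((k : ℝ) + 1) / n * mu n (k + 1) y) + (1 - A (y :: p)) * Fu n N A j (y :: p)
          ≤ A (y :: p) * (max (((k : ℝ) + 1) / n) (c (k + 1)) * mu n (k + 1) y) +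
            (1 - A (y :: p)) * (max (((k : ℝ) + 1) / n) (c (k + 1)) * mu n (k + 1) y) :=
            add_le_add (mul_le_mul_of_nonneg_left h10 h8.1)
              (mul_le_mul_of_nonneg_left (h6.trans h11) h12)
        _ = max (((k : ℝ) + 1) / n) (c (k + 1)) * mu n (k + 1) y := by ring
    have h3 := hc k hk (by omega)
    have h4 := mul_le_mul_of_nonneg_right h3 (mu_nonneg n k (mx p))
    calc _ ≤ c (k + 1) * (((k : ℝ) / (k + 1)) * mu n k (mx p)) +
          max (((k : ℝ) + 1) / n) (c (k + 1)) * ((1 / ((k : ℝ) + 1)) * mu n k (mx p)) :=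
          add_le_add h1 h2
      _ = ((k : ℝ) / (k + 1) * c (k + 1) +
          1 / ((k : ℝ) + 1) * max (((k : ℝ) + 1) / n) (c (k + 1))) * mu n k (mx p) := by ring
      _ ≤ _ := h4

end Pool.Agent.R580.Googol
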