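import Pool.Agent.R580.Googol

set_option autoImplicit false

/-! Helper file for MP_d38296_lc: the numeric part and the final bound. -/

namespace Pool.Agent.R580.Googol

open Finset

lemma icc_ico (a b : ℕ) : Icc a b = Ico a (b + 1) := by
  ext y
  simp only [mem_Icc, mem_Ico]
  omega

lemma inv_le_log_sub {a : ℝ} (ha : 0 < a) : 1 / (a + 1) ≤ Real.log (a + 1) - Real.log a := by
  have h := Real.one_sub_inv_le_log_of_pos (x := (a + 1) / a) (by positivity)
  rw [Real.log_div (by positivity) ha.ne'] at h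
  refine le_trans (le_of_eq ?_) h
  rw [inv_div]
  field_simp
  ring

lemma log_sub_le_inv {a : ℝ} (ha : 0 < a) : Real.log (a + 1) - Real.log a ≤ 1 / a := by
  have h := Real.log_le_sub_one_of_pos (x := (a + 1) / a) (by positivity)
  rw [Real.log_div (by positivity) ha.ne'] at h
  refine le_trans h (le_of_eq ?_)
  field_simp
  ring

lemma log_le_div_e {y : ℝ} (hy : 0 < y) : Real.log y ≤ y / Real.exp 1 := by
  have h := Real.add_one_le_exp (Real.log y - 1)
  rw [Real.exp_sub, Real.exp_log hy] at h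
  linarith

lemma harm_le {k : ℕ} (hk : 1 ≤ k) {m : ℕ} (hm : k ≤ m) :
    ∑ j ∈ Ico (k + 1) (m + 1), 1 / (j : ℝ) ≤ Real.log m - Real.log k := by
  induction m, hm using Nat.le_induction with
  | base => simp
  | succ m hm ih =>
    rw [sum_Ico_succ_top (by omega)]
    have hm0 : (0 : ℝ) < m := by exact_mod_cast (by omega : 0 < m)
    have := inv_le_log_sub hm0
    push_cast
    linarith

lemma le_harm {a : ℕ} (ha : 1 ≤ a) {m : ℕ} (hm : a ≤ m) :
    Real.log m - Real.log a ≤ ∑ j ∈ Ico a m, 1 / (j : ℝ) := by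
  induction m, hm using Nat.le_induction with
  | base => simp
  | succ m hm ih =>
    rw [sum_Ico_succ_top (by omega)]
    have hm0 : (0 : ℝ) < m := by exact_mod_cast (by omega : 0 < m)
    have := log_sub_le_inv hm0
    push_cast
    linarith

/-- the limit value with its error term -/
noncomputable def CC (n : ℕ) : ℝ := 1 / Real.exp 1 + 1 / n

noncomputable def TT (n k : ℕ) : ℝ := (k : ℝ) / n * ∑ j ∈ Ico k n, 1 / (j : ℝ)

noncomputable def cseq (n k : ℕ) : ℝ := if CC n < ((k : ℝ) + 1) / n then TT n k else CC n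

lemma CC_nonneg (n : ℕ) : 0 ≤ CC n := by unfold CC; positivity

lemma TT_nonneg (n k : ℕ) : 0 ≤ TT n k := by
  unfold TT
  have : 0 ≤ ∑ j ∈ Ico k n, 1 / (j : ℝ) := sum_nonneg fun j _ => by positivity
  positivity

lemma cseq_nonneg (n k : ℕ) : 0 ≤ cseq n k := by
  unfold cseq
  split_ifs
  · exact TT_nonneg n k
  · exact CC_nonneg n

lemma TT_le {n k : ℕ} (hk : 1 ≤ k) : TT n k ≤ CC n := by
  rcases le_or_gt n k with h | h
  · unfold TT
    rw [Ico_eq_empty (by omega), sum_empty, mul_zero]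
    exact CC_nonneg n
  · have hk0 : (0 : ℝ) < k := by exact_mod_cast hk
    have hn0 : (0 : ℝ) < n := by exact_mod_cast (by omega : 0 < n)
    have h1 : ∑ j ∈ Ico k n, 1 / (j : ℝ) = 1 / (k : ℝ) + ∑ j ∈ Ico (k + 1) n, 1 / (j : ℝ) := by
      rw [sum_eq_sum_Ico_succ_bot h]
    have h2 : ∑ j ∈ Ico (k + 1) n, 1 / (j : ℝ) ≤ Real.log n - Real.log k := by
      obtain ⟨m, rfl⟩ : ∃ m, n = m + 1 := ⟨n - 1, by omega⟩
      refine (harm_le hk (by omega : k ≤ m)).trans ?_
      have : Real.log (m : ℝ) ≤ Real.log ((m + 1 : ℕ) : ℝ) := by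
        apply Real.log_le_log
        · exact_mod_cast (by omega : 0 < m)
        · push_cast; linarith
      linarith
    have h3 : Real.log n - Real.log k ≤ (n : ℝ) / k / Real.exp 1 := by
      rw [← Real.log_div hn0.ne' hk0.ne']
      exact log_le_div_e (by positivity)
    unfold TT CC
    rw [h1]
    calc (k : ℝ) / n * (1 / (k : ℝ) + ∑ j ∈ Ico (k + 1) n, 1 / (j : ℝ))
        ≤ (k : ℝ) / n * (1 / (k : ℝ) + (n : ℝ) / k / Real.exp 1) := by
          gcongr
          exact h2.trans h3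
      _ = 1 / Real.exp 1 + 1 / n := by
          have := Real.exp_pos 1
          field_simp
          ring

lemma cseq_le {n k : ℕ} (hk : 1 ≤ k) : cseq n k ≤ CC n := by
  unfold cseq
  split_ifs
  · exact TT_le hk
  · exact le_rfl

lemma cseq_rec {n k : ℕ} (hk : 1 ≤ k) (hkn : k < n) :
    (k : ℝ) / (k + 1) * cseq n (k + 1) +
      1 / ((k : ℝ) + 1) * max (((k : ℝ) + 1) / n) (cseq n (k + 1)) ≤ cseq n k := by
  have hk0 : (0 : ℝ) < k := by exact_mod_cast hk
  have hn0 : (0 : ℝ) < n := by exact_mod_cast (by omega : 0 < n)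
  by_cases h : CC n < ((k : ℝ) + 1) / n
  · have h1 : cseq n k = TT n k := by unfold cseq; rw [if_pos h]
    have h2 : cseq n (k + 1) = TT n (k + 1) := by
      unfold cseq
      rw [if_pos]
      refine h.trans_le ?_
      push_cast
      gcongr
      linarith
    -- the harmonic sum is at most one
    have h3 : ∑ j ∈ Ico (k + 1) n, 1 / (j : ℝ) ≤ 1 := by
      have h4 : ∑ j ∈ Ico (k + 1) n, 1 / (j : ℝ) ≤ Real.log n - Real.log k := by
        obtain ⟨m, rfl⟩ : ∃ m, n = m + 1 := ⟨n - 1, by omega⟩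
        refine (harm_le hk (by omega : k ≤ m)).trans ?_
        have : Real.log (m : ℝ) ≤ Real.log ((m + 1 : ℕ) : ℝ) := by
          apply Real.log_le_log
          · exact_mod_cast (by omega : 0 < m)
          · push_cast; linarith
        linarith
      refine h4.trans ?_
      have h5 : 1 / Real.exp 1 < (k : ℝ) / n := by
        unfold CC at h
        rw [add_div] at h
        linarith
      rw [← Real.log_div hn0.ne' hk0.ne']
      have h6 : (n : ℝ) / k < Real.exp 1 := by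
        rw [div_lt_div_iff₀ (Real.exp_pos 1) hn0] at h5
        rw [div_lt_iff₀ hk0]
        linarith
      calc Real.log ((n : ℝ) / k) ≤ Real.log (Real.exp 1) :=
            Real.log_le_log (by positivity) h6.le
        _ = 1 := Real.log_exp 1
    have h4 : TT n (k + 1) ≤ ((k : ℝ) + 1) / n := by
      unfold TT
      push_cast
      calc ((k : ℝ) + 1) / n * ∑ j ∈ Ico (k + 1) n, 1 / (j : ℝ)
          ≤ ((k : ℝ) + 1) / n * 1 := by gcongr
        _ = _ := mul_one _
    rw [h2, h1, max_eq_left h4]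
    unfold TT
    rw [sum_eq_sum_Ico_succ_bot hkn]
    push_cast
    apply le_of_eq
    field_simp
    ring
  · have h1 : cseq n k = CC n := by unfold cseq; rw [if_neg h]
    rw [h1]
    have h2 : cseq n (k + 1) ≤ CC n := cseq_le (by omega)
    have h3 : max (((k : ℝ) + 1) / n) (cseq n (k + 1)) ≤ CC n := max_le (not_lt.1 h) h2
    calc (k : ℝ) / (k + 1) * cseq n (k + 1) +
          1 / ((k : ℝ) + 1) * max (((k : ℝ) + 1) / n) (cseq n (k + 1))
        ≤ (k : ℝ) / (k + 1) * CC n + 1 / ((k : ℝ) + 1) * CC n := by gcongr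
      _ = CC n := by field_simp

/-! ### the first value -/

lemma mu_one_high {n y : ℕ} (h : n ≤ y) : mu n 1 y = 1 / (y : ℝ) := by
  unfold mu
  rw [max_eq_left h, Nat.descFactorial_one]
  simp

lemma mu_one_low {n y : ℕ} (h : y ≤ n) : mu n 1 y = 1 / (n : ℝ) := by
  unfold mu
  rw [max_eq_right h, Nat.descFactorial_one]
  simp

lemma sum_high {n N : ℕ} (hn : 1 ≤ n) (hnN : n ≤ N) :
    ∑ y ∈ (Icc 1 N).filter (fun y => ¬ y < n), 1 / (y : ℝ) ≤
      1 / (n : ℝ) + ∑ t ∈ Icc n N, 1 / ((t : ℝ) + 1) := by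
  have e : (Icc 1 N).filter (fun y => ¬ y < n) = Icc n N := by
    ext y
    simp only [mem_filter, mem_Icc, not_lt]
    omega
  rw [e]
  have e2 : ∑ t ∈ Icc n N, 1 / ((t : ℝ) + 1) = ∑ t ∈ Ico (n + 1) (N + 2), 1 / (t : ℝ) := by
    rw [icc_ico, ← sum_Ico_add' (fun t : ℕ => 1 / (t : ℝ)) n (N + 1) 1]
    refine sum_congr rfl fun t _ => ?_
    push_cast
    rfl
  rw [e2, icc_ico, sum_eq_sum_Ico_succ_bot (by omega : n < N + 1),
    sum_Ico_succ_top (by omega : n + 1 ≤ N + 1)]
  have : (0 : ℝ) ≤ 1 / ((N + 1 : ℕ) : ℝ) := by positivity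
  linarith

lemma Fu_le_Tot {n N : ℕ} {A : List ℕ → ℝ} (hA : ∀ l, 0 ≤ A l ∧ A l ≤ 1) (j : ℕ) (p : List ℕ) :
    Fu n N A j p ≤ Tot n N j p := by
  unfold Fu Tot
  refine sum_le_sum fun r _ => ?_
  have h1 := run_le_one hA (max (mx p) (mx r)) r p
  have h2 := mu_nonneg n n (max (mx p) (mx r))
  nlinarith

lemma first_high {n N : ℕ} (hn : 1 ≤ n) (hnN : n ≤ N) {A : List ℕ → ℝ}
    (hA : ∀ l, 0 ≤ A l ∧ A l ≤ 1) {y : ℕ} (hy : y ∈ Icc 1 N) (hyn : n ≤ y) :
    A [y] * (∑ r ∈ Ext N (n - 1) [y], mu n n (max (mx [y]) (mx r)) *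
        (if y = max (mx [y]) (mx r) then 1 else 0)) + (1 - A [y]) * Fu n N A (n - 1) [y] ≤
      CC n * (1 / (y : ℝ)) := by
  have e : mx [y] = y := by simp
  have hp : ∀ x ∈ [y], x ∈ Icc 1 N := by
    intro x hx
    rw [List.mem_singleton] at hx
    rw [hx]; exact hy
  have h1 := Fu_le hnN hA (cseq_nonneg n) (fun k hk hkn => cseq_rec hk hkn) (n - 1) 1 [y] le_rfl
    (by omega) (by simp) (by simp) hp (by rw [e]; exact hyn)
  have h2 := Top_eq hnN (n - 1) 1 [y] le_rfl (by omega) (by simp) (by simp) hp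
    (by rw [e]; exact hyn)
  have h3 : ∑ r ∈ Ext N (n - 1) [y], mu n n (max (mx [y]) (mx r)) *
        (if y = max (mx [y]) (mx r) then (1 : ℝ) else 0) = (1 / n) * mu n 1 y := by
    rw [e] at h2
    push_cast at h2
    rw [← h2]
    unfold Top
    refine sum_congr rfl fun r _ => ?_
    rw [e]
    simp only [eq_comm]
  rw [e] at h1
  rw [h3]
  have h4 : (1 : ℝ) / n ≤ CC n := by
    unfold CC
    have := Real.exp_pos 1
    have : 0 < 1 / Real.exp 1 := by positivity
    linarith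
  have h5 : cseq n 1 ≤ CC n := cseq_le le_rfl
  have h6 := mu_nonneg n 1 y
  have h7 := hA [y]
  have h8 : 0 ≤ 1 - A [y] := by linarith [h7.2]
  rw [← mu_one_high hyn]
  calc A [y] * (1 / n * mu n 1 y) + (1 - A [y]) * Fu n N A (n - 1) [y]
      ≤ A [y] * (CC n * mu n 1 y) + (1 - A [y]) * (CC n * mu n 1 y) := by
        refine add_le_add (mul_le_mul_of_nonneg_left (mul_le_mul_of_nonneg_right h4 h6) h7.1)
          (mul_le_mul_of_nonneg_left (h1.trans (mul_le_mul_of_nonneg_right h5 h6)) h8)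
    _ = CC n * mu n 1 y := by ring

lemma first_low {n N : ℕ} (hn : 1 ≤ n) (hnN : n ≤ N) {A : List ℕ → ℝ}
    (hA : ∀ l, 0 ≤ A l ∧ A l ≤ 1) {y : ℕ} (hy : y ∈ Icc 1 N) (hyn : y ≤ n) :
    A [y] * (∑ r ∈ Ext N (n - 1) [y], mu n n (max (mx [y]) (mx r)) *
        (if y = max (mx [y]) (mx r) then 1 else 0)) + (1 - A [y]) * Fu n N A (n - 1) [y] ≤
      1 / (n : ℝ) := by
  have e : mx [y] = y := by simp
  have hp : ∀ x ∈ [y], x ∈ Icc 1 N := by
    intro x hx
    rw [List.mem_singleton] at hx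
    rw [hx]; exact hy
  have h1 := Tot_le hnN (n - 1) 1 [y] le_rfl (by omega) (by simp) (by simp) hp
  rw [e, mu_one_low hyn] at h1
  have h2 := (Fu_le_Tot (n := n) (N := N) hA (n - 1) [y]).trans h1
  have h3 : ∑ r ∈ Ext N (n - 1) [y], mu n n (max (mx [y]) (mx r)) *
        (if y = max (mx [y]) (mx r) then (1 : ℝ) else 0) ≤ 1 / n := by
    refine le_trans ?_ h1
    unfold Tot
    refine sum_le_sum fun r _ => ?_
    have h4 := mu_nonneg n n (max (mx [y]) (mx r))
    split_ifs <;> linarith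
  have h7 := hA [y]
  have h8 : 0 ≤ 1 - A [y] := by linarith [h7.2]
  calc _ ≤ A [y] * (1 / n) + (1 - A [y]) * (1 / n) :=
        add_le_add (mul_le_mul_of_nonneg_left h3 h7.1) (mul_le_mul_of_nonneg_left h2 h8)
    _ = 1 / n := by ring

lemma Fu_total {n N : ℕ} (hn : 1 ≤ n) (hnN : n ≤ N) {A : List ℕ → ℝ}
    (hA : ∀ l, 0 ≤ A l ∧ A l ≤ 1) :
    Fu n N A n [] ≤ CC n * (1 / n + ∑ t ∈ Icc n N, 1 / ((t : ℝ) + 1)) + 1 := by
  have hn1 : n = (n - 1) + 1 := by omega
  have h0 : Fu n N A n [] = ∑ y ∈ Icc 1 N, (A [y] * (∑ r ∈ Ext N (n - 1) [y],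
      mu n n (max (mx [y]) (mx r)) * (if y = max (mx [y]) (mx r) then 1 else 0)) +
        (1 - A [y]) * Fu n N A (n - 1) [y]) := by
    have := Fu_succ n N A (n - 1) []
    rw [← hn1] at this
    rw [this]
    simp
  rw [h0, ← sum_filter_add_sum_filter_not _ (fun y => y < n), add_comm]
  refine add_le_add ?_ ?_
  · calc _ ≤ ∑ y ∈ (Icc 1 N).filter (fun y => ¬ y < n), CC n * (1 / (y : ℝ)) := by
          refine sum_le_sum fun y hy => ?_
          rw [mem_filter, not_lt] at hy
          exact first_high hn hnN hA hy.1 hy.2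
      _ ≤ _ := by
          rw [← mul_sum]
          exact mul_le_mul_of_nonneg_left (sum_high hn hnN) (CC_nonneg n)
  · calc _ ≤ ∑ y ∈ (Icc 1 N).filter (fun y => y < n), 1 / (n : ℝ) := by
          refine sum_le_sum fun y hy => ?_
          rw [mem_filter] at hy
          exact first_low hn hnN hA hy.1 hy.2.le
      _ ≤ ∑ y ∈ range n, 1 / (n : ℝ) := by
          refine sum_le_sum_of_subset_of_nonneg ?_ ?_
          · intro y hy
            rw [mem_filter] at hy
            exact mem_range.2 hy.2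
          · intro y _ _; positivity
      _ = 1 := by
          rw [sum_const, card_range, nsmul_eq_mul]
          have : (n : ℝ) ≠ 0 := by positivity
          field_simp

/-! ### the instance -/

/-- the total weight of the scales -/
noncomputable def WW (n N : ℕ) : ℝ := ∑ t ∈ Icc n N, 1 / ((t : ℝ) + 1)

/-- Scale `t` from `{n, …, N}` with weight `1/(t+1)`, then a uniform `n`-subset of `{1, …, t}`. -/
noncomputable def DD (n N : ℕ) (S : Finset ℕ) : ℝ :=
  (∑ t ∈ Icc n N, 1 / ((t : ℝ) + 1) * (if S ⊆ Icc 1 t then 1 / (t.choose n : ℝ) else 0)) / WW n N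

lemma WW_pos {n N : ℕ} (hnN : n ≤ N) : 0 < WW n N := by
  unfold WW
  refine sum_pos (fun t _ => by positivity) ⟨n, by simp [hnN]⟩

lemma DD_nonneg {n N : ℕ} (hnN : n ≤ N) (S : Finset ℕ) : 0 ≤ DD n N S := by
  unfold DD
  refine div_nonneg (sum_nonneg fun t _ => ?_) (WW_pos hnN).le
  split_ifs <;> positivity

lemma DD_sum {n N : ℕ} (hnN : n ≤ N) :
    ∑ S ∈ (Icc 1 N).powersetCard n, DD n N S = 1 := by
  unfold DD
  rw [← sum_div, sum_comm, div_eq_one_iff_eq (WW_pos hnN).ne']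
  unfold WW
  refine sum_congr rfl fun t ht => ?_
  rw [mem_Icc] at ht
  rw [← mul_sum, ← sum_filter]
  have e : ((Icc 1 N).powersetCard n).filter (fun S => S ⊆ Icc 1 t) = (Icc 1 t).powersetCard n := by
    ext S
    simp only [mem_filter, mem_powersetCard]
    constructor
    · rintro ⟨⟨_, h2⟩, h3⟩; exact ⟨h3, h2⟩
    · rintro ⟨h3, h2⟩
      exact ⟨⟨h3.trans (Icc_subset_Icc le_rfl ht.2), h2⟩, h3⟩
  rw [e, sum_const, card_powersetCard, Nat.card_Icc, nsmul_eq_mul]
  have h : (0 : ℝ) < (t.choose n : ℝ) := by exact_mod_cast Nat.choose_pos ht.1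
  simp only [Nat.add_sub_cancel]
  field_simp

lemma DD_le {n N : ℕ} (hn : 1 ≤ n) (hnN : n ≤ N) {l : List ℕ} (hl : l.Nodup)
    (hlen : l.length = n) (hN : ∀ x ∈ l, x ∈ Icc 1 N) :
    DD n N l.toFinset / (n.factorial : ℝ) ≤ mu n n (mx l) / WW n N := by
  unfold DD
  rw [div_right_comm]
  refine div_le_div_of_nonneg_right ?_ (WW_pos hnN).le
  -- the maximum is at least n
  have hm : n ≤ mx l := by
    have h1 : l.toFinset ⊆ Icc 1 (mx l) := by
      intro x hx
      rw [List.mem_toFinset] at hx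
      rw [mem_Icc]
      exact ⟨(mem_Icc.1 (hN x hx)).1, le_mx hx⟩
    have h2 := card_le_card h1
    rw [List.toFinset_card_of_nodup hl, hlen, Nat.card_Icc] at h2
    omega
  have hf : (0 : ℝ) < (n.factorial : ℝ) := by exact_mod_cast n.factorial_pos
  rw [sum_div]
  have h1 : ∀ t ∈ Icc n N, 1 / ((t : ℝ) + 1) *
      (if l.toFinset ⊆ Icc 1 t then 1 / (t.choose n : ℝ) else 0) / (n.factorial : ℝ) ≤
      if mx l ≤ t then 1 / ((t + 1).descFactorial (n + 1) : ℝ) else 0 := by
    intro t ht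
    rw [mem_Icc] at ht
    by_cases hsub : l.toFinset ⊆ Icc 1 t
    · have hmt : mx l ≤ t := mx_le fun x hx => (mem_Icc.1 (hsub (List.mem_toFinset.2 hx))).2
      rw [if_pos hsub, if_pos hmt, df_succ' t n]
      apply le_of_eq
      have h2 : (t.descFactorial n : ℝ) = (n.factorial : ℝ) * (t.choose n : ℝ) := by
        rw [Nat.descFactorial_eq_factorial_mul_choose]
        push_cast
        rfl
      have h3 : (0 : ℝ) < (t.choose n : ℝ) := by exact_mod_cast Nat.choose_pos ht.1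
      rw [h2]
      field_simp
    · rw [if_neg hsub]
      rw [mul_zero, zero_div]
      split_ifs <;> positivity
  refine (sum_le_sum h1).trans ?_
  rw [← sum_filter]
  have e : (Icc n N).filter (fun t => mx l ≤ t) = Icc (mx l) N := by
    ext t
    simp only [mem_filter, mem_Icc]
    omega
  have e2 : ∑ t ∈ Icc (mx l) N, 1 / ((t + 1).descFactorial (n + 1) : ℝ) =
      ∑ y ∈ Ioc (mx l) (N + 1), 1 / (y.descFactorial (n + 1) : ℝ) := by
    have h3 : Ioc (mx l) (N + 1) = Ico (mx l + 1) (N + 2) := by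
      ext y
      simp only [mem_Ioc, mem_Ico]
      omega
    rw [h3, icc_ico,
      ← sum_Ico_add' (fun t : ℕ => 1 / (t.descFactorial (n + 1) : ℝ)) (mx l) (N + 1) 1]
  rw [e, e2]
  refine (tele n (mx l) hn hm (N + 1)).trans (le_of_eq ?_)
  unfold mu
  rw [max_eq_left hm]

lemma sum_orders (n N : ℕ) (g : List ℕ → ℝ) :
    ∑ S ∈ (Icc 1 N).powersetCard n, ∑ l ∈ orders S, g l = ∑ l ∈ Ext N n [], g l := by
  rw [← sum_biUnion]
  · refine sum_congr ?_ fun _ _ => rfl
    ext l
    rw [mem_biUnion, mem_Ext]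
    constructor
    · rintro ⟨S, hS, hl⟩
      rw [mem_orders] at hl
      rw [mem_powersetCard] at hS
      refine ⟨?_, hl.1, ?_⟩
      · rw [← List.toFinset_card_of_nodup hl.1, hl.2, hS.2]
      · intro x hx
        refine ⟨hS.1 ?_, by simp⟩
        rw [← hl.2, List.mem_toFinset]
        exact hx
    · rintro ⟨h1, h2, h3⟩
      refine ⟨l.toFinset, ?_, mem_orders.2 ⟨h2, rfl⟩⟩
      rw [mem_powersetCard, List.toFinset_card_of_nodup h2]
      refine ⟨?_, h1⟩
      intro x hx
      exact (h3 x (List.mem_toFinset.1 hx)).1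
  · intro S _ T _ hST
    rw [Function.onFun, disjoint_left]
    intro l h1 h2
    exact hST ((mem_orders.1 h1).2.symm.trans (mem_orders.1 h2).2)

lemma winProb_le {n N : ℕ} (hn : 1 ≤ n) (hnN : n ≤ N) {A : List ℕ → ℝ}
    (hA : ∀ l, 0 ≤ A l ∧ A l ≤ 1) :
    winProb n N (DD n N) A ≤ CC n + (CC n / n + 1) / WW n N := by
  have h1 : winProb n N (DD n N) A ≤ Fu n N A n [] / WW n N := by
    have e : Fu n N A n [] / WW n N =
        ∑ l ∈ Ext N n [], (mu n n (mx l) / WW n N) * win A l := by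
      unfold Fu win
      rw [sum_div]
      refine sum_congr rfl fun l _ => ?_
      simp only [mx_nil, Nat.zero_max]
      ring
    rw [e, ← sum_orders]
    unfold winProb
    refine sum_le_sum fun S hS => ?_
    rw [mem_powersetCard] at hS
    rw [sum_div, mul_sum]
    refine sum_le_sum fun l hl => ?_
    rw [mem_orders] at hl
    have h2 := DD_le hn hnN hl.1
      (by rw [← List.toFinset_card_of_nodup hl.1, hl.2, hS.2])
      (fun x hx => hS.1 (by rw [← hl.2, List.mem_toFinset]; exact hx))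
    rw [hl.2] at h2
    have h3 : 0 ≤ win A l := run_nonneg hA _ _ _
    calc DD n N S * (win A l / (n.factorial : ℝ)) = DD n N S / (n.factorial : ℝ) * win A l := by
          ring
      _ ≤ _ := mul_le_mul_of_nonneg_right h2 h3
  refine h1.trans ?_
  have h2 := Fu_total hn hnN hA
  have hW := WW_pos hnN
  rw [div_le_iff₀ hW]
  refine h2.trans (le_of_eq ?_)
  change CC n * (1 / n + WW n N) + 1 = _
  field_simp
  ring

lemma WW_ge {n N : ℕ} (hnN : n ≤ N) :
    Real.log (((N : ℝ) + 2) / ((n : ℝ) + 1)) ≤ WW n N := by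
  unfold WW
  have e2 : ∑ t ∈ Icc n N, 1 / ((t : ℝ) + 1) = ∑ t ∈ Ico (n + 1) (N + 2), 1 / (t : ℝ) := by
    rw [icc_ico, ← sum_Ico_add' (fun t : ℕ => 1 / (t : ℝ)) n (N + 1) 1]
    refine sum_congr rfl fun t _ => ?_
    push_cast
    rfl
  rw [e2, Real.log_div (by positivity) (by positivity)]
  have := le_harm (show 1 ≤ n + 1 by omega) (show n + 1 ≤ N + 2 by omega)
  push_cast at this
  exact this

/-- the explicit bound -/
theorem winProb_bound {n N : ℕ} (hn : 1 ≤ n) (hnN : n ≤ N) {A : List ℕ → ℝ}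
    (hA : ∀ l, 0 ≤ A l ∧ A l ≤ 1) :
    winProb n N (DD n N) A ≤
      1 / Real.exp 1 + 1 / n + 3 / Real.log (((N : ℝ) + 2) / ((n : ℝ) + 1)) := by
  have hn1 : (1 : ℝ) ≤ n := by exact_mod_cast hn
  have hN1 : (n : ℝ) ≤ N := by exact_mod_cast hnN
  have hlog : 0 < Real.log (((N : ℝ) + 2) / ((n : ℝ) + 1)) := by
    apply Real.log_pos
    rw [lt_div_iff₀ (by positivity)]
    linarith
  have hW := WW_ge hnN
  have hC : CC n / n + 1 ≤ 3 := by
    have h1 : CC n ≤ 2 := by
      unfold CC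
      have h2 : 1 / Real.exp 1 ≤ 1 := by
        rw [div_le_one (Real.exp_pos 1)]
        exact Real.one_le_exp (by norm_num)
      have h3 : (1 : ℝ) / n ≤ 1 := by
        rw [div_le_one (by positivity)]
        exact hn1
      linarith
    have h4 : CC n / n ≤ CC n := div_le_self (CC_nonneg n) hn1
    linarith
  refine (winProb_le hn hnN hA).trans ?_
  have h5 : (CC n / n + 1) / WW n N ≤ 3 / Real.log (((N : ℝ) + 2) / ((n : ℝ) + 1)) :=
    div_le_div₀ (by norm_num) hC hlog hW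
  have h6 : CC n = 1 / Real.exp 1 + 1 / n := rfl
  linarith

end Pool.Agent.R580.Googol
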