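import Mathlib

set_option autoImplicit false

/-! Helper file for MP_9c2350_lc: bounded integer combinations. -/

namespace Pool.Agent.R580.Hurwitz

open Finset Matrix

section

variable {ι κ : Type} [Fintype ι] [Fintype κ] [DecidableEq κ] [DecidableEq ι]

lemma exists_det_ne_zero (F : ι → κ → ℤ) (X : κ → ι → ℤ)
    (h : ∀ k l, ∑ i, X k i * F i l = if k = l then 1 else 0) :
    ∃ f : κ → ι, (Matrix.of fun k l => F (f k) l).det ≠ 0 := by
  by_contra hcon
  push Not at hcon
  have h1 : (Matrix.of fun k l => ∑ i, X k i * F i l).det = 1 := by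
    have : (Matrix.of fun k l => ∑ i, X k i * F i l) = (1 : Matrix κ κ ℤ) := by
      ext k l
      rw [Matrix.of_apply, h, Matrix.one_apply]
    rw [this, Matrix.det_one]
  have h2 : (Matrix.of fun k l => ∑ i, X k i * F i l).det =
      (Matrix.detRowAlternating (n := κ) (R := ℤ)).toMultilinearMap
        (fun k => ∑ i, X k i • F i) := by
    change Matrix.det _ = Matrix.det _
    congr 1
    ext k l
    rw [Matrix.of_apply, Finset.sum_apply]
    simp only [Pi.smul_apply, smul_eq_mul]
  rw [h2, MultilinearMap.map_sum] at h1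
  have h3 : ∀ f : κ → ι, (Matrix.detRowAlternating (n := κ) (R := ℤ)).toMultilinearMap
      (fun k => X k (f k) • F (f k)) = 0 := by
    intro f
    have := MultilinearMap.map_smul_univ
      (Matrix.detRowAlternating (n := κ) (R := ℤ)).toMultilinearMap (fun k => X k (f k))
      (fun k => F (f k))
    rw [this]
    have h4 : (Matrix.detRowAlternating (n := κ) (R := ℤ)).toMultilinearMap (fun k => F (f k)) = 0 :=
      hcon f
    rw [h4, smul_zero]
  rw [sum_eq_zero fun f _ => h3 f] at h1
  exact zero_ne_one h1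

/-- the bound for determinants -/
def Dl (m : ℕ) (a : ℤ) : ℤ := (m.factorial : ℤ) * a ^ m

lemma det_bound (M : Matrix κ κ ℤ) {a : ℤ} (h : ∀ i j, |M i j| ≤ a) :
    |M.det| ≤ Dl (Fintype.card κ) a := by
  have := Matrix.det_le (A := M) (abv := AbsoluteValue.abs) (x := a) (fun i j => by simpa using h i j)
  simpa [Dl, nsmul_eq_mul] using this

lemma adj_bound (M : Matrix κ κ ℤ) {a : ℤ} (ha : 1 ≤ a) (h : ∀ i j, |M i j| ≤ a) (k l : κ) :
    |M.adjugate k l| ≤ Dl (Fintype.card κ) a := by
  rw [Matrix.adjugate_apply]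
  refine det_bound _ fun i j => ?_
  rw [Matrix.updateRow_apply]
  split_ifs with h1
  · rw [Pi.single_apply]
    split_ifs
    · simpa using ha
    · simp; linarith
  · exact h i j

/-- If the integer vectors `F i` generate the lattice, then every integer vector is an integer
combination with bounded coefficients. -/
theorem bounded_comb (F : ι → κ → ℤ) {a : ℤ} (ha : 1 ≤ a) (hF : ∀ i k, |F i k| ≤ a)
    (hspan : ∀ k : κ, ∃ x : ι → ℤ, ∀ l, ∑ i, x i * F i l = if k = l then 1 else 0)
    (b : κ → ℤ) {β : ℤ} (hb : ∀ k, |b k| ≤ β) (hβ : 0 ≤ β) :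
    ∃ x : ι → ℤ, (∀ l, ∑ i, x i * F i l = b l) ∧ ∀ i, |x i| ≤
      Dl (Fintype.card κ) a + Fintype.card κ * (Fintype.card κ *
        ((β + Fintype.card ι * (Dl (Fintype.card κ) a * a)) * Dl (Fintype.card κ) a)) := by
  choose X hX using hspan
  obtain ⟨f, hf⟩ := exists_det_ne_zero F X hX
  set M : Matrix κ κ ℤ := Matrix.of fun k l => F (f k) l with hM
  set Δ := Dl (Fintype.card κ) a with hΔ
  have hΔ0 : 0 ≤ Δ := by
    rw [hΔ]; unfold Dl; positivity
  have hMa : ∀ i j, |M i j| ≤ a := fun i j => hF _ _
  have hD : |M.det| ≤ Δ := det_bound M hMa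
  have hadj : ∀ k l, |M.adjugate k l| ≤ Δ := adj_bound M ha hMa
  set D := M.det with hDdef
  -- a combination
  set n : ι → ℤ := fun i => ∑ k, b k * X k i with hn
  have hnb : ∀ l, ∑ i, n i * F i l = b l := by
    intro l
    calc ∑ i, n i * F i l = ∑ i, ∑ k, b k * (X k i * F i l) := by
          refine sum_congr rfl fun i _ => ?_
          rw [hn, sum_mul]
          refine sum_congr rfl fun k _ => by ring
      _ = ∑ k, b k * ∑ i, X k i * F i l := by
          rw [sum_comm]
          refine sum_congr rfl fun k _ => by rw [mul_sum]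
      _ = b l := by simp [hX]
  set ρ : ι → ℤ := fun i => n i % D with hρ
  set t : ι → ℤ := fun i => n i / D with ht
  have hnρ : ∀ i, n i = ρ i + t i * D := by
    intro i
    have := Int.emod_add_mul_ediv (n i) D
    simp only [hρ, ht]
    linarith [this, mul_comm D (n i / D)]
  have hρ0 : ∀ i, |ρ i| ≤ Δ := by
    intro i
    have h1 := Int.emod_nonneg (n i) hf
    have h2 := Int.emod_lt_abs (n i) hf
    rw [abs_of_nonneg h1]
    exact h2.le.trans hD
  set z : κ → ℤ := fun k => ∑ i, t i * (F i ᵥ* M.adjugate) k with hz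
  have hDF : ∀ i l, ∑ k, (F i ᵥ* M.adjugate) k * M k l = D * F i l := by
    intro i l
    have h1 : (F i ᵥ* M.adjugate) ᵥ* M = D • F i := by
      rw [Matrix.vecMul_vecMul, Matrix.adjugate_mul, Matrix.vecMul_smul, Matrix.vecMul_one]
    have h2 := congrFun h1 l
    simpa [Matrix.vecMul, dotProduct] using h2
  have hzM : ∀ l, ∑ k, z k * M k l = ∑ i, t i * D * F i l := by
    intro l
    calc ∑ k, z k * M k l = ∑ k, ∑ i, t i * ((F i ᵥ* M.adjugate) k * M k l) := by
          refine sum_congr rfl fun k _ => ?_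
          rw [hz, sum_mul]
          refine sum_congr rfl fun i _ => by ring
      _ = ∑ i, t i * ∑ k, (F i ᵥ* M.adjugate) k * M k l := by
          rw [sum_comm]
          refine sum_congr rfl fun i _ => by rw [mul_sum]
      _ = _ := by
          refine sum_congr rfl fun i _ => by rw [hDF]; ring
  set u : κ → ℤ := fun l => b l - ∑ i, ρ i * F i l with hu
  have hub : ∀ l, |u l| ≤ β + Fintype.card ι * (Δ * a) := by
    intro l
    have h1 : |∑ i, ρ i * F i l| ≤ ∑ _i : ι, Δ * a := by
      refine (abs_sum_le_sum_abs _ _).trans (sum_le_sum fun i _ => ?_)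
      rw [abs_mul]
      exact mul_le_mul (hρ0 i) (hF i l) (abs_nonneg _) hΔ0
    rw [sum_const, card_univ, nsmul_eq_mul] at h1
    have h2 := abs_sub (b l) (∑ i, ρ i * F i l)
    have h3 := hb l
    calc |u l| ≤ |b l| + |∑ i, ρ i * F i l| := h2
      _ ≤ _ := by linarith
  have huz : u = z ᵥ* M := by
    funext l
    have h1 : (z ᵥ* M) l = ∑ k, z k * M k l := by simp [Matrix.vecMul, dotProduct]
    rw [h1, hzM l, hu]
    change b l - ∑ i, ρ i * F i l = _
    rw [← hnb l, ← sum_sub_distrib]
    refine sum_congr rfl fun i _ => ?_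
    rw [hnρ i]; ring
  have hDz : ∀ k, D * z k = (u ᵥ* M.adjugate) k := by
    intro k
    rw [huz, Matrix.vecMul_vecMul, Matrix.mul_adjugate, Matrix.vecMul_smul, Matrix.vecMul_one]
    simp [hDdef]
  have hzb : ∀ k, |z k| ≤ Fintype.card κ * ((β + Fintype.card ι * (Δ * a)) * Δ) := by
    intro k
    have h1 : |(u ᵥ* M.adjugate) k| ≤ ∑ _l : κ, (β + Fintype.card ι * (Δ * a)) * Δ := by
      have e : (u ᵥ* M.adjugate) k = ∑ l, u l * M.adjugate l k := by
        simp [Matrix.vecMul, dotProduct]
      rw [e]
      refine (abs_sum_le_sum_abs _ _).trans (sum_le_sum fun l _ => ?_)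
      rw [abs_mul]
      exact mul_le_mul (hub l) (hadj l k) (abs_nonneg _) (by positivity)
    rw [sum_const, card_univ, nsmul_eq_mul] at h1
    rw [← hDz k, abs_mul] at h1
    have h2 : 1 ≤ |D| := Int.one_le_abs hf
    have h3 : |z k| ≤ |D| * |z k| := le_mul_of_one_le_left (abs_nonneg _) h2
    exact h3.trans h1
  refine ⟨fun i => ρ i + ∑ k, if f k = i then z k else 0, ?_, ?_⟩
  · intro l
    calc ∑ i, (ρ i + ∑ k, if f k = i then z k else 0) * F i l
        = ∑ i, ρ i * F i l + ∑ i, ∑ k, (if f k = i then z k * F i l else 0) := by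
          rw [← sum_add_distrib]
          refine sum_congr rfl fun i _ => ?_
          rw [add_mul, sum_mul]
          congr 1
          refine sum_congr rfl fun k _ => ?_
          split_ifs <;> simp
      _ = ∑ i, ρ i * F i l + ∑ k, z k * F (f k) l := by
          congr 1
          rw [sum_comm]
          refine sum_congr rfl fun k _ => ?_
          rw [sum_ite_eq univ (f k) (fun i => z k * F i l)]
          simp
      _ = b l := by
          have h1 : u l = ∑ k, z k * M k l := by
            rw [huz]; simp [Matrix.vecMul, dotProduct]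
          have h2 : ∑ k, z k * F (f k) l = ∑ k, z k * M k l := rfl
          rw [h2, ← h1, hu]
          ring
  · intro i
    have h1 : |∑ k, if f k = i then z k else 0| ≤
        ∑ _k : κ, Fintype.card κ * ((β + Fintype.card ι * (Δ * a)) * Δ) := by
      refine (abs_sum_le_sum_abs _ _).trans (sum_le_sum fun k _ => ?_)
      split_ifs
      · exact hzb k
      · rw [abs_zero]; positivity
    rw [sum_const, card_univ, nsmul_eq_mul] at h1
    exact (abs_add_le _ _).trans (add_le_add (hρ0 i) h1)

end

end Pool.Agent.R580.Hurwitz
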