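import Pool.Agent.R580.Hurwitz1

set_option autoImplicit false

/-! Helper file for MP_9c2350_lc: coloured walks. -/

namespace Pool.Agent.R580.Hurwitz

open Finset

section walks

variable {n m : ℕ}

/-- `l` is the sequence of colours of a walk from `i` to `j` -/
def Walk (E : Fin m → Fin n → Fin n → Prop) : List (Fin m) → Fin n → Fin n → Prop
  | [], i, j => i = j
  | k :: l, i, j => ∃ a, E k i a ∧ Walk E l a j

variable (E : Fin m → Fin n → Fin n → Prop)

lemma walk_append {l₁ l₂ : List (Fin m)} {i j : Fin n} :
    Walk E (l₁ ++ l₂) i j ↔ ∃ a, Walk E l₁ i a ∧ Walk E l₂ a j := by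
  induction l₁ generalizing i with
  | nil => simp [Walk]
  | cons k l ih =>
    simp only [List.cons_append, Walk, ih]
    constructor
    · rintro ⟨a, h1, b, h2, h3⟩; exact ⟨b, ⟨a, h1, h2⟩, h3⟩
    · rintro ⟨b, ⟨a, h1, h2⟩, h3⟩; exact ⟨a, h1, b, h2, h3⟩

/-- shortening of walks -/
lemma walk_short {i j : Fin n} (h : ∃ l, Walk E l i j) : ∃ l, Walk E l i j ∧ l.length < n := by
  classical
  obtain ⟨l₀, hl₀⟩ := h
  have hex : ∃ L, ∃ l, Walk E l i j ∧ l.length = L := ⟨_, l₀, hl₀, rfl⟩
  obtain ⟨l, hl, hL⟩ := Nat.find_spec hex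
  refine ⟨l, hl, ?_⟩
  by_contra hcon
  push Not at hcon
  have h1 : ∀ t : Fin (n + 1), ∃ a, Walk E (l.take t) i a ∧ Walk E (l.drop t) a j := by
    intro t
    apply (walk_append E).1
    rw [List.take_append_drop]
    exact hl
  choose x hx using h1
  obtain ⟨s, t, hst, hxst⟩ := Fintype.exists_ne_map_eq_of_card_lt x (by simp)
  wlog hlt : s < t generalizing s t
  · exact this t s hst.symm hxst.symm (lt_of_le_of_ne (not_lt.1 hlt) hst.symm)
  have h2 : Walk E (l.take s ++ l.drop t) i j :=
    (walk_append E).2 ⟨x s, (hx s).1, hxst ▸ (hx t).2⟩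
  have h3 : (l.take s ++ l.drop t).length < l.length := by
    rw [List.length_append, List.length_take, List.length_drop]
    have h4 : (s : ℕ) < t := hlt
    have h5 : (t : ℕ) ≤ n := Nat.lt_succ_iff.1 t.2
    omega
  exact absurd (Nat.find_min' hex ⟨_, h2, rfl⟩) (by omega)

/-- there is a walk from `i` to `j` with `γ k` edges of colour `k` -/
def Reach (i j : Fin n) (γ : Fin m → ℕ) : Prop := ∃ l, (∀ k, l.count k = γ k) ∧ Walk E l i j

variable {E}

lemma Reach.trans {i a j : Fin n} {γ δ : Fin m → ℕ} (h : Reach E i a γ) (h' : Reach E a j δ) :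
    Reach E i j (fun k => γ k + δ k) := by
  obtain ⟨l, h1, h2⟩ := h
  obtain ⟨l', h1', h2'⟩ := h'
  exact ⟨l ++ l', fun k => by rw [List.count_append, h1, h1'], (walk_append E).2 ⟨a, h2, h2'⟩⟩

lemma Reach.zero (i : Fin n) : Reach E i i (fun _ => 0) := ⟨[], by simp, rfl⟩

lemma Reach.of_walk {l : List (Fin m)} {i j : Fin n} (h : Walk E l i j) :
    Reach E i j (fun k => l.count k) := ⟨l, fun _ => rfl, h⟩

lemma Reach.nsmul {i : Fin n} {γ : Fin m → ℕ} (h : Reach E i i γ) (N : ℕ) :
    Reach E i i (fun k => N * γ k) := by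
  induction N with
  | zero => simpa using Reach.zero i
  | succ N ih =>
    have := ih.trans h
    simpa [add_mul] using this

lemma Reach.sum {ι : Type} (s : Finset ι) {i : Fin n} {γ : ι → Fin m → ℕ}
    (h : ∀ t ∈ s, Reach E i i (γ t)) : Reach E i i (fun k => ∑ t ∈ s, γ t k) := by
  classical
  induction s using Finset.induction_on with
  | empty => simpa using Reach.zero i
  | insert t s ht ih =>
    have h1 := (h t (mem_insert_self _ _)).trans (ih fun t' ht' => h t' (mem_insert_of_mem ht'))
    simpa [sum_insert ht] using h1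

variable (E) [∀ k a b, Decidable (E k a b)]

/-- the colour words (with multiplicity) of the walks with at most `t` edges from `a` to `r` -/
def W (r : Fin n) : ℕ → Fin n → List (List (Fin m))
  | 0, a => if a = r then [[]] else []
  | t + 1, a => W r t a ++ (List.finRange m).flatMap fun k =>
      (List.finRange n).flatMap fun b => if E k a b then (W r t b).map (List.cons k) else []

lemma mem_W {r : Fin n} : ∀ {t : ℕ} {a : Fin n} {w : List (Fin m)},
    w ∈ W E r t a ↔ Walk E w a r ∧ w.length ≤ t := by
  intro t
  induction t with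
  | zero =>
    intro a w
    rw [W]
    constructor
    · intro h
      split_ifs at h with h1
      · rw [List.mem_singleton] at h
        subst h
        exact ⟨h1, le_rfl⟩
      · simp at h
    · rintro ⟨h1, h2⟩
      have : w = [] := List.length_eq_zero_iff.1 (Nat.le_zero.1 h2)
      subst this
      have h3 : a = r := h1
      simp [h3]
  | succ t ih =>
    intro a w
    rw [W, List.mem_append, ih]
    simp only [List.mem_flatMap, List.mem_finRange, true_and]
    constructor
    · rintro (⟨h1, h2⟩ | ⟨k, b, h⟩)
      · exact ⟨h1, by omega⟩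
      · split_ifs at h with h1
        · obtain ⟨w', hw', rfl⟩ := List.mem_map.1 h
          obtain ⟨h2, h3⟩ := ih.1 hw'
          exact ⟨⟨b, h1, h2⟩, by simp; omega⟩
        · simp at h
    · rintro ⟨h1, h2⟩
      cases w with
      | nil => exact Or.inl ⟨h1, by simp⟩
      | cons k l =>
        obtain ⟨b, hb, hl⟩ := h1
        refine Or.inr ⟨k, b, ?_⟩
        rw [if_pos hb]
        exact List.mem_map.2 ⟨l, ih.2 ⟨hl, by simpa using h2⟩, rfl⟩

/-- the number of words -/
def cn (r : Fin n) : ℕ → Fin n → ℕ
  | 0, a => if a = r then 1 else 0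
  | t + 1, a => cn r t a + ∑ k : Fin m, ∑ b : Fin n, if E k a b then cn r t b else 0

/-- the number of edges of colour `k` in all the words -/
def dn (r : Fin n) (k : Fin m) : ℕ → Fin n → ℕ
  | 0, _ => 0
  | t + 1, a => dn r k t a + ∑ k' : Fin m, ∑ b : Fin n,
      if E k' a b then dn r k t b + (if k' = k then cn E r t b else 0) else 0

lemma sum_map_finRange {p : ℕ} (f : Fin p → ℕ) : ((List.finRange p).map f).sum = ∑ i, f i := by
  rw [← List.ofFn_eq_map, List.sum_ofFn]

lemma sum_flatMap_eq {α β : Type} (l : List α) (f : α → List β) (g : β → ℕ) :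
    ((l.flatMap f).map g).sum = (l.map fun a => ((f a).map g).sum).sum := by
  induction l with
  | nil => simp
  | cons a l ih => simp [List.flatMap_cons, ih]

lemma cn_eq (r : Fin n) : ∀ (t : ℕ) (a : Fin n), cn E r t a = (W E r t a).length := by
  intro t
  induction t with
  | zero => intro a; rw [cn, W]; split_ifs <;> rfl
  | succ t ih =>
    intro a
    rw [cn, W, List.length_append, ← ih a]
    congr 1
    have h : ∀ l : List (List (Fin m)), l.length = (l.map fun _ => 1).sum := by
      intro l; simp
    rw [h, sum_flatMap_eq, sum_map_finRange]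
    refine sum_congr rfl fun k _ => ?_
    rw [sum_flatMap_eq, sum_map_finRange]
    refine sum_congr rfl fun b _ => ?_
    rw [ih b]
    split_ifs
    · rw [← h, List.length_map]
    · simp

lemma dn_eq (r : Fin n) (k : Fin m) : ∀ (t : ℕ) (a : Fin n),
    dn E r k t a = ((W E r t a).map (List.count k)).sum := by
  intro t
  induction t with
  | zero => intro a; rw [dn, W]; split_ifs <;> simp
  | succ t ih =>
    intro a
    rw [dn, W, List.map_append, List.sum_append, ← ih a]
    congr 1
    rw [sum_flatMap_eq, sum_map_finRange]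
    refine sum_congr rfl fun k' _ => ?_
    rw [sum_flatMap_eq, sum_map_finRange]
    refine sum_congr rfl fun b _ => ?_
    split_ifs with h1 h2
    · rw [ih b, cn_eq, List.map_map]
      subst h2
      have : (List.count k') ∘ (List.cons k') = fun l : List (Fin m) => List.count k' l + 1 := by
        funext l; simp
      rw [this, List.sum_map_add]
      simp
    · rw [ih b, List.map_map]
      have : (List.count k) ∘ (List.cons k') = fun l : List (Fin m) => List.count k l := by
        funext l
        simp only [Function.comp]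
        rw [List.count_cons_of_ne h2]
      rw [this]
      simp
    · simp

lemma cn_le (r : Fin n) : ∀ (t : ℕ) (a : Fin n), cn E r t a ≤ (1 + m * n) ^ t := by
  intro t
  induction t with
  | zero => intro a; rw [cn]; split_ifs <;> simp
  | succ t ih =>
    intro a
    rw [cn]
    have h1 : ∑ k : Fin m, ∑ b : Fin n, (if E k a b then cn E r t b else 0) ≤
        ∑ _k : Fin m, ∑ _b : Fin n, (1 + m * n) ^ t := by
      refine sum_le_sum fun k _ => sum_le_sum fun b _ => ?_
      split_ifs
      · exact ih b
      · exact Nat.zero_le _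
    simp only [sum_const, card_univ, Fintype.card_fin, smul_eq_mul] at h1
    have h2 := ih a
    rw [pow_succ]
    nlinarith

end walks

end Pool.Agent.R580.Hurwitz
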