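import Pool.Agent.R580.Hurwitz2

set_option autoImplicit false

/-! Helper file for MP_9c2350_lc: the explicit colour vector. -/

namespace Pool.Agent.R580.Hurwitz

open Finset

section main

variable {n m : ℕ} (E : Fin m → Fin n → Fin n → Prop) [∀ k a b, Decidable (E k a b)]

/-- the index type of the generating family -/
abbrev Ix (r : Fin n) : Type := Fin (W E r (2 * n) r).length ⊕ Fin m

/-- colour vectors of closed walks, and unit vectors of the absent colours -/
def FF (r : Fin n) : Ix E r → Fin m → ℤ
  | Sum.inl t, k => (((W E r (2 * n) r).get t).count k : ℤ)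
  | Sum.inr k', k => if (∀ a b, ¬ E k' a b) ∧ k' = k then 1 else 0

/-- the integer span -/
def InL (r : Fin n) (v : Fin m → ℤ) : Prop :=
  ∃ x : Ix E r → ℤ, ∀ l, ∑ i, x i * FF E r i l = v l

variable {E}

lemma InL.add {r : Fin n} {v w : Fin m → ℤ} (h : InL E r v) (h' : InL E r w) :
    InL E r (fun k => v k + w k) := by
  obtain ⟨x, hx⟩ := h
  obtain ⟨y, hy⟩ := h'
  refine ⟨fun i => x i + y i, fun l => ?_⟩
  beta_reduce
  rw [← hx l, ← hy l, ← sum_add_distrib]
  exact sum_congr rfl fun i _ => by ring

lemma InL.sub {r : Fin n} {v w : Fin m → ℤ} (h : InL E r v) (h' : InL E r w) :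
    InL E r (fun k => v k - w k) := by
  obtain ⟨x, hx⟩ := h
  obtain ⟨y, hy⟩ := h'
  refine ⟨fun i => x i - y i, fun l => ?_⟩
  beta_reduce
  rw [← hx l, ← hy l, ← sum_sub_distrib]
  exact sum_congr rfl fun i _ => by ring

lemma InL.congr {r : Fin n} {v w : Fin m → ℤ} (h : InL E r v) (h' : ∀ k, v k = w k) :
    InL E r w := by
  have : v = w := funext h'
  rwa [← this]

lemma InL.word {r : Fin n} {w : List (Fin m)} (h : Walk E w r r) (hl : w.length ≤ 2 * n) :
    InL E r (fun k => (w.count k : ℤ)) := by
  obtain ⟨t, ht⟩ := List.get_of_mem ((mem_W E).2 ⟨h, hl⟩)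
  refine ⟨fun i => if i = Sum.inl t then 1 else 0, fun l => ?_⟩
  simp only [ite_mul, one_mul, zero_mul, sum_ite_eq', mem_univ, if_true]
  change (((W E r (2 * n) r).get t).count l : ℤ) = _
  rw [ht]

lemma InL.absent {r : Fin n} {k' : Fin m} (h : ∀ a b, ¬ E k' a b) :
    InL E r (fun k => if k' = k then 1 else 0) := by
  refine ⟨fun i => if i = Sum.inr k' then 1 else 0, fun l => ?_⟩
  simp only [ite_mul, one_mul, zero_mul, sum_ite_eq', mem_univ, if_true]
  simp [FF, h]

lemma count_absent {k : Fin m} (h : ∀ a b, ¬ E k a b) : ∀ {l : List (Fin m)} {i j : Fin n},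
    Walk E l i j → l.count k = 0 := by
  intro l
  induction l with
  | nil => intro i j _; simp
  | cons k' l ih =>
    rintro i j ⟨a, h1, h2⟩
    have : k' ≠ k := by
      rintro rfl
      exact h _ _ h1
    rw [List.count_cons_of_ne this]
    exact ih h2

lemma exists_edge_of_count {k : Fin m} : ∀ {l : List (Fin m)} {i j : Fin n},
    Walk E l i j → 0 < l.count k → ∃ a b, E k a b := by
  intro l i j h h0
  by_contra hcon
  push Not at hcon
  have := count_absent hcon h
  omega

/-- the bound needed for the multiplier -/
def BB (n m : ℕ) : ℤ :=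
  Dl m (2 * n) + m * (m * (((2 * n : ℤ) + (((1 + m * n) ^ (2 * n) + m : ℕ) : ℤ) *
    (Dl m (2 * n) * (2 * n))) * Dl m (2 * n)))

lemma Dl_nonneg (m : ℕ) {a : ℤ} (ha : 0 ≤ a) : 0 ≤ Dl m a := by unfold Dl; positivity

theorem positive_vector (r : Fin n) {α : Fin m → ℕ} (hα : ∀ i j, Reach E i j α)
    (hpos : 1 ≤ ∑ k, α k) {N : ℕ} (hN : BB n m ≤ N) (hN1 : 1 ≤ N) :
    (∀ i j, Reach E i j (fun k => N * dn E r k (2 * n) r)) ∧
      1 ≤ ∑ k, N * dn E r k (2 * n) r := by
  classical
  have hn : 0 < n := r.pos
  -- short connecting walks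
  have hP : ∀ i j, ∃ l, Walk E l i j ∧ l.length < n := fun i j => by
    obtain ⟨l, _, hl⟩ := hα i j
    exact walk_short E ⟨l, hl⟩
  choose P hPw hPl using hP
  -- every closed walk is in the span
  have hbase : ∀ a, InL E r (fun k => ((P r a).count k : ℤ) + ((P a r).count k : ℤ)) := by
    intro a
    have h1 : Walk E (P r a ++ P a r) r r := (walk_append E).2 ⟨a, hPw r a, hPw a r⟩
    have h2 : (P r a ++ P a r).length ≤ 2 * n := by
      rw [List.length_append]
      have := hPl r a
      have := hPl a r
      omega
    refine (InL.word h1 h2).congr fun k => ?_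
    rw [List.count_append]; push_cast; ring
  have hgen : ∀ (l : List (Fin m)) (i j : Fin n), Walk E l i j →
      InL E r (fun k => ((P r i).count k : ℤ) + (l.count k : ℤ) + ((P j r).count k : ℤ)) := by
    intro l
    induction l with
    | nil =>
      intro i j h
      have h0 : i = j := h
      subst h0
      refine (hbase i).congr fun k => by simp
    | cons k' l ih =>
      rintro i j ⟨a, h1, h2⟩
      have h3 : Walk E (P r i ++ k' :: P a r) r r :=
        (walk_append E).2 ⟨i, hPw r i, ⟨a, h1, hPw a r⟩⟩
      have h4 : (P r i ++ k' :: P a r).length ≤ 2 * n := by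
        rw [List.length_append, List.length_cons]
        have := hPl r i
        have := hPl a r
        omega
      refine (((InL.word h3 h4).add (ih a j h2)).sub (hbase a)).congr fun k => ?_
      rw [List.count_append]
      have e : (k' :: P a r).count k = (P a r).count k + (k' :: l).count k - l.count k := by
        rw [List.count_cons, List.count_cons]
        omega
      have e' : l.count k ≤ (P a r).count k + (k' :: l).count k := by
        rw [List.count_cons]
        omega
      rw [e, Nat.cast_add, Nat.cast_sub e']
      push_cast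
      ring
  -- unit vectors
  have hunit : ∀ k' : Fin m, InL E r (fun k => if k' = k then 1 else 0) := by
    intro k'
    by_cases h : ∀ a b, ¬ E k' a b
    · exact InL.absent h
    · push Not at h
      obtain ⟨i, a, hE⟩ := h
      obtain ⟨l, hl, hw⟩ := hα a i
      obtain ⟨l', hl', hw'⟩ := hα i i
      have h1 := hgen (k' :: l) i i ⟨a, hE, hw⟩
      have h2 := hgen l' i i hw'
      refine (h1.sub h2).congr fun k => ?_
      rw [List.count_cons, hl, hl']
      push_cast
      by_cases hk : k' = k
      · simp [hk]
      · have : ¬ (k' == k) = true := by simpa using hk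
        simp [hk, this]
  -- bounds for the family
  have hFa : ∀ (i : Ix E r) (k : Fin m), |FF E r i k| ≤ (2 * n : ℤ) := by
    intro i k
    rcases i with t | k'
    · have h1 : ((W E r (2 * n) r).get t).count k ≤ 2 * n :=
        (List.count_le_length).trans ((mem_W E).1 (List.get_mem _ _)).2
      change |(((W E r (2 * n) r).get t).count k : ℤ)| ≤ _
      rw [abs_of_nonneg (by positivity)]
      exact_mod_cast h1
    · change |if (∀ a b, ¬ E k' a b) ∧ k' = k then (1 : ℤ) else 0| ≤ _
      have h1 : (1 : ℤ) ≤ 2 * n := by exact_mod_cast (by omega : 1 ≤ 2 * n)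
      split_ifs
      · simpa using h1
      · simp
  have h2n : (1 : ℤ) ≤ 2 * n := by exact_mod_cast (by omega : 1 ≤ 2 * n)
  have hcard : (Fintype.card (Ix E r) : ℤ) ≤ (((1 + m * n) ^ (2 * n) + m : ℕ) : ℤ) := by
    have h1 : Fintype.card (Ix E r) = (W E r (2 * n) r).length + m := by simp
    have h2 := cn_le E r (2 * n) r
    rw [cn_eq] at h2
    rw [h1]
    exact_mod_cast Nat.add_le_add_right h2 m
  -- the word counts
  have hdn : ∀ k, (dn E r k (2 * n) r : ℤ) =
      ∑ t : Fin (W E r (2 * n) r).length, (((W E r (2 * n) r).get t).count k : ℤ) := by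
    intro k
    rw [dn_eq]
    have h1 : ((W E r (2 * n) r).map (List.count k)).sum =
        ∑ t : Fin (W E r (2 * n) r).length, ((W E r (2 * n) r).get t).count k := by
      conv_lhs => rw [← List.ofFn_get (W E r (2 * n) r)]
      rw [List.map_ofFn, List.sum_ofFn]
      rfl
    rw [h1]
    push_cast
    rfl
  constructor
  · intro i j
    set q : Fin m → ℕ := fun k => (P i r).count k + (P r j).count k with hq
    have hqb : ∀ k, |(-(q k : ℤ))| ≤ (2 * n : ℤ) := by
      intro k
      rw [abs_neg, abs_of_nonneg (by positivity)]
      have h1 : (P i r).count k ≤ (P i r).length := List.count_le_length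
      have h2 : (P r j).count k ≤ (P r j).length := List.count_le_length
      have h3 := hPl i r
      have h4 := hPl r j
      have : q k ≤ 2 * n := by
        simp only [hq]
        omega
      exact_mod_cast this
    obtain ⟨x, hx, hxb⟩ := bounded_comb (FF E r) h2n hFa
      (fun k => hunit k) (fun k => -(q k : ℤ)) hqb (by positivity)
    -- the coefficients are at least `-N`
    have hxN : ∀ t, -(N : ℤ) ≤ x t := by
      intro t
      have h1 := hxb t
      rw [Fintype.card_fin] at h1
      have h2 : |x t| ≤ N := by
        refine h1.trans (le_trans ?_ hN)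
        unfold BB
        have hD := Dl_nonneg m (show (0 : ℤ) ≤ 2 * n by positivity)
        gcongr
      have := neg_abs_le (x t)
      linarith
    -- absent colours do not matter
    have hinr : ∀ l : Fin m, ∑ k' : Fin m, x (Sum.inr k') * FF E r (Sum.inr k') l = 0 := by
      intro l
      have h1 : ∀ k' : Fin m, x (Sum.inr k') * FF E r (Sum.inr k') l =
          if k' = l then (if (∀ a b, ¬ E l a b) then x (Sum.inr l) else 0) else 0 := by
        intro k'
        by_cases h : k' = l
        · subst h
          by_cases h2 : ∀ a b, ¬ E k' a b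
          · simp [FF, h2]
          · simp only [FF, and_true, if_neg h2]
            simp
        · simp [FF, h]
      rw [sum_congr rfl fun k' _ => h1 k', sum_ite_eq']
      simp only [mem_univ, if_true]
      split_ifs with h2
      · have h3 := hx l
        rw [Fintype.sum_sum_type] at h3
        rw [sum_congr rfl fun k' _ => h1 k', sum_ite_eq'] at h3
        simp only [mem_univ, if_true, if_pos h2] at h3
        have h4 : ∑ t, x (Sum.inl t) * FF E r (Sum.inl t) l = 0 := by
          refine sum_eq_zero fun t _ => ?_
          have : ((W E r (2 * n) r).get t).count l = 0 :=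
            count_absent h2 ((mem_W E).1 (List.get_mem _ _)).1
          change x (Sum.inl t) * (((W E r (2 * n) r).get t).count l : ℤ) = 0
          rw [this]; simp
        have h5 : q l = 0 := by
          simp only [hq]
          rw [count_absent h2 (hPw i r), count_absent h2 (hPw r j)]
        rw [h4, h5] at h3
        simpa using h3
      · rfl
    have hinl : ∀ l : Fin m, ∑ t, x (Sum.inl t) * (((W E r (2 * n) r).get t).count l : ℤ) =
        -(q l : ℤ) := by
      intro l
      have h3 := hx l
      rw [Fintype.sum_sum_type, hinr l, add_zero] at h3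
      exact h3
    -- the closed walk at the root
    have hclosed : Reach E r r (fun k => ∑ t : Fin (W E r (2 * n) r).length,
        ((N : ℤ) + x (Sum.inl t)).toNat * ((W E r (2 * n) r).get t).count k) := by
      refine Reach.sum univ fun t _ => ?_
      exact (Reach.of_walk ((mem_W E).1 (List.get_mem _ _)).1).nsmul _
    have hall := ((Reach.of_walk (hPw i r)).trans hclosed).trans (Reach.of_walk (hPw r j))
    have e : (fun k => (P i r).count k + ∑ t : Fin (W E r (2 * n) r).length,
        ((N : ℤ) + x (Sum.inl t)).toNat * ((W E r (2 * n) r).get t).count k + (P r j).count k) =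
        fun k => N * dn E r k (2 * n) r := by
      funext k
      zify
      rw [hdn k]
      have h1 : ∀ t : Fin (W E r (2 * n) r).length, (((N : ℤ) + x (Sum.inl t)).toNat : ℤ) =
          N + x (Sum.inl t) := fun t => Int.toNat_of_nonneg (by linarith [hxN (Sum.inl t)])
      have h2 : ∑ t : Fin (W E r (2 * n) r).length,
          (((N : ℤ) + x (Sum.inl t)).toNat : ℤ) * (((W E r (2 * n) r).get t).count k : ℤ) =
          N * ∑ t : Fin (W E r (2 * n) r).length, (((W E r (2 * n) r).get t).count k : ℤ) +
            (-(q k : ℤ)) := by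
        rw [← hinl k, mul_sum, ← sum_add_distrib]
        refine sum_congr rfl fun t _ => ?_
        rw [h1]; ring
      have h3 : (q k : ℤ) = (P i r).count k + (P r j).count k := by simp [hq]
      rw [h2, h3]
      ring
    rw [← e]
    exact hall
  · -- some colour occurs
    obtain ⟨k, hk⟩ : ∃ k, 0 < α k := by
      by_contra hcon
      push Not at hcon
      have : ∑ k, α k = 0 := sum_eq_zero fun k _ => Nat.le_zero.1 (hcon k)
      omega
    obtain ⟨l, hl, hw⟩ := hα r r
    obtain ⟨a, b, hE⟩ := exists_edge_of_count (k := k) hw (by rw [hl]; exact hk)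
    have h1 : Walk E (P r a ++ k :: P b r) r r :=
      (walk_append E).2 ⟨a, hPw r a, ⟨b, hE, hPw b r⟩⟩
    have h2 : (P r a ++ k :: P b r).length ≤ 2 * n := by
      rw [List.length_append, List.length_cons]
      have := hPl r a
      have := hPl b r
      omega
    have h3 : P r a ++ k :: P b r ∈ W E r (2 * n) r := (mem_W E).2 ⟨h1, h2⟩
    have h4 : 1 ≤ dn E r k (2 * n) r := by
      rw [dn_eq]
      have h5 : List.count k (P r a ++ k :: P b r) ≤
          ((W E r (2 * n) r).map (List.count k)).sum :=
        List.single_le_sum (fun _ _ => Nat.zero_le _) _ (List.mem_map.2 ⟨_, h3, rfl⟩)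
      have h6 : 1 ≤ List.count k (P r a ++ k :: P b r) := by
        rw [List.count_append, List.count_cons_self]
        omega
      omega
    have h5 : N * dn E r k (2 * n) r ≤ ∑ k, N * dn E r k (2 * n) r :=
      single_le_sum (f := fun k => N * dn E r k (2 * n) r) (fun _ _ => Nat.zero_le _) (mem_univ k)
    nlinarith

end main

end Pool.Agent.R580.Hurwitz
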