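import Pool.Agent.R580.Hurwitz3
import Pool.Agent.NPC.Dec

set_option autoImplicit false

/-! Helper file for MP_9c2350_lc: the algorithm runs in polynomial time. -/

namespace Pool.Agent.NPC.Hurw

open Finset Pool.Agent.R580.Hurwitz

/-- raw input: numerators and denominators of the entries -/
abbrev Inp := List (List (List (ℤ × ℕ)))

/-- state: for each vertex, the number of walks to the root and the number of their edges with
the given colour -/
abbrev St := List (ℕ × ℕ)

def nn (A : Inp) : ℕ := (A.getD 0 []).length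

def mm (A : Inp) : ℕ := A.length

def ent (A : Inp) (k a b : ℕ) : Bool :=
  !(decide ((((A.getD k []).getD a []).getD b ((0 : ℤ), (1 : ℕ))).1 = 0))

def con1 (A : Inp) (s : St) (a : ℕ) : List ℕ :=
  (List.range (mm A)).flatMap fun k' => (List.range (nn A)).map fun b =>
    if ent A k' a b = true then (s.getD b (0, 0)).1 else 0

def con2 (A : Inp) (k : ℕ) (s : St) (a : ℕ) : List ℕ :=
  (List.range (mm A)).flatMap fun k' => (List.range (nn A)).map fun b =>
    if ent A k' a b = true then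
      (s.getD b (0, 0)).2 + (if k' = k then (s.getD b (0, 0)).1 else 0) else 0

def stp (A : Inp) (k : ℕ) (s : St) : St :=
  (List.range (nn A)).map fun a =>
    ((s.getD a (0, 0)).1 + (con1 A s a).sum, (s.getD a (0, 0)).2 + (con2 A k s a).sum)

def ini (A : Inp) : St := (List.range (nn A)).map fun a => (if a = 0 then 1 else 0, 0)

def fnl (A : Inp) (k : ℕ) : ℕ := (((stp A k)^[2 * nn A] (ini A)).getD 0 (0, 0)).2

/-- the algorithm -/
def out (A : Inp) : List ℕ :=
  (List.range (mm A)).map fun k => 2 ^ (20 * (nn A + mm A + 1) ^ 2) * fnl A k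

/-! ### polynomial time -/

section

variable {α : Type} [TEnc α]

lemma u_nn {A : α → Inp} (hA : Poly A) : UPoly (fun x => nn (A x)) :=
  UPoly.length (Poly.getD hA (Poly.const 0) (Poly.const []))

lemma u_mm {A : α → Inp} (hA : Poly A) : UPoly (fun x => mm (A x)) := UPoly.length hA

lemma p_ent {A : α → Inp} {k a b : α → ℕ} (hA : Poly A) (hk : Poly k) (ha : Poly a)
    (hb : Poly b) : Poly (fun x => ent (A x) (k x) (a x) (b x)) :=
  Poly.not (Poly.decide_eq (Poly.fst (Poly.getD (Poly.getD (Poly.getD hA hk (Poly.const [])) ha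
    (Poly.const [])) hb (Poly.const ((0 : ℤ), (1 : ℕ))))) (Poly.const (0 : ℤ)))

lemma p_con1 {A : α → Inp} {s : α → St} {a : α → ℕ} (hA : Poly A) (hs : Poly s) (ha : Poly a) :
    Poly (fun x => con1 (A x) (s x) (a x)) := by
  refine Poly.flatMap (F := fun x k' => (List.range (nn (A x))).map fun b =>
    if ent (A x) k' (a x) b = true then ((s x).getD b (0, 0)).1 else 0) (u_mm hA).range ?_
  refine Poly.map (F := fun (p : α × ℕ) b =>
    if ent (A p.1) p.2 (a p.1) b = true then ((s p.1).getD b (0, 0)).1 else 0)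
    ((u_nn (hA.comp (Poly.fst Poly.id))).range) ?_
  refine Poly.ite (Poly.decide_bool (p_ent (hA.comp (Poly.fst (Poly.fst Poly.id)))
    (Poly.snd (Poly.fst Poly.id)) (ha.comp (Poly.fst (Poly.fst Poly.id))) (Poly.snd Poly.id)))
    ?_ (Poly.const 0)
  exact Poly.fst (Poly.getD (hs.comp (Poly.fst (Poly.fst Poly.id))) (Poly.snd Poly.id)
    (Poly.const (0, 0)))

lemma p_con2 {A : α → Inp} {s : α → St} {k a : α → ℕ} (hA : Poly A) (hk : Poly k) (hs : Poly s)
    (ha : Poly a) : Poly (fun x => con2 (A x) (k x) (s x) (a x)) := by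
  refine Poly.flatMap (F := fun x k' => (List.range (nn (A x))).map fun b =>
    if ent (A x) k' (a x) b = true then
      ((s x).getD b (0, 0)).2 + (if k' = k x then ((s x).getD b (0, 0)).1 else 0) else 0)
    (u_mm hA).range ?_
  refine Poly.map (F := fun (p : α × ℕ) b =>
    if ent (A p.1) p.2 (a p.1) b = true then
      ((s p.1).getD b (0, 0)).2 + (if p.2 = k p.1 then ((s p.1).getD b (0, 0)).1 else 0) else 0)
    ((u_nn (hA.comp (Poly.fst Poly.id))).range) ?_
  have h1 : Poly (fun p : (α × ℕ) × ℕ => (s p.1.1).getD p.2 (0, 0)) :=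
    Poly.getD (hs.comp (Poly.fst (Poly.fst Poly.id))) (Poly.snd Poly.id) (Poly.const (0, 0))
  refine Poly.ite (Poly.decide_bool (p_ent (hA.comp (Poly.fst (Poly.fst Poly.id)))
    (Poly.snd (Poly.fst Poly.id)) (ha.comp (Poly.fst (Poly.fst Poly.id))) (Poly.snd Poly.id)))
    ?_ (Poly.const 0)
  exact Poly.add (Poly.snd h1) (Poly.ite (Poly.decide_eq (Poly.snd (Poly.fst Poly.id))
    (hk.comp (Poly.fst (Poly.fst Poly.id)))) (Poly.fst h1) (Poly.const 0))

lemma p_stp {A : α → Inp} {s : α → St} {k : α → ℕ} (hA : Poly A) (hk : Poly k) (hs : Poly s) :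
    Poly (fun x => stp (A x) (k x) (s x)) := by
  refine Poly.map (F := fun x a => (((s x).getD a (0, 0)).1 + (con1 (A x) (s x) a).sum,
    ((s x).getD a (0, 0)).2 + (con2 (A x) (k x) (s x) a).sum)) (u_nn hA).range ?_
  have h1 : Poly (fun p : α × ℕ => (s p.1).getD p.2 (0, 0)) :=
    Poly.getD (hs.comp (Poly.fst Poly.id)) (Poly.snd Poly.id) (Poly.const (0, 0))
  exact Poly.pair (Poly.add (Poly.fst h1) (Poly.sum (p_con1 (hA.comp (Poly.fst Poly.id))
      (hs.comp (Poly.fst Poly.id)) (Poly.snd Poly.id))))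
    (Poly.add (Poly.snd h1) (Poly.sum (p_con2 (hA.comp (Poly.fst Poly.id))
      (hk.comp (Poly.fst Poly.id)) (hs.comp (Poly.fst Poly.id)) (Poly.snd Poly.id))))

lemma p_ini {A : α → Inp} (hA : Poly A) : Poly (fun x => ini (A x)) := by
  refine Poly.map (F := fun _ (a : ℕ) => ((if a = 0 then 1 else 0 : ℕ), (0 : ℕ)))
    (u_nn hA).range ?_
  exact Poly.pair (Poly.ite (Poly.decide_eq (Poly.snd Poly.id) (Poly.const 0)) (Poly.const 1)
    (Poly.const 0)) (Poly.const 0)

end

/-! ### sizes -/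

lemma sum_le_const (l : List ℕ) (B : ℕ) (h : ∀ x ∈ l, x ≤ B) : l.sum ≤ l.length * B := by
  induction l with
  | nil => simp
  | cons a l ih =>
    have h1 := ih fun x hx => h x (List.mem_cons_of_mem _ hx)
    have h2 := h a (by simp)
    simp only [List.sum_cons, List.length_cons]
    nlinarith

lemma getD_le {s : St} {B : ℕ} (h : ∀ p ∈ s, p.1 ≤ B ∧ p.2 ≤ B) (b : ℕ) :
    (s.getD b (0, 0)).1 ≤ B ∧ (s.getD b (0, 0)).2 ≤ B := by
  rw [List.getD_eq_getElem?_getD]
  by_cases hb : b < s.length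
  · rw [List.getElem?_eq_getElem hb]
    exact h _ (List.getElem_mem hb)
  · rw [List.getElem?_eq_none (by omega)]
    simp

lemma con_length {f : ℕ → ℕ → ℕ} {m n : ℕ} :
    ((List.range m).flatMap fun k' => (List.range n).map (f k')).length = m * n := by
  simp [List.length_flatMap]

lemma stp_bound {A : Inp} {k : ℕ} {s : St} {B : ℕ} (h : ∀ p ∈ s, p.1 ≤ B ∧ p.2 ≤ B) :
    ∀ p ∈ stp A k s, p.1 ≤ (1 + 2 * (mm A * nn A)) * B ∧ p.2 ≤ (1 + 2 * (mm A * nn A)) * B := by
  intro p hp
  unfold stp at hp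
  obtain ⟨a, _, rfl⟩ := List.mem_map.1 hp
  have h0 := getD_le h a
  have h1 : (con1 A s a).sum ≤ (mm A * nn A) * B := by
    have e : (con1 A s a).length = mm A * nn A := con_length
    rw [← e]
    refine sum_le_const _ _ fun x hx => ?_
    unfold con1 at hx
    obtain ⟨k', _, hx⟩ := List.mem_flatMap.1 hx
    obtain ⟨b, _, rfl⟩ := List.mem_map.1 hx
    split_ifs
    · exact (getD_le h b).1
    · exact Nat.zero_le _
  have h2 : (con2 A k s a).sum ≤ (mm A * nn A) * (2 * B) := by
    have e : (con2 A k s a).length = mm A * nn A := con_length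
    rw [← e]
    refine sum_le_const _ _ fun x hx => ?_
    unfold con2 at hx
    obtain ⟨k', _, hx⟩ := List.mem_flatMap.1 hx
    obtain ⟨b, _, rfl⟩ := List.mem_map.1 hx
    have h3 := getD_le h b
    split_ifs
    · omega
    · omega
    · omega
  constructor
  · nlinarith [h0.1, Nat.zero_le (mm A * nn A * B)]
  · nlinarith [h0.2, Nat.zero_le (mm A * nn A * B)]

lemma iter_bound (A : Inp) (k : ℕ) (t : ℕ) :
    ∀ p ∈ (stp A k)^[t] (ini A), p.1 ≤ (1 + 2 * (mm A * nn A)) ^ t ∧
      p.2 ≤ (1 + 2 * (mm A * nn A)) ^ t := by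
  induction t with
  | zero =>
    intro p hp
    change p ∈ ini A at hp
    unfold ini at hp
    obtain ⟨a, _, rfl⟩ := List.mem_map.1 hp
    rw [pow_zero]
    constructor
    · split_ifs <;> simp
    · simp
  | succ t ih =>
    rw [Function.iterate_succ_apply', pow_succ']
    exact stp_bound ih

lemma iter_length (A : Inp) (k : ℕ) (t : ℕ) : ((stp A k)^[t] (ini A)).length = nn A := by
  cases t with
  | zero => simp [ini]
  | succ t => rw [Function.iterate_succ_apply']; simp [stp]

lemma nn_le (A : Inp) : nn A ≤ sz A := by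
  unfold nn
  rw [List.getD_eq_getElem?_getD]
  cases A with
  | nil => simp
  | cons M A =>
    simp only [List.getElem?_cons_zero, Option.getD_some, sz_list_cons]
    have := length_lt_sz M
    omega

lemma mm_le (A : Inp) : mm A ≤ sz A := (length_lt_sz A).le

lemma iter_sz (A : Inp) (k : ℕ) (t : ℕ) (ht : t ≤ 2 * nn A) :
    sz ((stp A k)^[t] (ini A)) ≤
      sz A * (2 * (4 * (2 * sz A * (1 + 2 * (sz A * sz A)) + 1) + 1) + 2) + 1 := by
  have h1 := iter_bound A k t
  have h2 := iter_length A k t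
  have hn := nn_le A
  have hm := mm_le A
  have h3 : ∀ x : ℕ, x ≤ (1 + 2 * (mm A * nn A)) ^ t →
      sz x ≤ 4 * (2 * sz A * (1 + 2 * (sz A * sz A)) + 1) + 1 := by
    intro x hx
    refine (sz_nat_le x).trans ?_
    have h4 : x < 2 ^ (2 * sz A * (1 + 2 * (sz A * sz A)) + 1) := by
      have h5 : 1 + 2 * (mm A * nn A) ≤ 1 + 2 * (sz A * sz A) := by
        have := Nat.mul_le_mul hm hn
        omega
      calc x ≤ (1 + 2 * (mm A * nn A)) ^ t := hx
        _ ≤ (1 + 2 * (sz A * sz A)) ^ t := Nat.pow_le_pow_left h5 _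
        _ ≤ (2 ^ (1 + 2 * (sz A * sz A))) ^ t :=
            Nat.pow_le_pow_left Nat.lt_two_pow_self.le _
        _ = 2 ^ ((1 + 2 * (sz A * sz A)) * t) := by rw [← pow_mul]
        _ ≤ 2 ^ (2 * sz A * (1 + 2 * (sz A * sz A))) := by
            apply Nat.pow_le_pow_right (by norm_num)
            rw [mul_comm]
            exact Nat.mul_le_mul (by omega) le_rfl
        _ < _ := Nat.pow_lt_pow_right (by norm_num) (by omega)
    have h5 := Nat.size_le.2 h4
    omega
  have h4 := sz_le_length_mul ((stp A k)^[t] (ini A))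
    (2 * (4 * (2 * sz A * (1 + 2 * (sz A * sz A)) + 1) + 1) + 1) (by
      rintro ⟨x, y⟩ hp
      obtain ⟨hx, hy⟩ := h1 _ hp
      have := h3 x hx
      have := h3 y hy
      rw [sz_pair]
      omega)
  refine h4.trans ?_
  rw [h2]
  exact Nat.add_le_add_right (Nat.mul_le_mul hn le_rfl) 1

lemma p_pow2 {α : Type} [TEnc α] {u : α → ℕ} (hu : UPoly u) : Poly (fun x => 2 ^ (u x)) := by
  have h1 : Poly (fun x => List.replicate (u x) false ++ [true]) := by
    refine Poly.append ?_ (Poly.const [true])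
    exact (Poly.map (F := fun _ _ => false) hu (Poly.const false)).congr fun x => by simp
  refine (Poly.valBits h1).congr fun x => ?_
  rw [valB_replicate_false]
  simp

lemma p_fnl : Poly (fun p : Inp × ℕ => fnl p.1 p.2) := by
  unfold fnl
  refine Poly.snd (Poly.getD ?_ (Poly.const 0) (Poly.const (0, 0)))
  have hlen : Poly (fun p : Inp × ℕ => List.replicate (2 * nn p.1) ()) :=
    UPoly.mul (UPoly.const 2) (u_nn (Poly.fst Poly.id))
  refine (Poly.iterLen (s := fun p : Inp × ℕ => ini p.1) (F := fun p s => stp p.1 p.2 s) hlen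
    (p_ini (Poly.fst Poly.id))
    (p_stp (Poly.fst (Poly.fst Poly.id)) (Poly.snd (Poly.fst Poly.id)) (Poly.snd Poly.id))
    (Polynomial.X * (Polynomial.C 2 * (Polynomial.C 4 * (Polynomial.C 2 * Polynomial.X *
      (1 + Polynomial.C 2 * (Polynomial.X * Polynomial.X)) + 1) + 1) + Polynomial.C 2) + 1)
    ?_).congr fun p => ?_
  · rintro ⟨A, k⟩ t ht
    rw [List.length_replicate] at ht
    refine (iter_sz A k t ht).trans ?_
    have h1 : sz A ≤ sz (A, k) := by rw [sz_pair]; omega
    have h2 : sz A * sz A ≤ sz (A, k) * sz (A, k) := Nat.mul_le_mul h1 h1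
    simp only [Polynomial.eval_add, Polynomial.eval_mul, Polynomial.eval_C, Polynomial.eval_X,
      Polynomial.eval_one]
    gcongr
  · rw [List.length_replicate]

theorem poly_out : Poly out := by
  have hn := u_nn (α := Inp) Poly.id
  have hm := u_mm (α := Inp) Poly.id
  refine Poly.map (F := fun A k => 2 ^ (20 * (nn A + mm A + 1) ^ 2) * fnl A k)
    (UPoly.range hm) ?_
  refine Poly.mul ?_ p_fnl
  refine p_pow2 ?_
  have h1 : UPoly (fun p : Inp × ℕ => nn p.1 + mm p.1 + 1) :=
    UPoly.add (UPoly.add (u_nn (Poly.fst Poly.id)) (u_mm (Poly.fst Poly.id))) (UPoly.const 1)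
  have h2 : UPoly (fun p : Inp × ℕ => 20 * ((nn p.1 + mm p.1 + 1) * (nn p.1 + mm p.1 + 1))) :=
    UPoly.mul (UPoly.const 20) (UPoly.mul h1 h1)
  have e : (fun p : Inp × ℕ => 20 * (nn p.1 + mm p.1 + 1) ^ 2) =
      fun p : Inp × ℕ => 20 * ((nn p.1 + mm p.1 + 1) * (nn p.1 + mm p.1 + 1)) := by
    funext p; rw [sq]
  rw [e]
  exact h2

end Pool.Agent.NPC.Hurw
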