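import Pool.Agent.R580.Hurwitz4

set_option autoImplicit false

/-! Helper file for MP_9c2350_lc: correctness of the algorithm. -/

namespace Pool.Agent.NPC.Hurw

open Finset Pool.Agent.R580.Hurwitz

/-! ### the bound -/

lemma pw_mono {a x y : ℕ} (h : a ≤ 2 ^ x) (hxy : x ≤ y) : a ≤ 2 ^ y :=
  h.trans (Nat.pow_le_pow_right (by norm_num) hxy)

lemma pw_mul {a b x y : ℕ} (h : a ≤ 2 ^ x) (h' : b ≤ 2 ^ y) : a * b ≤ 2 ^ (x + y) := by
  rw [pow_add]; exact Nat.mul_le_mul h h'

lemma pw_add {a b x : ℕ} (h : a ≤ 2 ^ x) (h' : b ≤ 2 ^ x) : a + b ≤ 2 ^ (x + 1) := by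
  rw [pow_succ]; omega

lemma pw_pow {a x k : ℕ} (h : a ≤ 2 ^ x) : a ^ k ≤ 2 ^ (x * k) := by
  rw [pow_mul]; exact Nat.pow_le_pow_left h k

lemma bb_nat (n m : ℕ) :
    m.factorial * (2 * n) ^ m + m * (m * ((2 * n + ((1 + m * n) ^ (2 * n) + m) *
      (m.factorial * (2 * n) ^ m * (2 * n))) * (m.factorial * (2 * n) ^ m))) ≤
      2 ^ (20 * (n + m + 1) ^ 2) := by
  set s := n + m + 1 with hs
  have hs1 : 1 ≤ s := by omega
  have h2n : 2 * n ≤ 2 ^ s := by
    have h1 : n < 2 ^ n := Nat.lt_two_pow_self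
    have h2 : 2 * n ≤ 2 ^ (n + 1) := by rw [pow_succ]; omega
    exact pw_mono h2 (by omega)
  have hm : m ≤ 2 ^ s := pw_mono Nat.lt_two_pow_self.le (by omega)
  have hf : m.factorial ≤ 2 ^ (s * s) :=
    (Nat.factorial_le_pow m).trans (pw_mono (pw_pow hm) (Nat.mul_le_mul le_rfl (by omega)))
  have hp : (2 * n) ^ m ≤ 2 ^ (s * s) := pw_mono (pw_pow h2n) (Nat.mul_le_mul le_rfl (by omega))
  have hD : m.factorial * (2 * n) ^ m ≤ 2 ^ (s * s + s * s) := pw_mul hf hp
  have h1mn : 1 + m * n ≤ 2 ^ s := by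
    have h1 : m < 2 ^ m := Nat.lt_two_pow_self
    have h2 : n < 2 ^ n := Nat.lt_two_pow_self
    have h3 : m * n ≤ 2 ^ (m + n) := pw_mul h1.le h2.le
    have h4 : 1 ≤ 2 ^ (m + n) := Nat.one_le_two_pow
    have := pw_add h4 h3
    rwa [show m + n + 1 = s by omega] at this
  have hI : (1 + m * n) ^ (2 * n) ≤ 2 ^ (s * s + s * s) := by
    refine pw_mono (pw_pow h1mn) ?_
    have : 2 * n ≤ s + s := by omega
    calc s * (2 * n) ≤ s * (s + s) := Nat.mul_le_mul le_rfl this
      _ = s * s + s * s := by ring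
  have hss : s ≤ s * s := Nat.le_mul_of_pos_left s (by omega)
  have hI2 : (1 + m * n) ^ (2 * n) + m ≤ 2 ^ (s * s + s * s + 1) :=
    pw_add hI (pw_mono hm (by omega))
  have hD2 : m.factorial * (2 * n) ^ m * (2 * n) ≤ 2 ^ (s * s + s * s + s) := pw_mul hD h2n
  have h3 := pw_mul hI2 hD2
  have h4 : 2 * n + ((1 + m * n) ^ (2 * n) + m) * (m.factorial * (2 * n) ^ m * (2 * n)) ≤
      2 ^ (s * s + s * s + 1 + (s * s + s * s + s) + 1) := pw_add (pw_mono h2n (by omega)) h3
  have h5 := pw_mul hm (pw_mul hm (pw_mul h4 hD))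
  have h6 := pw_add (pw_mono hD (by omega)) h5
  refine pw_mono h6 ?_
  have : 20 * s ^ 2 = 20 * (s * s) := by ring
  rw [this]
  omega

lemma bb_le (n m : ℕ) : BB n m ≤ ((2 ^ (20 * (n + m + 1) ^ 2) : ℕ) : ℤ) := by
  have h : BB n m = ((m.factorial * (2 * n) ^ m + m * (m * ((2 * n + ((1 + m * n) ^ (2 * n) + m) *
      (m.factorial * (2 * n) ^ m * (2 * n))) * (m.factorial * (2 * n) ^ m))) : ℕ) : ℤ) := by
    unfold BB Dl
    push_cast
    ring
  rw [h]
  exact_mod_cast bb_nat n m

/-! ### the code of a family of matrices -/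

/-- numerators and denominators of all entries -/
def rawc {n m : ℕ} (A : Fin m → Matrix (Fin n) (Fin n) ℚ) : Inp :=
  List.ofFn fun k => List.ofFn fun i => List.ofFn fun j => ((A k i j).num, (A k i j).den)

/-- the family as a list of lists of rows -/
def code {n m : ℕ} (A : Fin m → Matrix (Fin n) (Fin n) ℚ) : List (List (List ℚ)) :=
  List.ofFn fun k => List.ofFn fun i => List.ofFn fun j => A k i j

lemma toT_ofFn {α : Type} [TEnc α] {k : ℕ} (f : Fin k → α) :
    toT (List.ofFn f) = T.ofList (List.ofFn fun i => toT (f i)) := by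
  change T.ofList ((List.ofFn f).map toT) = _
  rw [List.map_ofFn]
  rfl

lemma bits_code {n m : ℕ} (A : Fin m → Matrix (Fin n) (Fin n) ℚ) :
    bits (code A) = bits (rawc A) := by
  unfold bits code rawc
  simp only [toT_ofFn]
  rfl

section

variable {n m : ℕ} (A : Fin m → Matrix (Fin n) (Fin n) ℚ)

lemma mm_rawc : mm (rawc A) = m := by simp [mm, rawc]

lemma nn_rawc (hm : 0 < m) : nn (rawc A) = n := by
  unfold nn rawc
  rw [List.getD_eq_getElem?_getD, List.getElem?_ofFn]
  simp [hm]

omit A in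
lemma getD_ofFn {β : Type} {k : ℕ} (f : Fin k → β) (d : β) (a : Fin k) :
    (List.ofFn f).getD a d = f a := by
  rw [List.getD_eq_getElem?_getD, List.getElem?_ofFn]
  simp

lemma ent_rawc (hA : ∀ k i j, 0 ≤ A k i j) (k : Fin m) (a b : Fin n) :
    ent (rawc A) k a b = true ↔ 0 < A k a b := by
  unfold ent rawc
  rw [getD_ofFn, getD_ofFn, getD_ofFn]
  rw [Bool.not_eq_true', decide_eq_false_iff_not, Rat.num_eq_zero]
  exact ⟨fun h => lt_of_le_of_ne (hA k a b) (Ne.symm h), fun h => h.ne'⟩

lemma sum_range_map (f : ℕ → ℕ) (k : ℕ) :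
    ((List.range k).map f).sum = ∑ i : Fin k, f i := by
  rw [← Finset.sum_range]
  induction k with
  | zero => simp
  | succ k ih => rw [List.range_succ, List.map_append, List.sum_append, ih, Finset.sum_range_succ]; simp

lemma getD_map_range {β : Type} (f : ℕ → β) (k : ℕ) (d : β) (a : Fin k) :
    ((List.range k).map f).getD a d = f a := by
  rw [List.getD_eq_getElem?_getD, List.getElem?_map, List.getElem?_range a.2]
  rfl

lemma sum_con {f : ℕ → ℕ → ℕ} {p q : ℕ} :
    ((List.range p).flatMap fun k' => (List.range q).map (f k')).sum =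
      ∑ k : Fin p, ∑ b : Fin q, f k b := by
  have h := sum_flatMap_eq (List.range p) (fun k' => (List.range q).map (f k')) (fun x => x)
  simp only [List.map_id'] at h
  rw [h, sum_range_map]
  exact Finset.sum_congr rfl fun k _ => sum_range_map _ _

theorem iter_rawc [∀ k a b, Decidable (0 < A k a b)] (hA : ∀ k i j, 0 ≤ A k i j)
    (hm : 0 < m) (hn : 0 < n) (k : Fin m)
    (t : ℕ) : ∀ a : Fin n, ((stp (rawc A) k)^[t] (ini (rawc A))).getD a (0, 0) =
      (cn (fun k a b => 0 < A k a b) ⟨0, hn⟩ t a, dn (fun k a b => 0 < A k a b) ⟨0, hn⟩ k t a) := by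
  induction t with
  | zero =>
    intro a
    change (ini (rawc A)).getD a (0, 0) = _
    unfold ini
    rw [nn_rawc A hm, getD_map_range, cn, dn]
    congr 1
    by_cases h : (a : ℕ) = 0
    · rw [if_pos h, if_pos (Fin.ext h)]
    · rw [if_neg h, if_neg (fun h' => h (congrArg Fin.val h'))]
  | succ t ih =>
    intro a
    rw [Function.iterate_succ_apply']
    set s := (stp (rawc A) k)^[t] (ini (rawc A)) with hs
    unfold stp
    rw [nn_rawc A hm, getD_map_range, cn, dn, ih a]
    congr 1
    · congr 1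
      unfold con1
      rw [nn_rawc A hm, mm_rawc, sum_con]
      refine Finset.sum_congr rfl fun k' _ => Finset.sum_congr rfl fun b _ => ?_
      rw [ih b]
      by_cases h : 0 < A k' a b
      · rw [if_pos h, if_pos ((ent_rawc A hA k' a b).2 h)]
      · rw [if_neg h, if_neg (fun h' => h ((ent_rawc A hA k' a b).1 h'))]
    · congr 1
      unfold con2
      rw [nn_rawc A hm, mm_rawc, sum_con]
      refine Finset.sum_congr rfl fun k' _ => Finset.sum_congr rfl fun b _ => ?_
      rw [ih b]
      by_cases h : 0 < A k' a b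
      · rw [if_pos h, if_pos ((ent_rawc A hA k' a b).2 h)]
        congr 1
        by_cases h2 : k' = k
        · rw [if_pos h2, if_pos (congrArg Fin.val h2)]
        · rw [if_neg h2, if_neg (fun h' => h2 (Fin.ext h'))]
      · rw [if_neg h, if_neg (fun h' => h ((ent_rawc A hA k' a b).1 h'))]

theorem out_rawc [∀ k a b, Decidable (0 < A k a b)] (hA : ∀ k i j, 0 ≤ A k i j)
    (hm : 0 < m) (hn : 0 < n) :
    out (rawc A) = List.ofFn fun k : Fin m => 2 ^ (20 * (n + m + 1) ^ 2) *
      dn (fun k a b => 0 < A k a b) ⟨0, hn⟩ k (2 * n) ⟨0, hn⟩ := by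
  unfold out
  rw [mm_rawc, nn_rawc A hm]
  have h1 : (List.range m).map (fun k => 2 ^ (20 * (n + m + 1) ^ 2) * fnl (rawc A) k) =
      List.ofFn fun k : Fin m => 2 ^ (20 * (n + m + 1) ^ 2) * fnl (rawc A) k := by
    rw [List.ofFn_eq_map, ← List.map_coe_finRange_eq_range, List.map_map]
    rfl
  rw [h1]
  congr 1
  funext k
  congr 1
  have h2 := iter_rawc A hA hm hn k (2 * n) ⟨0, hn⟩
  unfold fnl
  rw [nn_rawc A hm]
  have h3 := congrArg Prod.snd h2
  exact h3

end

/-! ### Hurwitz products -/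

/-- The Hurwitz product `A^α`: the sum of the products `A (d 0) * A (d 1) * ⋯ * A (d (|α| - 1))` in
which, for each `i`, exactly `α i` of the factors are `A i`. -/
noncomputable def hurwitz {n m : ℕ} (A : Fin m → Matrix (Fin n) (Fin n) ℚ) (α : Fin m → ℕ) :
    Matrix (Fin n) (Fin n) ℚ :=
  ∑ d : Fin (∑ i, α i) → Fin m with (∀ i, (List.ofFn d).count i = α i),
    (List.ofFn fun t => A (d t)).prod

section

variable {n m : ℕ} {A : Fin m → Matrix (Fin n) (Fin n) ℚ}

lemma prod_nonneg' (hA : ∀ k i j, 0 ≤ A k i j) : ∀ (l : List (Fin m)) (i j : Fin n),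
    0 ≤ (l.map A).prod i j := by
  intro l
  induction l with
  | nil =>
    intro i j
    rw [List.map_nil, List.prod_nil, Matrix.one_apply]
    split_ifs <;> norm_num
  | cons k l ih =>
    intro i j
    rw [List.map_cons, List.prod_cons, Matrix.mul_apply]
    exact Finset.sum_nonneg fun a _ => mul_nonneg (hA k i a) (ih a j)

lemma prod_pos_iff (hA : ∀ k i j, 0 ≤ A k i j) : ∀ (l : List (Fin m)) (i j : Fin n),
    0 < (l.map A).prod i j ↔ Walk (fun k a b => 0 < A k a b) l i j := by
  intro l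
  induction l with
  | nil =>
    intro i j
    rw [List.map_nil, List.prod_nil, Matrix.one_apply]
    constructor
    · intro h
      by_contra hij
      have : ¬ i = j := hij
      rw [if_neg this] at h
      exact lt_irrefl _ h
    · intro h
      have : i = j := h
      rw [if_pos this]; norm_num
  | cons k l ih =>
    intro i j
    rw [List.map_cons, List.prod_cons, Matrix.mul_apply]
    constructor
    · intro h
      obtain ⟨a, _, ha⟩ := Finset.exists_lt_of_sum_lt (s := univ) (f := fun _ => (0 : ℚ))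
        (g := fun a => A k i a * (l.map A).prod a j) (by simpa using h)
      have h1 : 0 < A k i a := by
        rcases (hA k i a).lt_or_eq with h2 | h2
        · exact h2
        · rw [← h2, zero_mul] at ha
          exact absurd ha (lt_irrefl _)
      have h2 : 0 < (l.map A).prod a j := by
        rcases (prod_nonneg' hA l a j).lt_or_eq with h2 | h2
        · exact h2
        · rw [← h2, mul_zero] at ha
          exact absurd ha (lt_irrefl _)
      exact ⟨a, h1, (ih a j).1 h2⟩
    · rintro ⟨a, h1, h2⟩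
      have h3 := mul_pos h1 ((ih a j).2 h2)
      refine h3.trans_le ?_
      exact Finset.single_le_sum (f := fun a => A k i a * (l.map A).prod a j)
        (fun a _ => mul_nonneg (hA k i a) (prod_nonneg' hA l a j)) (mem_univ a)

lemma length_eq_sum_count (l : List (Fin m)) : l.length = ∑ i, l.count i := by
  induction l with
  | nil => simp
  | cons k l ih =>
    rw [List.length_cons, ih]
    simp only [List.count_cons, sum_add_distrib]
    congr 1
    rw [Finset.sum_eq_single k]
    · simp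
    · intro b _ hb
      have : ¬ (k == b) = true := by simpa using hb.symm
      simp [this]
    · simp

theorem hurwitz_pos_iff (hA : ∀ k i j, 0 ≤ A k i j) (α : Fin m → ℕ) (i j : Fin n) :
    0 < hurwitz A α i j ↔ Reach (fun k a b => 0 < A k a b) i j α := by
  unfold hurwitz
  rw [Matrix.sum_apply]
  have hmap : ∀ d : Fin (∑ i, α i) → Fin m, (List.ofFn fun t => A (d t)) = (List.ofFn d).map A := by
    intro d
    rw [List.map_ofFn]
    rfl
  constructor
  · intro h
    obtain ⟨d, hd, hd'⟩ := Finset.exists_lt_of_sum_lt (f := fun _ => (0 : ℚ))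
      (g := fun d : Fin (∑ i, α i) → Fin m => (List.ofFn fun t => A (d t)).prod i j)
      (by simpa using h)
    rw [mem_filter] at hd
    rw [hmap] at hd'
    exact ⟨List.ofFn d, hd.2, (prod_pos_iff hA _ i j).1 hd'⟩
  · rintro ⟨l, hl, hw⟩
    have hlen : l.length = ∑ i, α i := by
      rw [length_eq_sum_count]
      exact Finset.sum_congr rfl fun i _ => hl i
    obtain ⟨d, hd⟩ : ∃ d : Fin (∑ i, α i) → Fin m, List.ofFn d = l := by
      rw [← hlen]
      exact ⟨l.get, List.ofFn_get l⟩
    have h1 := (prod_pos_iff hA l i j).2 hw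
    rw [← hd, ← hmap] at h1
    refine h1.trans_le ?_
    refine Finset.single_le_sum
      (f := fun d : Fin (∑ i, α i) → Fin m => (List.ofFn fun t => A (d t)).prod i j)
      (fun d _ => ?_) (mem_filter.2 ⟨mem_univ _, fun i => by rw [hd, hl i]⟩)
    rw [hmap]
    exact prod_nonneg' hA _ i j

end

end Pool.Agent.NPC.Hurw
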