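import Mathlib
import Pool.Agent.R580.CCDefs

set_option autoImplicit false

/-!
# The Levy collapse of `κ` to `ω₁` and closed copies of `ω₁`

The colour of an element of a well-ordered set `K` depends on the cofinality of the element in
the ground model only. After the Levy collapse of a weakly inaccessible cardinal every closed copy
of `ω₁` has elements of all ground model cofinalities below `κ`.
-/

universe u v

namespace Pool.Agent.R580.LevyCollapse

open Cardinal Set Pool.Agent.Helper669.Forcing Pool.Agent.R580.CCDefs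

/-- A condition of the Levy collapse is a function which is defined on finitely many pairs
`(a, n)` with `a < κ` and sends each of them to some `b ≤ a`. -/
structure Levy (κ : Cardinal.{u}) where
  val : κ.ord.ToType → ℕ → Option κ.ord.ToType
  le : ∀ a n b, val a n = some b → b ≤ a
  fin : {e : κ.ord.ToType × ℕ | val e.1 e.2 ≠ none}.Finite

/-- stronger conditions extend weaker ones -/
instance (κ : Cardinal.{u}) : Preorder (Levy κ) where
  le q p := ∀ a n b, p.val a n = some b → q.val a n = some b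
  le_refl _ _ _ _ h := h
  le_trans _ _ _ h1 h2 a n b h := h1 a n b (h2 a n b h)

variable {κ : Cardinal.{u}}

theorem bound (hκ : κ.IsRegular) {s : Set κ.ord.ToType} (hs : #s < κ) : ∃ b, ∀ i ∈ s, i < b := by
  apply not_isCofinal_iff.1
  intro h
  have h1 := Order.cof_le h
  rw [Ordinal.cof_toType, hκ.cof_ord] at h1
  exact absurd hs (not_lt.2 h1)

theorem bound' (hκ : κ.IsRegular) {ι : Type u} (f : ι → κ.ord.ToType) (hι : #ι < κ) :
    ∃ b, ∀ i, f i < b := by
  obtain ⟨b, hb⟩ := bound hκ (s := range f) (mk_range_le.trans_lt hι)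
  exact ⟨b, fun i => hb _ ⟨i, rfl⟩⟩

/-- the conditions with support below `α` -/
def Below (α : κ.ord.ToType) : Set (Levy κ) := {p | ∀ a n, p.val a n ≠ none → a < α}

open Classical in
/-- the restriction of a condition -/
noncomputable def res (p : Levy κ) (α : κ.ord.ToType) : Levy κ where
  val a n := if a < α then p.val a n else none
  le a n b h := by
    split_ifs at h
    exact p.le a n b h
  fin := p.fin.subset fun e h => by
    simp only [mem_ofPred_eq] at h ⊢
    split_ifs at h with h1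
    · exact h
    · exact absurd rfl h

theorem res_mem (p : Levy κ) (α : κ.ord.ToType) : res p α ∈ Below α := by
  intro a n h
  simp only [res] at h
  split_ifs at h with h1
  · exact h1
  · exact absurd rfl h

/-- the union of two conditions, with priority for the first -/
def glue (d r : Levy κ) : Levy κ where
  val a n := (d.val a n).orElse fun _ => r.val a n
  le a n b h := by
    cases h1 : d.val a n with
    | none =>
      rw [h1] at h
      exact r.le a n b h
    | some c =>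
      rw [h1] at h
      rw [Option.some.inj h.symm]
      exact d.le a n c h1
  fin := (d.fin.union r.fin).subset fun e h => by
    simp only [mem_ofPred_eq, mem_union] at h ⊢
    cases h1 : d.val e.1 e.2 with
    | none =>
      rw [h1] at h
      exact Or.inr h
    | some c => exact Or.inl (by simp)

theorem compat {d r : Levy κ} {α : κ.ord.ToType} (hd : d ∈ Below α) (h : d ≤ res r α) :
    ∃ s, s ≤ d ∧ s ≤ r := by
  refine ⟨glue d r, fun a n b h1 => ?_, fun a n b h1 => ?_⟩
  · show (d.val a n).orElse _ = _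
    rw [h1]
    rfl
  · show (d.val a n).orElse _ = _
    by_cases ha : a < α
    · have h2 : d.val a n = some b := h a n b (by simp [res, ha, h1])
      rw [h2]
      rfl
    · have h2 : d.val a n = none := by
        by_contra h3
        exact ha (hd a n h3)
      rw [h2]
      exact h1

theorem mk_Iio_lt' (α : κ.ord.ToType) : #(Iio α) < κ := by
  have h := Cardinal.mk_Iio_lt α (by simp)
  rwa [mk_ord_toType] at h

theorem mk_Below (h0 : ℵ₀ < κ) (α : κ.ord.ToType) : #(Below (κ := κ) α) < κ := by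
  classical
  let X := Iio α × ULift.{u} ℕ × Iio α
  have hX : #X < κ := by
    simp only [X, mk_prod, Cardinal.lift_id, mk_uLift, mk_nat, lift_aleph0]
    exact mul_lt_of_lt h0.le (mk_Iio_lt' α) (mul_lt_of_lt h0.le h0 (mk_Iio_lt' α))
  have hfin : ∀ p : Below (κ := κ) α,
      {x : X | p.1.val x.1 x.2.1.down = some x.2.2.1}.Finite := by
    intro p
    refine Set.Finite.of_finite_image (f := fun x : X => ((x.1 : κ.ord.ToType), x.2.1.down))
      (p.1.fin.subset ?_) ?_
    · rintro _ ⟨x, hx, rfl⟩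
      simp only [mem_ofPred_eq] at hx ⊢
      rw [hx]
      simp
    · intro x hx y hy h
      simp only [mem_ofPred_eq] at hx hy
      simp only [Prod.mk.injEq] at h
      rw [h.1, h.2] at hx
      rw [hx] at hy
      refine Prod.ext (Subtype.ext h.1) (Prod.ext (ULift.ext _ _ h.2) (Subtype.ext ?_))
      exact Option.some.inj hy
  have hinj : Function.Injective fun p : Below (κ := κ) α => (hfin p).toFinset.toList := by
    intro p q h
    have h1 : (hfin p).toFinset = (hfin q).toFinset := by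
      rw [← Finset.toList_toFinset (hfin p).toFinset, ← Finset.toList_toFinset (hfin q).toFinset]
      exact congrArg _ h
    have h2 := Set.Finite.toFinset_inj.1 h1
    have key : ∀ p q : Below (κ := κ) α, {x : X | p.1.val x.1 x.2.1.down = some x.2.2.1} =
        {x : X | q.1.val x.1 x.2.1.down = some x.2.2.1} → ∀ a n b, p.1.val a n = some b →
        q.1.val a n = some b := by
      intro p q h a n b hb
      have ha : a < α := p.2 a n (by rw [hb]; simp)
      have hb' : b < α := (p.1.le a n b hb).trans_lt ha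
      have h3 : ((⟨a, ha⟩, ⟨n⟩, ⟨b, hb'⟩) : X) ∈
          {x : X | p.1.val x.1 x.2.1.down = some x.2.2.1} := hb
      rw [h] at h3
      exact h3
    apply Subtype.ext
    have h4 : p.1.val = q.1.val := by
      funext a n
      cases h5 : p.1.val a n with
      | some b => exact (key p q h2 a n b h5).symm
      | none =>
        cases h6 : q.1.val a n with
        | none => rfl
        | some b =>
          rw [key q p h2.symm a n b h6] at h5
          simp at h5
    cases hp : p.1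
    cases hq : q.1
    simp only [hp, hq] at h4
    subst h4
    rfl
  calc #(Below (κ := κ) α) ≤ #(List X) := mk_le_of_injective hinj
    _ ≤ max ℵ₀ #X := mk_list_le_max X
    _ < κ := max_lt h0 hX

theorem exists_below (hκ : κ.IsRegular) (p : Levy κ) : ∃ b, p ∈ Below b := by
  obtain ⟨b, hb⟩ := bound hκ (s := (fun e : κ.ord.ToType × ℕ => e.1) ''
    {e : κ.ord.ToType × ℕ | p.val e.1 e.2 ≠ none})
    ((Cardinal.lt_aleph0_iff_set_finite.2 (p.fin.image _)).trans_le hκ.aleph0_le)
  exact ⟨b, fun a n h => hb a ⟨(a, n), h, rfl⟩⟩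

theorem Below_mono {α β : κ.ord.ToType} (h : α ≤ β) : Below α ⊆ Below β :=
  fun _ hp a n hn => (hp a n hn).trans_le h

/-- the chain condition -/
theorem small_predense (hκ : κ.IsRegular) (h0 : ℵ₀ < κ) (D : Set (Levy κ))
    (hD : ∀ p, ∃ q ≤ p, q ∈ D) :
    ∃ A : Set (Levy κ), A ⊆ D ∧ #A < κ ∧ ∀ r, ∃ d ∈ A, ∃ s, s ≤ d ∧ s ≤ r := by
  classical
  choose ext h1 h2 using hD
  choose b hb using exists_below (κ := κ) hκ
  have hstep : ∀ α : κ.ord.ToType, ∃ β, α < β ∧ ∀ q ∈ Below α, ext q ∈ Below β := by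
    intro α
    obtain ⟨β, hβ⟩ := bound' hκ (fun q : Below (κ := κ) α => b (ext q.1)) (mk_Below h0 α)
    obtain ⟨γ, hγ⟩ := bound hκ (s := {α}) (by
      rw [mk_singleton]
      exact one_lt_aleph0.trans h0)
    refine ⟨max β γ, (hγ α rfl).trans_le (le_max_right _ _), fun q hq => ?_⟩
    exact Below_mono ((hβ ⟨q, hq⟩).le.trans (le_max_left _ _)) (hb _)
  choose f f1 f2 using hstep
  obtain ⟨o, -⟩ := bound hκ (s := (∅ : Set κ.ord.ToType)) (by
    rw [mk_eq_zero]
    exact aleph0_pos.trans h0)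
  let E : ℕ → κ.ord.ToType := fun n => Nat.rec (f o) (fun _ x => f x) n
  have hE : ∀ n, E (n + 1) = f (E n) := fun _ => rfl
  have hmono : Monotone E := monotone_nat_of_le_succ fun n => (f1 (E n)).le
  obtain ⟨c, hc⟩ := bound' hκ (fun n : ULift.{u} ℕ => E n.down) (by
    rw [mk_uLift, mk_nat, lift_aleph0]
    exact h0)
  obtain ⟨δ, hδ1, hδ2⟩ := WellFounded.has_min (wellFounded_lt (α := κ.ord.ToType))
    {d | ∀ n, E n ≤ d} ⟨c, fun n => (hc ⟨n⟩).le⟩
  have hδ : ∀ a < δ, ∃ n, a < E n := by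
    intro a ha
    by_contra hcon
    push Not at hcon
    exact hδ2 a hcon ha
  refine ⟨D ∩ Below δ, inter_subset_left, (mk_le_mk_of_subset inter_subset_right).trans_lt
    (mk_Below h0 δ), fun r => ?_⟩
  have h3 : ∃ n, res r δ ∈ Below (E n) := by
    have h4 : ∀ e : κ.ord.ToType × ℕ, ∃ n, (res r δ).val e.1 e.2 ≠ none → e.1 < E n := by
      intro e
      by_cases h : (res r δ).val e.1 e.2 = none
      · exact ⟨0, fun h' => absurd h h'⟩
      · obtain ⟨n, hn⟩ := hδ e.1 (res_mem r δ e.1 e.2 h)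
        exact ⟨n, fun _ => hn⟩
    choose N hN using h4
    obtain ⟨M, hM⟩ := ((res r δ).fin.image N).bddAbove
    refine ⟨M, fun a n h => (hN (a, n) h).trans_le (hmono (hM ⟨(a, n), h, rfl⟩))⟩
  obtain ⟨n, hn⟩ := h3
  have h5 : ext (res r δ) ∈ Below δ := Below_mono (hδ1 (n + 1)) (f2 _ _ hn)
  exact ⟨ext (res r δ), ⟨h2 _, h5⟩, compat h5 (h1 _)⟩

/-- the number of possible values is less than `κ` -/
theorem values (hκ : κ.IsRegular) (h0 : ℵ₀ < κ) {X : Type v} {Y : Type u}
    {R : X → Y → Set (Levy κ)} {p : Levy κ} (hp : p ∈ IsFun R) (x : X) :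
    #{y | ∃ q ≤ p, q ∈ meets (R x y)} < κ := by
  classical
  obtain ⟨A, hA1, hA2, hA3⟩ := small_predense hκ h0
    {q | (∃ y, q ∈ meets (R x y)) ∨ ∀ s ≤ q, ¬ s ≤ p} (by
      intro r
      by_cases h : ∃ s ≤ r, s ≤ p
      · obtain ⟨s, hs, hsp⟩ := h
        obtain ⟨q, hq, y, hy⟩ := IsFun.total (down_IsFun R p hp s hsp) x
        exact ⟨q, hq.trans hs, Or.inl ⟨y, hy⟩⟩
      · push Not at h
        exact ⟨r, le_rfl, Or.inr h⟩)
  by_cases hY : Nonempty Y
  · obtain ⟨y0⟩ := hY
    refine lt_of_le_of_lt ?_ hA2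
    refine (mk_le_mk_of_subset (t := range fun d : A =>
      if h : ∃ y, d.1 ∈ meets (R x y) then h.choose else y0) ?_).trans mk_range_le
    rintro y ⟨q, hq, hy⟩
    obtain ⟨d, hd, s, hsd, hsq⟩ := hA3 q
    rcases hA1 hd with h | h
    · refine ⟨⟨d, hd⟩, ?_⟩
      simp only [dif_pos h]
      exact IsFun.unique (down_IsFun R p hp s (hsq.trans hq))
        (down_meets _ _ h.choose_spec _ hsd) (down_meets _ _ hy _ hsq)
    · exact absurd (hsq.trans hq) (h s hsd)
  · have : IsEmpty Y := not_nonempty_iff.1 hY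
    rw [mk_eq_zero]
    exact aleph0_pos.trans h0

open Classical in
/-- one more value -/
noncomputable def upd (q : Levy κ) (a : κ.ord.ToType) (n : ℕ) (b : κ.ord.ToType) (hb : b ≤ a) :
    Levy κ where
  val a' n' := if a' = a ∧ n' = n then some b else q.val a' n'
  le a' n' b' h := by
    split_ifs at h with h1
    · rw [h1.1, ← Option.some.inj h]
      exact hb
    · exact q.le a' n' b' h
  fin := (q.fin.union (finite_singleton (a, n))).subset fun e h => by
    simp only [mem_ofPred_eq, mem_union, mem_singleton_iff] at h ⊢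
    split_ifs at h with h1
    · exact Or.inr (Prod.ext h1.1 h1.2)
    · exact Or.inl h

theorem upd_le (q : Levy κ) (a : κ.ord.ToType) (n : ℕ) (b : κ.ord.ToType) (hb : b ≤ a)
    (h : q.val a n = none) : upd q a n b hb ≤ q := by
  classical
  intro a' n' b' h'
  show (if a' = a ∧ n' = n then some b else q.val a' n') = some b'
  rw [if_neg ?_]
  · exact h'
  · rintro ⟨rfl, rfl⟩
    rw [h] at h'
    simp at h'

theorem upd_val (q : Levy κ) (a : κ.ord.ToType) (n : ℕ) (b : κ.ord.ToType) (hb : b ≤ a) :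
    (upd q a n b hb).val a n = some b := by
  classical
  show (if a = a ∧ n = n then some b else q.val a n) = some b
  simp

/-- the generic function from `ℕ` onto the set of all `b ≤ a` -/
def gen (a : κ.ord.ToType) (n : ℕ) (b : κ.ord.ToType) : Set (Levy κ) := {p | p.val a n = some b}

theorem val_of_meets {a b : κ.ord.ToType} {n : ℕ} {p : Levy κ} (h : p ∈ meets (gen a n b)) :
    ∃ q ≤ p, q.val a n = some b := by
  obtain ⟨r, hr, s, hs, hrs⟩ := h p le_rfl
  exact ⟨r, hr, hrs _ _ _ hs⟩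

/-- In the extension `κ` is `ω₁`. -/
theorem isOmegaOne (hκ : κ.IsRegular) (h0 : ℵ₀ < κ) (p : Levy κ) :
    p ∈ IsOmegaOne (Levy κ) κ.ord.ToType := by
  classical
  refine ⟨fun q _ hq => ?_, fun a => ?_⟩
  · obtain ⟨r, _, R, hR1, hR2⟩ := mem_fex.1 hq q le_rfl
    have h1 : #(⋃ n : ULift.{u} ℕ, {y | ∃ s ≤ r, s ∈ meets (R n.down y)} :
        Set κ.ord.ToType) < κ := by
      refine (mk_iUnion_le_sum_mk).trans_lt (sum_lt_of_isRegular hκ ?_ fun n => values hκ h0 hR1 _)
      rw [mk_uLift, mk_nat, lift_aleph0]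
      exact h0
    obtain ⟨b, hb⟩ := bound hκ h1
    obtain ⟨s, hs, n, hn⟩ := mem_fex.1 (hR2 b) r le_rfl
    exact lt_irrefl _ (hb b (mem_iUnion.2 ⟨⟨n⟩, s, hs, hn⟩))
  · refine mem_fex_of_mem (gen a) (down_fand (down_IsFun _) (down_fall fun _ => down_fall fun _ =>
      down_fex _)) ⟨⟨fun n => mem_fex.2 fun q _ => ?_, fun n b b' => mem_fimp.2 fun q _ hq =>
        ⟨q, le_rfl, ?_⟩⟩, fun b hb => mem_fex.2 fun q _ => ?_⟩
    · cases h : q.val a n with
      | some b => exact ⟨q, le_rfl, b, meets_of_mem h⟩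
      | none => exact ⟨upd q a n a le_rfl, upd_le q a n a le_rfl h, a,
          meets_of_mem (upd_val q a n a le_rfl)⟩
    · obtain ⟨r, hr, h1⟩ := val_of_meets hq.1
      obtain ⟨r', hr', h2⟩ := val_of_meets (down_meets _ _ hq.2 r hr)
      have h3 := hr' _ _ _ h1
      rw [h2] at h3
      exact (Option.some.inj h3).symm
    · obtain ⟨N, hN⟩ := (q.fin.image Prod.snd).bddAbove
      have h : q.val a (N + 1) = none := by
        by_contra h
        have : N + 1 ≤ N := hN ⟨(a, N + 1), h, rfl⟩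
        omega
      exact ⟨upd q a (N + 1) b hb.le, upd_le q a (N + 1) b hb.le h, N + 1,
        meets_of_mem (upd_val q a (N + 1) b hb.le)⟩

section

variable {K : Type u} [LinearOrder K] [WellFoundedLT K]

/-- Every closed copy of `ω₁` in the extension has elements of every ground model cofinality
below `κ`. -/
theorem exists_point (hκ : κ.IsRegular) (h0 : ℵ₀ < κ) {F : κ.ord.ToType → K → Set (Levy κ)}
    {p : Levy κ} (hp : p ∈ IsClosedCopy F) {μ : Cardinal.{u}} (hμ : μ.IsRegular) (hμκ : μ < κ) :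
    ∃ q ≤ p, ∃ ξ x, Order.cof (Iio x) = μ ∧ q ∈ meets (F ξ x) := by
  classical
  have htot : ∀ r ≤ p, ∀ ξ, ∃ s ≤ r, ∃ y, s ∈ meets (F ξ y) := fun r hr ξ =>
    IsFun.total (down_IsFun F p hp.1 r hr) ξ
  have hlt : ∀ r ≤ p, ∀ ξ η, ξ < η → ∀ x y, r ∈ meets (F ξ x) → r ∈ meets (F η y) → x < y :=
    fun r hr ξ η h x y hx hy => IsClosedCopy.lt (down_IsClosedCopy F p hp r hr) h hx hy
  -- the set of the elements of `K` below the supremum
  obtain ⟨q, hq, U, hU1, hU2, hU3⟩ : ∃ q ≤ p, ∃ U : Set K,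
      (∀ r ≤ q, ∀ ξ y, r ∈ meets (F ξ y) → y ∈ U) ∧
      (∀ x ∈ U, ∀ r ≤ q, ∃ s ≤ r, ∃ ξ y, x ≤ y ∧ s ∈ meets (F ξ y)) ∧
      (∀ x ∈ U, ∀ y ≤ x, y ∈ U) := by
    let W : Levy κ → Set K := fun q => {x | ∃ r ≤ q, ∃ ξ y, x ≤ y ∧ r ∈ meets (F ξ y)}
    by_cases h : ∃ x, ∃ q ≤ p, x ∉ W q
    · obtain ⟨x0, ⟨q, hq, hx0⟩, hmin⟩ := WellFounded.has_min (wellFounded_lt (α := K))
        {x | ∃ q ≤ p, x ∉ W q} h
      refine ⟨q, hq, Iio x0, ?_, ?_, fun x hx y hy => hy.trans_lt hx⟩
      · intro r hr ξ y hy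
        by_contra hcon
        exact hx0 ⟨r, hr, ξ, y, not_lt.1 hcon, hy⟩
      · intro x hx r hr
        by_contra hcon
        exact hmin x ⟨r, hr.trans hq, hcon⟩ hx
    · push Not at h
      exact ⟨p, le_rfl, univ, fun _ _ _ _ _ => mem_univ _, fun x _ r hr => h x r hr,
        fun _ _ _ _ => mem_univ _⟩
  -- values above `x`
  have hB : ∀ x ∈ U, ∃ ξ, ∀ r ≤ q, ∀ y, r ∈ meets (F ξ y) → x < y := by
    intro x hx
    obtain ⟨A, hA1, hA2, hA3⟩ := small_predense hκ h0
      {s | (∃ ξ y, x ≤ y ∧ s ∈ meets (F ξ y)) ∨ ∀ t ≤ s, ¬ t ≤ q} (by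
        intro r
        by_cases h : ∃ s ≤ r, s ≤ q
        · obtain ⟨s, hs, hsq⟩ := h
          obtain ⟨t, ht, h1⟩ := hU2 x hx s hsq
          exact ⟨t, ht.trans hs, Or.inl h1⟩
        · push Not at h
          exact ⟨r, le_rfl, Or.inr h⟩)
    obtain ⟨o, -⟩ := bound hκ (s := (∅ : Set κ.ord.ToType)) (by
      rw [mk_eq_zero]
      exact aleph0_pos.trans h0)
    obtain ⟨ξ, hξ⟩ := bound' hκ (fun d : A =>
      if h : ∃ ξ y, x ≤ y ∧ d.1 ∈ meets (F ξ y) then h.choose else o) hA2
    refine ⟨ξ, fun r hr y hy => ?_⟩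
    obtain ⟨d, hd, s, hsd, hsr⟩ := hA3 r
    rcases hA1 hd with h | h
    · have h1 := hξ ⟨d, hd⟩
      simp only [dif_pos h] at h1
      obtain ⟨y', hy', hm⟩ := h.choose_spec
      exact hy'.trans_lt (hlt s (hsr.trans (hr.trans hq)) _ _ h1 _ _ (down_meets _ _ hm _ hsd)
        (down_meets _ _ hy _ hsr))
    · exact absurd (hsr.trans hr) (h s hsd)
  obtain ⟨o, -⟩ := bound hκ (s := (∅ : Set κ.ord.ToType)) (by
    rw [mk_eq_zero]
    exact aleph0_pos.trans h0)
  have hne : Nonempty κ.ord.ToType := ⟨o⟩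
  have hneK : Nonempty K := by
    obtain ⟨s, _, y, _⟩ := htot p le_rfl o
    exact ⟨y⟩
  choose! X hX using hB
  -- small subsets are bounded
  have hC : ∀ Z ⊆ U, #Z < κ → ∃ u ∈ U, ∀ z ∈ Z, z < u := by
    intro Z hZ hZ'
    obtain ⟨ξ, hξ⟩ := bound' hκ (fun z : Z => X z.1) hZ'
    obtain ⟨r, hr, y, hy⟩ := htot q hq ξ
    refine ⟨y, hU1 r hr ξ y hy, fun z hz => ?_⟩
    obtain ⟨s, hs, y', hy'⟩ := htot r (hr.trans hq) (X z)
    exact (hX z (hZ hz) s (hs.trans hr) y' hy').trans
      (hlt s (hs.trans (hr.trans hq)) _ _ (hξ ⟨z, hz⟩) _ _ hy' (down_meets _ _ hy _ hs))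
  have hphi : ∀ x ∈ U, ∃ u ∈ U, ∀ r ≤ q, ∀ y, r ∈ meets (F (X x) y) → y < u := by
    intro x hx
    obtain ⟨u, hu, h⟩ := hC {y | ∃ r ≤ q, r ∈ meets (F (X x) y)} (by
      rintro y ⟨r, hr, hy⟩
      exact hU1 r hr _ y hy) (values hκ h0 (down_IsFun F p hp.1 q hq) (X x))
    exact ⟨u, hu, fun r hr y hy => h y ⟨r, hr, hy⟩⟩
  choose! phi hphi1 hphi2 using hphi
  -- the sequence
  let M := μ.ord.ToType
  have hMκ : #M < κ := by rw [mk_ord_toType]; exact hμκ
  have hsmall : ∀ (i : M) (g : ∀ j : M, j < i → U),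
      ∃ u : U, ∀ j (h : j < i), phi (g j h).1 < u.1 := by
    intro i g
    obtain ⟨u, hu, h⟩ := hC (range fun j : Iio i => phi (g j.1 j.2).1) (by
      rintro _ ⟨j, rfl⟩
      exact hphi1 _ (g j.1 j.2).2) (mk_range_le.trans_lt ((mk_set_le _).trans_lt hMκ))
    exact ⟨⟨u, hu⟩, fun j hj => h _ ⟨⟨j, hj⟩, rfl⟩⟩
  choose G hG using hsmall
  let g : M → U := (wellFounded_lt (α := M)).fix G
  have hg : ∀ i j : M, j < i → phi (g j).1 < (g i).1 := by
    intro i j hij
    have h1 : g i = G i fun j _ => g j := WellFounded.fix_eq _ _ _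
    rw [h1]
    exact hG i (fun j _ => g j) j hij
  have hphix : ∀ x ∈ U, x < phi x := by
    intro x hx
    obtain ⟨r, hr, y, hy⟩ := htot q hq (X x)
    exact (hX x hx r hr y hy).trans (hphi2 x hx r hr y hy)
  have hgm : ∀ i j : M, j < i → (g j).1 < (g i).1 := fun i j hij =>
    (hphix _ (g j).2).trans (hg i j hij)
  -- the limit
  obtain ⟨u, hu, hgu⟩ := hC (range fun i : M => (g i).1) (by
    rintro _ ⟨i, rfl⟩
    exact (g i).2) (mk_range_le.trans_lt hMκ)
  obtain ⟨x, hx1, hx2⟩ := WellFounded.has_min (wellFounded_lt (α := K))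
    {x | ∀ i, (g i).1 ≤ x} ⟨u, fun i => (hgu _ ⟨i, rfl⟩).le⟩
  have hMmax : ∀ i : M, ∃ j : M, i < j := by
    have : NoMaxOrder M := by
      have h := Cardinal.isSuccLimit_ord hμ.aleph0_le
      exact Cardinal.noMaxOrder hμ.aleph0_le
    intro i
    exact exists_gt i
  have hgx : ∀ i, (g i).1 < x := by
    intro i
    obtain ⟨j, hj⟩ := hMmax i
    exact (hgm j i hj).trans_le (hx1 j)
  have hxcof : ∀ z < x, ∃ i, z < (g i).1 := by
    intro z hz
    by_contra hcon
    push Not at hcon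
    exact hx2 z hcon hz
  have hcof : Order.cof (Iio x) = μ := by
    let f : M → Iio x := fun i => ⟨(g i).1, hgx i⟩
    have hf : StrictMono f := fun j i hij => hgm i j hij
    have hf' : IsCofinal (range f) := by
      rintro ⟨z, hz⟩
      obtain ⟨i, hi⟩ := hxcof z hz
      exact ⟨f i, ⟨i, rfl⟩, hi.le⟩
    rw [← Order.cof_congr_of_strictMono hf hf', Ordinal.cof_toType, hμ.cof_ord]
  -- the index
  have hξm : ∀ i j : M, j < i → X (g j).1 < X (g i).1 := by
    intro i j hij
    obtain ⟨r, hr, y, hy⟩ := htot q hq (X (g j).1)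
    obtain ⟨s, hs, y', hy'⟩ := htot r (hr.trans hq) (X (g i).1)
    have h1 : y < y' := (hphi2 _ (g j).2 r hr y hy).trans
      ((hg i j hij).trans (hX _ (g i).2 s (hs.trans hr) y' hy'))
    by_contra hcon
    rcases (not_lt.1 hcon).eq_or_lt with h | h
    · rw [h] at hy'
      exact h1.ne (IsFun.unique (down_IsFun F p hp.1 s (hs.trans (hr.trans hq)))
        (down_meets _ _ hy _ hs) hy')
    · exact lt_asymm h1 (hlt s (hs.trans (hr.trans hq)) _ _ h _ _ hy' (down_meets _ _ hy _ hs))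
  obtain ⟨b, hb⟩ := bound' hκ (fun i : M => X (g i).1) hMκ
  obtain ⟨ξ, hξ1, hξ2⟩ := WellFounded.has_min (wellFounded_lt (α := κ.ord.ToType))
    {ξ | ∀ i, X (g i).1 ≤ ξ} ⟨b, fun i => (hb i).le⟩
  have hξ : ∀ i, X (g i).1 < ξ := by
    intro i
    obtain ⟨j, hj⟩ := hMmax i
    exact (hξm j i hj).trans_le (hξ1 j)
  have hξcof : ∀ η < ξ, ∃ i, η < X (g i).1 := by
    intro η hη
    by_contra hcon
    push Not at hcon
    exact hξ2 η hcon hη
  have hMne : Nonempty M := by
    rw [← mk_ne_zero_iff, mk_ord_toType]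
    exact (aleph0_pos.trans_le hμ.aleph0_le).ne'
  have hξl : Order.IsSuccLimit ξ := by
    obtain ⟨i0⟩ := hMne
    refine ⟨fun hmin => not_lt.2 (hmin (hξ i0).le) (hξ i0), fun a hcov => ?_⟩
    obtain ⟨i, hi⟩ := hξcof a hcov.lt
    exact hcov.2 hi (hξ i)
  obtain ⟨r, hr, y, hy⟩ := htot q hq ξ
  have hxy : x ≤ y := by
    by_contra hcon
    obtain ⟨i, hi⟩ := hxcof y (not_le.1 hcon)
    obtain ⟨s, hs, y', hy'⟩ := htot r (hr.trans hq) (X (g i).1)
    have h1 := hX _ (g i).2 s (hs.trans hr) y' hy'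
    have h2 := hlt s (hs.trans (hr.trans hq)) _ _ (hξ i) _ _ hy' (down_meets _ _ hy _ hs)
    exact lt_asymm hi (h1.trans h2)
  have hyx : y ≤ x := by
    refine IsClosedCopy.le (down_IsClosedCopy F p hp r (hr.trans hq)) hξl hy
      fun η hη z s hs hz => ?_
    obtain ⟨i, hi⟩ := hξcof η hη
    obtain ⟨t, ht, y', hy'⟩ := htot s (hs.trans (hr.trans hq)) (X (g i).1)
    have h1 := hphi2 _ (g i).2 t (ht.trans (hs.trans hr)) y' hy'
    obtain ⟨j, hj⟩ := hMmax i
    exact (hlt t (ht.trans (hs.trans (hr.trans hq))) _ _ hi _ _ (down_meets _ _ hz _ ht) hy').trans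
      (h1.trans ((hg j i hj).trans (hgx j)))
  exact ⟨r, hr.trans hq, ξ, x, hcof, by rw [le_antisymm hxy hyx]; exact hy⟩

end

end Pool.Agent.R580.LevyCollapse
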