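import Mathlib
import Pool.Agent.R580.Levy

set_option autoImplicit false

/-!
# Colouring by cofinalities
-/

universe u

namespace Pool.Agent.R580.LevyFinal

open Cardinal Set Pool.Agent.Helper669.Forcing Pool.Agent.R580.CCDefs
  Pool.Agent.R580.LevyCollapse

variable {κ : Cardinal.{u}}

/-- an increasing sequence of regular cardinals below `κ` -/
noncomputable def car (κ : Cardinal.{u}) : κ.ord.ToType → Cardinal.{u} :=
  (wellFounded_lt (α := κ.ord.ToType)).fix fun i ih =>
    Order.succ (max ℵ₀ (Cardinal.sum fun j : Iio i => ih j.1 j.2))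

theorem car_eq (i : κ.ord.ToType) :
    car κ i = Order.succ (max ℵ₀ (Cardinal.sum fun j : Iio i => car κ j.1)) :=
  WellFounded.fix_eq _ _ _

theorem car_regular (i : κ.ord.ToType) : (car κ i).IsRegular := by
  rw [car_eq]
  exact isRegular_succ (le_max_left _ _)

theorem car_lt (hκ : κ.IsRegular) (h0 : ℵ₀ < κ) (hlim : ∀ μ < κ, Order.succ μ < κ)
    (i : κ.ord.ToType) : car κ i < κ := by
  induction i using WellFoundedLT.induction with
  | ind i ih =>
    rw [car_eq]
    exact hlim _ (max_lt h0 (sum_lt_of_isRegular hκ (mk_Iio_lt' i) fun j => ih j.1 j.2))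

theorem car_strictMono : StrictMono (car κ) := by
  intro j i hij
  rw [car_eq i]
  exact Order.lt_succ_iff.2 ((le_sum (fun j : Iio i => car κ j.1) ⟨j, hij⟩).trans (le_max_right _ _))

section

variable {K : Type u} [LinearOrder K] [WellFoundedLT K]

/-- After the Levy collapse of a weakly inaccessible cardinal there is a colouring of pairs as
required, for every well-ordered set. -/
theorem surjective (hκ : κ.IsRegular) (h0 : ℵ₀ < κ) (hlim : ∀ μ < κ, Order.succ μ < κ)
    (p : Levy κ) : p ∈ Surjective (Levy κ) κ.ord.ToType K := by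
  classical
  obtain ⟨o, -⟩ := bound hκ (s := (∅ : Set κ.ord.ToType)) (by
    rw [mk_eq_zero]
    exact aleph0_pos.trans h0)
  have hne : Nonempty κ.ord.ToType := ⟨o⟩
  let col : K → κ.ord.ToType := fun x => Function.invFun (car κ) (Order.cof (Iio x))
  let C : K → K → κ.ord.ToType → Set (Levy κ) := fun x _ ν => {_r | col x = ν}
  have hC : ∀ x y ν (r : Levy κ), r ∈ meets (C x y ν) ↔ col x = ν := by
    intro x y ν r
    constructor
    · intro h
      obtain ⟨_, _, s, hs, _⟩ := h r le_rfl
      exact hs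
    · intro h
      exact meets_of_mem h
  refine mem_fex_of_mem C (down_fand (down_fall fun _ => down_fall fun _ => down_fall fun _ =>
    down_fand (down_fex _) (down_fall fun _ => down_fall fun _ => down_fimp _ _))
    (down_fall fun _ => down_fimp _ _)) ⟨fun x y _ => ⟨mem_fex.2 fun q _ => ⟨q, le_rfl, col x,
      (hC x y _ q).2 rfl⟩, fun ν ν' => mem_fimp.2 fun q _ hq => ⟨q, le_rfl, ?_⟩⟩,
      fun F => mem_fimp.2 fun q _ hq => ⟨q, le_rfl, fun ν => mem_hasPair fun r hr => ?_⟩⟩
  · exact ((hC x y _ q).1 hq.1).symm.trans ((hC x y _ q).1 hq.2)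
  · obtain ⟨s, hs, ξ, x, hx, hm⟩ := exists_point hκ h0 (down_IsClosedCopy F q hq r hr)
      (car_regular ν) (car_lt hκ h0 hlim ν)
    obtain ⟨η, hη⟩ := bound hκ (s := {ξ}) (by
      rw [mk_singleton]
      exact one_lt_aleph0.trans h0)
    obtain ⟨t, ht, y, hy⟩ := IsFun.total
      (down_IsFun F q hq.1 s (hs.trans hr)) η
    have hm' := down_meets _ _ hm _ ht
    refine ⟨t, ht.trans hs, ξ, η, x, y, ?_, hm', hy, (hC x y _ t).2 ?_⟩
    · exact IsClosedCopy.lt (down_IsClosedCopy F q hq t (ht.trans (hs.trans hr))) (hη ξ rfl) hm' hy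
    · show Function.invFun (car κ) (Order.cof (Iio x)) = ν
      rw [hx]
      exact Function.leftInverse_invFun car_strictMono.injective ν

/-- the version for colourings of points -/
theorem points (hκ : κ.IsRegular) (h0 : ℵ₀ < κ) (hlim : ∀ μ < κ, Order.succ μ < κ)
    (p : Levy κ) : p ∈ PointSurjective (Levy κ) κ.ord.ToType K := by
  classical
  obtain ⟨o, -⟩ := bound hκ (s := (∅ : Set κ.ord.ToType)) (by
    rw [mk_eq_zero]
    exact aleph0_pos.trans h0)
  have hne : Nonempty κ.ord.ToType := ⟨o⟩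
  let col : K → κ.ord.ToType := fun x => Function.invFun (car κ) (Order.cof (Iio x))
  let C : K → κ.ord.ToType → Set (Levy κ) := fun x ν => {_r | col x = ν}
  have hC : ∀ x ν (r : Levy κ), r ∈ meets (C x ν) ↔ col x = ν := by
    intro x ν r
    constructor
    · intro h
      obtain ⟨_, _, s, hs, _⟩ := h r le_rfl
      exact hs
    · intro h
      exact meets_of_mem h
  refine mem_fex_of_mem C (down_fand (down_IsFun _) (down_fall fun _ => down_fimp _ _))
    ⟨⟨fun x => mem_fex.2 fun q _ => ⟨q, le_rfl, col x, (hC x _ q).2 rfl⟩,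
      fun x ν ν' => mem_fimp.2 fun q _ hq => ⟨q, le_rfl, ?_⟩⟩,
      fun F => mem_fimp.2 fun q _ hq => ⟨q, le_rfl, fun ν => mem_fex.2 fun r hr => ?_⟩⟩
  · exact ((hC _ _ _).1 hq.1).symm.trans ((hC _ _ _).1 hq.2)
  · obtain ⟨s, hs, ξ, x, hx, hm⟩ := exists_point hκ h0 (down_IsClosedCopy F q hq r hr)
      (car_regular ν) (car_lt hκ h0 hlim ν)
    refine ⟨s, hs, ξ, mem_fex_of_mem x (down_fand (down_meets _) (down_meets _))
      ⟨hm, (hC _ _ _).2 ?_⟩⟩
    show Function.invFun (car κ) (Order.cof (Iio x)) = ν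
    rw [hx]
    exact Function.leftInverse_invFun car_strictMono.injective ν

end

end Pool.Agent.R580.LevyFinal
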