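import Mathlib
import Pool.Agent.R580.CCDefs

set_option autoImplicit false

/-!
# Uncountably many colours on closed copies of `ω₁`
-/

universe u v w

namespace Pool.Agent.R580.ManyColours

open Pool.Agent.Helper669.Forcing Pool.Agent.R580.CCDefs

variable {P : Type u} [Preorder P] {L : Type v} [LinearOrder L] {K : Type w} [LinearOrder K]

/-- In the extension there is a colouring of the pairs of elements of `K` with colours in `L` such
that, for every closed set of order type `ω₁`, no function on `ℕ` has all the colours of its pairs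
as values. -/
def ManyColours (P : Type u) [Preorder P] (L : Type v) [LinearOrder L] (K : Type w)
    [LinearOrder K] : Set P :=
  fex fun C : K → K → L → Set P => fand (IsColouring C)
    (fall fun F : L → K → Set P => fimp (IsClosedCopy F)
      (fnot (fex fun R : ℕ → L → Set P => fand (IsFun R)
        (fall fun ν => fimp (HasPair C F ν) (fex fun n => meets (R n ν))))))

theorem manyColours {p : P} (h1 : p ∈ IsOmegaOne P L) (h2 : p ∈ Surjective P L K) :
    p ∈ ManyColours P L K := by
  refine mem_fex.2 fun q hq => ?_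
  obtain ⟨r, hr, C, hC1, hC2⟩ := mem_fex.1 h2 q hq
  refine ⟨r, hr, C, hC1, fun F => mem_fimp.2 fun s hs hF => ?_⟩
  obtain ⟨t, ht, h3⟩ := mem_fimp.1 (hC2 F) s hs hF
  refine ⟨t, ht, fun a ha h4 => ?_⟩
  obtain ⟨b, hb, R, hR1, hR2⟩ := mem_fex.1 h4 a le_rfl
  have hbp : b ≤ p := hb.trans (ha.trans (ht.trans (hs.trans (hr.trans hq))))
  refine h1.1 b hbp (mem_fex_of_mem R (down_fand (down_IsFun _) (down_IsOnto _)) ⟨hR1, fun ν => ?_⟩)
  refine mem_fex.2 fun d hd => ?_
  have h5 : d ∈ HasPair C F ν := down_fex _ _ (h3 ν) d (hd.trans (hb.trans ha))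
  obtain ⟨e, he, h6⟩ := mem_fimp.1 (hR2 ν) d hd h5
  obtain ⟨g, hg, n, hn⟩ := mem_fex.1 h6 e le_rfl
  exact ⟨g, hg.trans he, n, hn⟩

end Pool.Agent.R580.ManyColours
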