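import Pool.Agent.R580.Hurwitz5

set_option autoImplicit false

/-! Helper file for MP_f1b42c_lc: reset tuples of automata. -/

namespace Pool.Agent.NPC.Hurw

open Finset Pool.Agent.R580.Hurwitz

variable {n m : ℕ}

/-- The matrix of the `i`-th action: the entry `(q, p)` is `1` iff `a i p = q`. -/
def mat (a : Fin m → Fin n → Fin n) (i : Fin m) : Matrix (Fin n) (Fin n) ℚ :=
  Matrix.of fun q p => if a i p = q then 1 else 0

/-- The state reached from `p` by the word `w` (its first letter acts first). -/
def act (a : Fin m → Fin n → Fin n) (p : Fin n) (w : List (Fin m)) : Fin n :=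
  w.foldl (fun q i => a i q) p

/-- the transition tables -/
def table (a : Fin m → Fin n → Fin n) : List (List ℕ) :=
  List.ofFn fun i => List.ofFn fun p => (a i p : ℕ)

lemma mat_nonneg (a : Fin m → Fin n → Fin n) (k : Fin m) (i j : Fin n) : 0 ≤ mat a k i j := by
  unfold mat
  rw [Matrix.of_apply]
  split_ifs <;> norm_num

lemma mat_pos {a : Fin m → Fin n → Fin n} {k : Fin m} {i j : Fin n} :
    0 < mat a k i j ↔ a k j = i := by
  unfold mat
  rw [Matrix.of_apply]
  split_ifs with h <;> simp [h]

lemma act_of_walk {a : Fin m → Fin n → Fin n} : ∀ {l : List (Fin m)} {q p : Fin n},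
    Walk (fun k i j => 0 < mat a k i j) l q p → act a p l.reverse = q := by
  intro l
  induction l with
  | nil =>
    intro q p h
    have : q = p := h
    rw [this]; rfl
  | cons k l ih =>
    rintro q p ⟨b, h1, h2⟩
    have h3 := ih h2
    have h4 := mat_pos.1 h1
    unfold act at h3 ⊢
    rw [List.reverse_cons, List.foldl_append, h3]
    exact h4

/-- from the tables to the matrices -/
def conv (t : List (List ℕ)) : Inp :=
  t.map fun row => (List.range row.length).map fun q => row.map fun v =>
    if v = q then ((1 : ℤ), (1 : ℕ)) else ((0 : ℤ), (1 : ℕ))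

lemma poly_conv : Poly conv := by
  refine Poly.map (F := fun (_ : List (List ℕ)) (row : List ℕ) =>
    (List.range row.length).map fun q => row.map fun v =>
      if v = q then ((1 : ℤ), (1 : ℕ)) else ((0 : ℤ), (1 : ℕ))) Poly.id ?_
  refine Poly.map (F := fun (p : List (List ℕ) × List ℕ) (q : ℕ) => p.2.map fun v =>
      if v = q then ((1 : ℤ), (1 : ℕ)) else ((0 : ℤ), (1 : ℕ)))
    (UPoly.range (UPoly.length (Poly.snd Poly.id))) ?_
  refine Poly.map (F := fun (p : (List (List ℕ) × List ℕ) × ℕ) (v : ℕ) =>
      if v = p.2 then ((1 : ℤ), (1 : ℕ)) else ((0 : ℤ), (1 : ℕ)))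
    (Poly.snd (Poly.fst Poly.id)) ?_
  exact Poly.ite (Poly.decide_eq (Poly.snd Poly.id) (Poly.snd (Poly.fst Poly.id)))
    (Poly.const _) (Poly.const _)

lemma conv_table (a : Fin m → Fin n → Fin n) : conv (table a) = rawc (mat a) := by
  unfold conv table rawc
  rw [List.map_ofFn]
  congr 1
  funext k
  simp only [Function.comp, List.length_ofFn]
  have h1 : ∀ (f : ℕ → List (ℤ × ℕ)), (List.range n).map f = List.ofFn fun i : Fin n => f i := by
    intro f
    rw [List.ofFn_eq_map, ← List.map_coe_finRange_eq_range, List.map_map]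
    rfl
  rw [h1]
  congr 1
  funext q
  rw [List.map_ofFn]
  congr 1
  funext p
  simp only [Function.comp, mat, Matrix.of_apply]
  by_cases h : a k p = q
  · rw [if_pos (congrArg Fin.val h), if_pos h]
    rfl
  · rw [if_neg (fun h' => h (Fin.ext h')), if_neg h]
    rfl

end Pool.Agent.NPC.Hurw
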